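import Pool.Agent.FisherMin.Nice

/-!
A purely analytic lemma: a super-exponentially small perturbation of eventually constant sign
cannot have constant Gaussian-weighted integrals along a sequence tending to infinity.
-/

open MeasureTheory Filter Topology

namespace Pool.Agent.FisherMin

lemma ExpBdd.abs {w : ℝ → ℝ} (hw : ExpBdd w) : ExpBdd (fun x => |w x|) :=
  hw.of_le fun x => by rw [abs_abs]

lemma expBdd_exp_abs (b : ℝ) (hb : 0 ≤ b) : ExpBdd (fun x => Real.exp (b * |x|)) :=
  ⟨1, b, zero_le_one, hb, fun x => by rw [Real.abs_exp, one_mul]⟩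

/-- bound on shifted functions -/
lemma shift_bound {w : ℝ → ℝ} {C b x0 M : ℝ} (hC : 0 ≤ C) (hb : 0 ≤ b) (hx0 : 0 < x0)
    (hw : ∀ x, |w x| ≤ C * Real.exp (b * |x|)) (hM : ∀ x, x0 ≤ x → |w x| ≤ M) (hM0 : 0 ≤ M)
    {u : ℝ} (hu : 0 ≤ u) (y : ℝ) :
    |w (y + u)| ≤ M + C * Real.exp (b * x0) * Real.exp (b * |y|) := by
  by_cases h : x0 ≤ y + u
  · have := hM _ h
    have : 0 ≤ C * Real.exp (b * x0) * Real.exp (b * |y|) := by positivity
    linarith [hM _ h]
  · push Not at h
    have h1 : |y + u| ≤ x0 + |y| := by
      rw [abs_le]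
      constructor
      · have := neg_abs_le y
        linarith
      · have := abs_nonneg y
        linarith
    calc |w (y + u)| ≤ C * Real.exp (b * |y + u|) := hw _
      _ ≤ C * Real.exp (b * (x0 + |y|)) := by gcongr
      _ = C * Real.exp (b * x0) * Real.exp (b * |y|) := by
          rw [mul_add, Real.exp_add]; ring
      _ ≤ _ := by linarith

section

variable {η r : ℝ → ℝ} (hηm : Measurable η) (hrm : Measurable r)
  (hηb : ExpBdd η) (hrb : ExpBdd r)
include hηm hrm hηb hrb

/-- the integrals tend to zero -/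
lemma tendsto_zero_int {x0 K K' C : ℝ} (hx0 : 0 < x0) (hK : 0 ≤ K) (hC : 0 ≤ C)
    (h2 : ∀ x, x0 ≤ x → |η x| ≤ K * Real.exp (-x ^ 2 / 2 + K' * x))
    (h3 : ∀ x, x0 ≤ x → |r x| ≤ C) (u : ℕ → ℝ) (hu : Tendsto u atTop atTop) :
    Tendsto (fun k => ∫ x, η x * (2 * (u k - x) - r x) * phi (x - u k)) atTop (𝓝 0) := by
  obtain ⟨Cη, bη, hCη, hbη, hη⟩ := hηb
  obtain ⟨Cr, br, hCr, hbr, hr⟩ := hrb
  have hηM : ∀ x, x0 ≤ x → |η x| ≤ K * Real.exp (K' ^ 2 / 2) := by
    intro x hx
    refine (h2 x hx).trans ?_
    gcongr
    nlinarith [sq_nonneg (x - K')]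
  have hshift : ∀ k, ∫ x, η x * (2 * (u k - x) - r x) * phi (x - u k) =
      ∫ y, η (y + u k) * (-2 * y - r (y + u k)) * phi y := by
    intro k
    rw [← integral_add_right_eq_self _ (u k)]
    congr 1
    ext y
    rw [show y + u k - u k = y by ring]
    ring
  simp_rw [hshift]
  have hzero : (0 : ℝ) = ∫ _ : ℝ, (0 : ℝ) := by simp
  rw [hzero]
  set B : ℝ → ℝ := fun y => (K * Real.exp (K' ^ 2 / 2) +
      Cη * Real.exp (bη * x0) * Real.exp (bη * |y|)) *
      (2 * |y| + (C + Cr * Real.exp (br * x0) * Real.exp (br * |y|))) with hB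
  have hBb : ExpBdd B := by
    refine ExpBdd.mul ?_ ?_
    · exact (ExpBdd.const _).add ((ExpBdd.const _).mul (expBdd_exp_abs bη hbη))
    · exact ((ExpBdd.const 2).mul ExpBdd.id.abs).add
        ((ExpBdd.const _).add ((ExpBdd.const _).mul (expBdd_exp_abs br hbr)))
  have hBm : Measurable B := by rw [hB]; fun_prop
  refine tendsto_integral_filter_of_dominated_convergence (fun y => B y * phi y) ?_ ?_ ?_ ?_
  · exact Eventually.of_forall fun k => (by fun_prop : Measurable fun y =>
      η (y + u k) * (-2 * y - r (y + u k)) * phi y).aestronglyMeasurable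
  · filter_upwards [hu.eventually (eventually_ge_atTop 0)] with k hk
    refine ae_of_all _ fun y => ?_
    rw [Real.norm_eq_abs, abs_mul, abs_mul, abs_of_nonneg (phi_nonneg y)]
    have a1 := shift_bound hCη hbη hx0 hη hηM (by positivity) hk y
    have a2 := shift_bound hCr hbr hx0 hr h3 hC hk y
    have a3 : |-2 * y - r (y + u k)| ≤ 2 * |y| + (C + Cr * Real.exp (br * x0) *
        Real.exp (br * |y|)) := by
      have : |-2 * y - r (y + u k)| ≤ |-2 * y| + |r (y + u k)| := abs_sub _ _
      rw [abs_mul, abs_neg, abs_two] at this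
      linarith
    have := phi_nonneg y
    have a4 := abs_nonneg (-2 * y - r (y + u k))
    have a5 := abs_nonneg (η (y + u k))
    simp only [hB]
    gcongr
  · have := hBb.integrable_mul_phi hBm 0
    simpa using this
  · refine ae_of_all _ fun y => ?_
    have hyu : Tendsto (fun k => y + u k) atTop atTop := tendsto_atTop_add_const_left _ _ hu
    have hdec : Tendsto (fun x : ℝ => K * Real.exp (-x ^ 2 / 2 + K' * x)) atTop (𝓝 0) := by
      have h4 : Tendsto (fun x : ℝ => -x ^ 2 / 2 + K' * x) atTop atBot := by
        have h5 : Tendsto (fun x : ℝ => x * (x / 2 - K')) atTop atTop :=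
          tendsto_id.atTop_mul_atTop₀ (tendsto_atTop_add_const_right _ _
            (tendsto_id.atTop_div_const (by norm_num)))
        refine (tendsto_neg_atTop_atBot.comp h5).congr fun x => ?_
        simp only [Function.comp]
        ring
      have := (Real.tendsto_exp_atBot.comp h4).const_mul K
      simpa using this
    -- η (y+u k) → 0
    have hη0 : Tendsto (fun k => η (y + u k)) atTop (𝓝 0) := by
      rw [tendsto_zero_iff_abs_tendsto_zero]
      refine squeeze_zero' (Eventually.of_forall fun k => abs_nonneg _) ?_ (hdec.comp hyu)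
      filter_upwards [hyu.eventually (eventually_ge_atTop x0)] with k hk
      exact h2 _ hk
    have hbd : ∀ᶠ k in atTop, |(-2 * y - r (y + u k))| ≤ 2 * |y| + C := by
      filter_upwards [hyu.eventually (eventually_ge_atTop x0)] with k hk
      have : |-2 * y - r (y + u k)| ≤ |-2 * y| + |r (y + u k)| := abs_sub _ _
      rw [abs_mul, abs_neg, abs_two] at this
      linarith [h3 _ hk]
    have hprod : Tendsto (fun k => η (y + u k) * (-2 * y - r (y + u k))) atTop (𝓝 0) := by
      rw [tendsto_zero_iff_abs_tendsto_zero] at hη0 ⊢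
      have h6 : Tendsto (fun k => |η (y + u k)| * (2 * |y| + C)) atTop (𝓝 0) := by
        simpa using hη0.mul_const (2 * |y| + C)
      refine squeeze_zero' (Eventually.of_forall fun k => abs_nonneg _) ?_ h6
      filter_upwards [hbd] with k hk
      rw [Function.comp, abs_mul]
      gcongr
    simpa using hprod.mul_const (phi y)

/-- the integrals have a strict sign eventually -/
lemma eventually_pos_int {σ : ℝ} (hσ : |σ| = 1) {x0 K K' C : ℝ} (hx0 : 0 < x0) (hK : 0 ≤ K)
    (hK' : 0 ≤ K') (hC : 0 ≤ C)
    (h1 : ∀ x, x0 ≤ x → 0 < σ * η x)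
    (h2 : ∀ x, x0 ≤ x → |η x| ≤ K * Real.exp (-x ^ 2 / 2 + K' * x))
    (h3 : ∀ x, x0 ≤ x → |r x| ≤ C) :
    ∀ᶠ u in atTop, 0 < σ * ∫ x, η x * (2 * (u - x) - r x) * phi (x - u) := by
  set A := ∫ x, |η x| * phi x with hA
  set B := ∫ x, |η x| * (2 * |x| + |r x|) * phi x with hB
  set A1 := ∫ x, Real.exp ((K' + 1) * |x|) * phi x with hA1
  have hA0 : 0 ≤ A := integral_nonneg fun x => mul_nonneg (abs_nonneg _) (phi_nonneg _)
  have hB0 : 0 ≤ B := integral_nonneg fun x =>
    mul_nonneg (mul_nonneg (abs_nonneg _) (by positivity)) (phi_nonneg _)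
  have hA10 : 0 ≤ A1 := integral_nonneg fun x => mul_nonneg (Real.exp_pos _).le (phi_nonneg _)
  set K3 := C + K' + 1 with hK3
  set M := max (x0 + 1) K3 with hM
  have hM1 : x0 + 1 ≤ M := le_max_left _ _
  have hM2 : K3 ≤ M := le_max_right _ _
  set x1 := M + 1 with hx1
  have iη : Integrable (fun x => |η x| * phi x) := by
    simpa using hηb.abs.integrable_mul_phi (by fun_prop) 0
  have hηrb : ExpBdd (fun x => |η x| * (2 * |x| + |r x|)) :=
    hηb.abs.mul (((ExpBdd.const 2).mul ExpBdd.id.abs).add hrb.abs)
  have iηr : Integrable (fun x => |η x| * (2 * |x| + |r x|) * phi x) := by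
    simpa using hηrb.integrable_mul_phi (by fun_prop) 0
  have iσ : Integrable (fun x => σ * η x * phi x) := by
    have := ((ExpBdd.const σ).mul hηb).integrable_mul_phi (by fun_prop) 0
    simpa using this
  set c1 := ∫ x in Set.Icc x1 (x1 + 1), σ * η x * phi x with hc1
  have hc1pos : 0 < c1 := by
    rw [hc1, setIntegral_pos_iff_support_of_nonneg_ae]
    · have : Function.support (fun x => σ * η x * phi x) ∩ Set.Icc x1 (x1 + 1) =
          Set.Icc x1 (x1 + 1) := by
        rw [Set.inter_eq_right]
        intro x hx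
        have hxx : x0 ≤ x := by linarith [hx.1]
        exact (mul_pos (h1 x hxx) (phi_pos x)).ne'
      rw [this, Real.volume_Icc]
      simp
    · rw [Filter.EventuallyLE, ae_restrict_iff' measurableSet_Icc]
      refine ae_of_all _ fun x hx => ?_
      have hxx : x0 ≤ x := by linarith [hx.1]
      exact (mul_pos (h1 x hxx) (phi_pos x)).le
    · exact iσ.integrableOn
  set K2 := K * (2 + 2 * C) * A1 with hK2
  have hK20 : 0 ≤ K2 := by positivity
  set Kt := (2 * A + B) + K2 with hKt
  have hKt0 : 0 ≤ Kt := by positivity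
  -- eventually
  have hev : ∀ᶠ u : ℝ in atTop, Kt < 2 * c1 * Real.exp u := by
    have : Tendsto (fun u : ℝ => 2 * c1 * Real.exp u) atTop atTop :=
      Real.tendsto_exp_atTop.const_mul_atTop (by positivity)
    exact this.eventually (eventually_gt_atTop Kt)
  filter_upwards [hev, eventually_ge_atTop (x1 + 1 + C + 1), eventually_ge_atTop (0 : ℝ)]
    with u hu1 hu2 hu0
  -- integrability of the three comparison functions
  have i1 : Integrable (fun x => Set.indicator (Set.Icc x1 (x1 + 1))
      (fun x => σ * η x * phi x) x) := iσ.indicator measurableSet_Icc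
  have hE : Integrable (fun x => Real.exp ((K' + 1) * |x|) * phi x) := by
    simpa using (expBdd_exp_abs (K' + 1) (by linarith)).integrable_mul_phi (by fun_prop) 0
  have i3 : Integrable (fun x => Real.exp ((K' + 1) * |x - u|) * phi (x - u)) :=
    hE.comp_sub_right u
  have ifull : Integrable (fun x => η x * (2 * (u - x) - r x) * phi (x - u)) := by
    have h5 : ExpBdd (fun x => η x * (2 * (u - x) - r x)) :=
      hηb.mul (((ExpBdd.const 2).mul ((ExpBdd.const u).sub ExpBdd.id)).sub hrb)
    exact h5.integrable_mul_phi (by fun_prop) u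
  -- pointwise lower bound
  have hpt : ∀ x, 2 * Real.exp (x1 * u - u ^ 2 / 2) *
        Set.indicator (Set.Icc x1 (x1 + 1)) (fun x => σ * η x * phi x) x
      - Real.exp (x0 * u - u ^ 2 / 2) * (2 * u * (|η x| * phi x) +
          |η x| * (2 * |x| + |r x|) * phi x)
      - K * (2 + 2 * C) * Real.exp (K3 * u - u ^ 2 / 2) *
          (Real.exp ((K' + 1) * |x - u|) * phi (x - u))
      ≤ σ * (η x * (2 * (u - x) - r x) * phi (x - u)) := by
    intro x
    have hphi : phi (x - u) = phi x * Real.exp (x * u - u ^ 2 / 2) := by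
      unfold phi
      rw [mul_assoc, ← Real.exp_add]
      congr 2
      ring
    have hT3 : 0 ≤ K * (2 + 2 * C) * Real.exp (K3 * u - u ^ 2 / 2) *
          (Real.exp ((K' + 1) * |x - u|) * phi (x - u)) := by
      have := phi_nonneg (x - u)
      positivity
    have hT2 : 0 ≤ Real.exp (x0 * u - u ^ 2 / 2) * (2 * u * (|η x| * phi x) +
          |η x| * (2 * |x| + |r x|) * phi x) := by
      have := phi_nonneg x
      positivity
    by_cases hx : x0 ≤ x
    · have hη1 := h1 x hx
      have hr1 := abs_le.1 (h3 x hx)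
      by_cases hxu : x ≤ u - C
      · -- the integrand is nonnegative
        have hnn : 0 ≤ 2 * (u - x) - r x := by linarith [hr1.2]
        by_cases hI : x ∈ Set.Icc x1 (x1 + 1)
        · rw [Set.indicator_of_mem hI]
          have h6 : 2 ≤ 2 * (u - x) - r x := by
            have := hI.2
            linarith [hr1.2]
          have h7 : Real.exp (x1 * u - u ^ 2 / 2) ≤ Real.exp (x * u - u ^ 2 / 2) := by
            apply Real.exp_le_exp.2
            have := mul_le_mul_of_nonneg_right hI.1 hu0
            linarith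
          have h8 : 2 * Real.exp (x1 * u - u ^ 2 / 2) * (σ * η x * phi x) ≤
              σ * (η x * (2 * (u - x) - r x) * phi (x - u)) := by
            rw [hphi]
            have := phi_pos x
            have h9 : 2 * Real.exp (x1 * u - u ^ 2 / 2) ≤
                (2 * (u - x) - r x) * Real.exp (x * u - u ^ 2 / 2) :=
              mul_le_mul h6 h7 (Real.exp_pos _).le (by linarith)
            calc 2 * Real.exp (x1 * u - u ^ 2 / 2) * (σ * η x * phi x)
                ≤ ((2 * (u - x) - r x) * Real.exp (x * u - u ^ 2 / 2)) * (σ * η x * phi x) := by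
                  gcongr
              _ = _ := by ring
          linarith
        · rw [Set.indicator_of_notMem hI]
          have h8 : 0 ≤ σ * (η x * (2 * (u - x) - r x) * phi (x - u)) := by
            have := phi_nonneg (x - u)
            calc (0 : ℝ) ≤ (σ * η x) * (2 * (u - x) - r x) * phi (x - u) := by positivity
              _ = _ := by ring
          linarith
      · push Not at hxu
        have hI : x ∉ Set.Icc x1 (x1 + 1) := by
          intro hI
          have := hI.2
          linarith
        rw [Set.indicator_of_notMem hI]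
        have hxpos : 0 < x := lt_of_lt_of_le hx0 hx
        -- bound the absolute value by T3
        have h8 : |σ * (η x * (min 0 (2 * (u - x) - r x)) * phi (x - u))| ≤
            K * (2 + 2 * C) * Real.exp (K3 * u - u ^ 2 / 2) *
              (Real.exp ((K' + 1) * |x - u|) * phi (x - u)) := by
          rw [abs_mul, hσ, one_mul, abs_mul, abs_mul, abs_of_nonneg (phi_nonneg (x - u))]
          have h10 : |min 0 (2 * (u - x) - r x)| ≤ (2 + 2 * C) * Real.exp x := by
            rw [abs_of_nonpos (min_le_left _ _), neg_le]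
            have h11 := Real.add_one_le_exp x
            have h15 : (2 + 2 * C) * (x + 1) ≤ (2 + 2 * C) * Real.exp x := by gcongr
            have h16 : 0 ≤ C * x := mul_nonneg hC hxpos.le
            refine le_min ?_ ?_
            · have := Real.exp_pos x
              have : 0 ≤ (2 + 2 * C) * Real.exp x := by positivity
              linarith
            · linarith [hr1.2]
          have h12 : |η x| ≤ K * Real.exp (-(u - C) ^ 2 / 2 + K' * x) := by
            refine (h2 x hx).trans ?_
            gcongr
            have h17 : 0 ≤ u - C := by linarith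
            have h18 : (u - C) ^ 2 ≤ x ^ 2 := pow_le_pow_left₀ h17 hxu.le 2
            linarith
          calc |η x| * |min 0 (2 * (u - x) - r x)| * phi (x - u)
              ≤ (K * Real.exp (-(u - C) ^ 2 / 2 + K' * x)) * ((2 + 2 * C) * Real.exp x) *
                  phi (x - u) := by
                have := phi_nonneg (x - u)
                have := abs_nonneg (min 0 (2 * (u - x) - r x))
                gcongr
            _ = K * (2 + 2 * C) * Real.exp (-(u - C) ^ 2 / 2 + K' * x + x) * phi (x - u) := by
                rw [Real.exp_add (-(u - C) ^ 2 / 2 + K' * x) x]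
                ring
            _ ≤ K * (2 + 2 * C) * Real.exp (K3 * u - u ^ 2 / 2 + (K' + 1) * |x - u|) *
                  phi (x - u) := by
                have := phi_nonneg (x - u)
                have hK'1 : 0 ≤ K' + 1 := by linarith
                have h13 : x ≤ u + |x - u| := by
                  have := le_abs_self (x - u)
                  linarith
                have h14 : (K' + 1) * x ≤ (K' + 1) * (u + |x - u|) := by gcongr
                gcongr ?_ * Real.exp ?_ * phi (x - u)
                rw [hK3]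
                have := sq_nonneg C
                linarith
            _ = _ := by rw [Real.exp_add]; ring
        have h9 : σ * (η x * (min 0 (2 * (u - x) - r x)) * phi (x - u)) ≤
            σ * (η x * (2 * (u - x) - r x) * phi (x - u)) := by
          have := phi_nonneg (x - u)
          have h10 : (σ * η x) * min 0 (2 * (u - x) - r x) ≤ (σ * η x) * (2 * (u - x) - r x) :=
            mul_le_mul_of_nonneg_left (min_le_right _ _) hη1.le
          have h11 := mul_le_mul_of_nonneg_right h10 this
          calc σ * (η x * (min 0 (2 * (u - x) - r x)) * phi (x - u))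
              = (σ * η x) * min 0 (2 * (u - x) - r x) * phi (x - u) := by ring
            _ ≤ (σ * η x) * (2 * (u - x) - r x) * phi (x - u) := h11
            _ = _ := by ring
        have h10 := neg_le_of_abs_le h8
        linarith
    · push Not at hx
      have hI : x ∉ Set.Icc x1 (x1 + 1) := by
        intro hI
        have := hI.1
        linarith
      rw [Set.indicator_of_notMem hI]
      have h8 : |σ * (η x * (2 * (u - x) - r x) * phi (x - u))| ≤
          Real.exp (x0 * u - u ^ 2 / 2) * (2 * u * (|η x| * phi x) +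
          |η x| * (2 * |x| + |r x|) * phi x) := by
        rw [abs_mul, hσ, one_mul, abs_mul, abs_mul, abs_of_nonneg (phi_nonneg (x - u)), hphi]
        have h10 : |2 * (u - x) - r x| ≤ 2 * u + (2 * |x| + |r x|) := by
          rw [abs_le]
          have a1 := neg_abs_le x
          have a2 := le_abs_self x
          have a3 := neg_abs_le (r x)
          have a4 := le_abs_self (r x)
          constructor <;> linarith
        have h11 : Real.exp (x * u - u ^ 2 / 2) ≤ Real.exp (x0 * u - u ^ 2 / 2) := by
          apply Real.exp_le_exp.2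
          have := mul_le_mul_of_nonneg_right hx.le hu0
          linarith
        have := phi_nonneg x
        calc |η x| * |2 * (u - x) - r x| * (phi x * Real.exp (x * u - u ^ 2 / 2))
            ≤ |η x| * (2 * u + (2 * |x| + |r x|)) * (phi x * Real.exp (x0 * u - u ^ 2 / 2)) := by
              gcongr
          _ = _ := by ring
      have h10 := neg_le_of_abs_le h8
      linarith
  -- integrate
  have hint := integral_mono (((i1.const_mul (2 * Real.exp (x1 * u - u ^ 2 / 2))).sub
    (((iη.const_mul (2 * u)).add iηr).const_mul (Real.exp (x0 * u - u ^ 2 / 2)))).sub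
    (i3.const_mul (K * (2 + 2 * C) * Real.exp (K3 * u - u ^ 2 / 2)))) (ifull.const_mul σ) hpt
  have hi1 : ∫ x, Set.indicator (Set.Icc x1 (x1 + 1)) (fun x => σ * η x * phi x) x = c1 := by
    rw [integral_indicator measurableSet_Icc]
  have hi3 : ∫ x, Real.exp ((K' + 1) * |x - u|) * phi (x - u) = A1 :=
    integral_sub_right_eq_self (fun x => Real.exp ((K' + 1) * |x|) * phi x) u
  have hlow : ∫ x, (2 * Real.exp (x1 * u - u ^ 2 / 2) *
        Set.indicator (Set.Icc x1 (x1 + 1)) (fun x => σ * η x * phi x) x
      - Real.exp (x0 * u - u ^ 2 / 2) * (2 * u * (|η x| * phi x) +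
          |η x| * (2 * |x| + |r x|) * phi x)
      - K * (2 + 2 * C) * Real.exp (K3 * u - u ^ 2 / 2) *
          (Real.exp ((K' + 1) * |x - u|) * phi (x - u))) =
      2 * Real.exp (x1 * u - u ^ 2 / 2) * c1
      - Real.exp (x0 * u - u ^ 2 / 2) * (2 * u * A + B)
      - K * (2 + 2 * C) * Real.exp (K3 * u - u ^ 2 / 2) * A1 := by
    rw [integral_sub, integral_sub, integral_const_mul, integral_const_mul, integral_const_mul,
      integral_add (iη.const_mul (2 * u)) iηr, integral_const_mul, hi1, hi3]
    · exact i1.const_mul _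
    · exact ((iη.const_mul (2 * u)).add iηr).const_mul _
    · exact (i1.const_mul _).sub (((iη.const_mul (2 * u)).add iηr).const_mul _)
    · exact i3.const_mul _
  have hint2 : 2 * Real.exp (x1 * u - u ^ 2 / 2) * c1
      - Real.exp (x0 * u - u ^ 2 / 2) * (2 * u * A + B)
      - K * (2 + 2 * C) * Real.exp (K3 * u - u ^ 2 / 2) * A1 ≤
      σ * ∫ x, η x * (2 * (u - x) - r x) * phi (x - u) := by
    rw [← hlow, ← integral_const_mul]
    exact hint
  refine lt_of_lt_of_le ?_ hint2
  -- compare
  set E := Real.exp (M * u - u ^ 2 / 2) with hEdef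
  have hEpos : 0 < E := Real.exp_pos _
  have e1 : Real.exp (x1 * u - u ^ 2 / 2) = E * Real.exp u := by
    rw [hEdef, ← Real.exp_add, hx1]; congr 1; ring
  have e2 : Real.exp (x0 * u - u ^ 2 / 2) * (2 * u * A + B) ≤ E * (2 * A + B) := by
    have h10 : 2 * u * A + B ≤ (2 * A + B) * Real.exp u := by
      have h11 := Real.add_one_le_exp u
      have h12 : 2 * A * u ≤ 2 * A * Real.exp u := by gcongr; linarith
      have h13 : B * 1 ≤ B * Real.exp u := by gcongr; linarith
      linarith
    calc Real.exp (x0 * u - u ^ 2 / 2) * (2 * u * A + B)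
        ≤ Real.exp (x0 * u - u ^ 2 / 2) * ((2 * A + B) * Real.exp u) := by gcongr
      _ = (2 * A + B) * Real.exp ((x0 + 1) * u - u ^ 2 / 2) := by
          rw [show (x0 + 1) * u - u ^ 2 / 2 = (x0 * u - u ^ 2 / 2) + u by ring, Real.exp_add]
          ring
      _ ≤ (2 * A + B) * E := by
          rw [hEdef]
          gcongr
      _ = _ := by ring
  have e3 : K * (2 + 2 * C) * Real.exp (K3 * u - u ^ 2 / 2) * A1 ≤ E * K2 := by
    have h10 : Real.exp (K3 * u - u ^ 2 / 2) ≤ E := by
      rw [hEdef]
      gcongr
    calc K * (2 + 2 * C) * Real.exp (K3 * u - u ^ 2 / 2) * A1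
        ≤ K * (2 + 2 * C) * E * A1 := by gcongr
      _ = _ := by rw [hK2]; ring
  have e4 : 0 < E * (2 * c1 * Real.exp u - Kt) := mul_pos hEpos (by linarith)
  rw [e1]
  have e5 : E * (2 * c1 * Real.exp u - Kt) = 2 * (E * Real.exp u) * c1 - E * (2 * A + B)
      - E * K2 := by rw [hKt]; ring
  linarith

/-- **Contradiction lemma.** -/
theorem no_constant {σ : ℝ} (hσ : |σ| = 1) {x0 K K' C : ℝ} (hx0 : 0 < x0) (hK : 0 ≤ K)
    (hK' : 0 ≤ K') (hC : 0 ≤ C)
    (h1 : ∀ x, x0 ≤ x → 0 < σ * η x)
    (h2 : ∀ x, x0 ≤ x → |η x| ≤ K * Real.exp (-x ^ 2 / 2 + K' * x))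
    (h3 : ∀ x, x0 ≤ x → |r x| ≤ C) (u : ℕ → ℝ) (hu : Tendsto u atTop atTop) (D : ℝ)
    (hD : ∀ k, ∫ x, η x * (2 * (u k - x) - r x) * phi (x - u k) = D) : False := by
  have t1 := tendsto_zero_int hηm hrm hηb hrb hx0 hK hC h2 h3 u hu
  have t2 : Tendsto (fun k => ∫ x, η x * (2 * (u k - x) - r x) * phi (x - u k)) atTop
      (𝓝 D) := by
    simp_rw [hD]
    exact tendsto_const_nhds
  have hD0 : D = 0 := tendsto_nhds_unique t2 t1
  have t3 := hu.eventually (eventually_pos_int hηm hrm hηb hrb hσ hx0 hK hK' hC h1 h2 h3)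
  obtain ⟨k, hk⟩ := t3.exists
  rw [hD k, hD0, mul_zero] at hk
  exact lt_irrefl _ hk

end

end Pool.Agent.FisherMin
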