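import Pool.Agent.FisherMin.Structure

/-!
Uniqueness of the minimizer.
-/

open MeasureTheory Filter Topology ProbabilityTheory

namespace Pool.Agent.FisherMin

/-- exponentially tilted-down measure -/
noncomputable def tame (G : Measure ℝ) : Measure ℝ :=
  G.withDensity (fun u => ENNReal.ofReal (Real.exp (-u ^ 2 / 2)))

instance (G : Measure ℝ) [IsFiniteMeasure G] : IsFiniteMeasure (tame G) := by
  unfold tame
  refine isFiniteMeasure_withDensity_ofReal ?_
  refine (Integrable.mono' (integrable_const (1 : ℝ)) (by fun_prop) ?_).2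
  filter_upwards with u
  rw [Real.norm_eq_abs, Real.abs_exp, Real.exp_le_one_iff]
  nlinarith [sq_nonneg u]

lemma tame_integral (G : Measure ℝ) (F : ℝ → ℝ) :
    ∫ u, F u ∂(tame G) = ∫ u, Real.exp (-u ^ 2 / 2) * F u ∂G := by
  unfold tame
  rw [integral_withDensity_eq_integral_toReal_smul (by fun_prop)
    (ae_of_all _ fun u => ENNReal.ofReal_lt_top)]
  simp [ENNReal.toReal_ofReal (Real.exp_pos _).le]

lemma mgf_tame (G : Measure ℝ) (x : ℝ) :
    mgf id (tame G) x = Real.sqrt (2 * Real.pi) * Real.exp (x ^ 2 / 2) * mix G x := by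
  unfold mgf
  rw [tame_integral]
  unfold mix
  rw [← integral_const_mul]
  congr 1
  ext u
  unfold phi
  have hs : Real.sqrt (2 * Real.pi) ≠ 0 := by positivity
  have : Real.sqrt (2 * Real.pi) * Real.exp (x ^ 2 / 2) *
      ((Real.sqrt (2 * Real.pi))⁻¹ * Real.exp (-(x - u) ^ 2 / 2)) =
      Real.exp (x ^ 2 / 2) * Real.exp (-(x - u) ^ 2 / 2) := by
    field_simp
  rw [this, ← Real.exp_add, ← Real.exp_add]
  congr 1
  simp only [id]
  ring

lemma untame (G : Measure ℝ) :
    (tame G).withDensity (fun u => ENNReal.ofReal (Real.exp (u ^ 2 / 2))) = G := by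
  unfold tame
  rw [← withDensity_mul _ (by fun_prop) (by fun_prop)]
  have : ((fun u : ℝ => ENNReal.ofReal (Real.exp (-u ^ 2 / 2))) *
      fun u => ENNReal.ofReal (Real.exp (u ^ 2 / 2))) = 1 := by
    ext u
    simp only [Pi.mul_apply, Pi.one_apply]
    rw [← ENNReal.ofReal_mul (Real.exp_pos _).le, ← Real.exp_add,
      show -u ^ 2 / 2 + u ^ 2 / 2 = 0 by ring, Real.exp_zero, ENNReal.ofReal_one]
  rw [this, withDensity_one]

lemma integrableExpSet_tame (G : Measure ℝ) [IsFiniteMeasure G] :
    integrableExpSet id (tame G) = Set.univ := by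
  ext t
  simp only [integrableExpSet, Set.mem_ofPred_eq, Set.mem_univ, iff_true, id]
  unfold tame
  rw [integrable_withDensity_iff_integrable_smul' (by fun_prop)
    (ae_of_all _ fun u => ENNReal.ofReal_lt_top)]
  simp only [ENNReal.toReal_ofReal (Real.exp_pos _).le, smul_eq_mul]
  refine Integrable.mono' (integrable_const (Real.exp (t ^ 2 / 2))) (by fun_prop) ?_
  filter_upwards with u
  rw [Real.norm_eq_abs, abs_mul, Real.abs_exp, Real.abs_exp, ← Real.exp_add]
  apply Real.exp_le_exp.2
  nlinarith [sq_nonneg (u - t)]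

/-- Gaussian mixtures determine the mixing measure. -/
theorem mix_injective {G₁ G₂ : Measure ℝ} [IsFiniteMeasure G₁] [IsFiniteMeasure G₂]
    (h : ∀ x, mix G₁ x = mix G₂ x) : G₁ = G₂ := by
  have hm : mgf id (tame G₁) = mgf id (tame G₂) := by
    ext x
    rw [mgf_tame, mgf_tame, h]
  have hz : tame G₁ = 0 ↔ tame G₂ = 0 := by
    have key : ∀ G : Measure ℝ, IsFiniteMeasure G → (tame G = 0 ↔ mgf id (tame G) 0 = 0) := by
      intro G hG
      rw [mgf_zero', Measure.real, ENNReal.toReal_eq_zero_iff]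
      constructor
      · intro h; left; rw [h]; simp
      · intro h
        rcases h with h | h
        · exact Measure.measure_univ_eq_zero.1 h
        · exact absurd h (measure_ne_top _ _)
    rw [key G₁ inferInstance, key G₂ inferInstance, hm]
  have hc := eqOn_complexMGF_of_mgf' hm hz
  rw [integrableExpSet_tame] at hc
  have hc' : complexMGF id (tame G₁) = complexMGF id (tame G₂) := by
    ext z
    exact hc (by simp)
  have ht := Measure.ext_of_complexMGF_id_eq hc'
  rw [← untame G₁, ht, untame]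

lemma avg_identity {a b c d : ℝ} (hb : 0 < b) (hd : 0 < d) :
    (a ^ 2 / b + c ^ 2 / d) / 2 - ((a + c) / 2) ^ 2 / ((b + d) / 2) =
      (a * d - c * b) ^ 2 / (2 * b * d * (b + d)) := by
  have h1 : b + d ≠ 0 := by positivity
  field_simp
  ring

/-- average of two measures -/
noncomputable def avg (G₁ G₂ : Measure ℝ) : Measure ℝ := (ENNReal.ofReal (1 / 2)) • (G₁ + G₂)

instance (G₁ G₂ : Measure ℝ) [IsFiniteMeasure G₁] [IsFiniteMeasure G₂] :
    IsFiniteMeasure (avg G₁ G₂) := by
  unfold avg
  exact Measure.smul_finite _ ENNReal.ofReal_ne_top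

lemma integral_avg {G₁ G₂ : Measure ℝ} {F : ℝ → ℝ} (h1 : Integrable F G₁) (h2 : Integrable F G₂) :
    ∫ u, F u ∂(avg G₁ G₂) = (∫ u, F u ∂G₁ + ∫ u, F u ∂G₂) / 2 := by
  unfold avg
  rw [integral_smul_measure, integral_add_measure h1 h2, ENNReal.toReal_ofReal (by norm_num)]
  simp only [smul_eq_mul]
  ring

lemma mix_avg (G₁ G₂ : Measure ℝ) [IsFiniteMeasure G₁] [IsFiniteMeasure G₂] (x : ℝ) :
    mix (avg G₁ G₂) x = (mix G₁ x + mix G₂ x) / 2 := by
  unfold mix
  exact integral_avg (integrable_phi_sub G₁ x) (integrable_phi_sub G₂ x)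

lemma dmix_avg (G₁ G₂ : Measure ℝ) [IsFiniteMeasure G₁] [IsFiniteMeasure G₂] (x : ℝ) :
    dmix (avg G₁ G₂) x = (dmix G₁ x + dmix G₂ x) / 2 := by
  unfold dmix
  exact integral_avg (integrable_neg_mul_phi_sub G₁ x) (integrable_neg_mul_phi_sub G₂ x)

lemma avg_mem {α : ℝ} {G₁ G₂ : Measure ℝ} (h1 : G₁ ∈ classG α) (h2 : G₂ ∈ classG α) :
    avg G₁ G₂ ∈ classG α := by
  have hp1 := h1.1
  have hp2 := h2.1
  have hhalf : ENNReal.ofReal (1 / 2) * 2 = 1 := by
    rw [show (2 : ENNReal) = ENNReal.ofReal 2 by simp, ← ENNReal.ofReal_mul (by norm_num)]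
    norm_num
  refine ⟨⟨?_⟩, ?_, ?_⟩
  · unfold avg
    rw [Measure.smul_apply, Measure.add_apply, measure_univ, measure_univ, smul_eq_mul,
      one_add_one_eq_two, hhalf]
  · unfold avg
    rw [Measure.map_smul, Measure.map_add _ _ measurable_neg]
    congr 2
    · exact h1.2.1
    · exact h2.2.1
  · unfold avg
    rw [Measure.smul_apply, Measure.add_apply, h1.2.2, h2.2.2, smul_eq_mul, ← two_mul,
      ← mul_assoc, hhalf, one_mul]

theorem unique_min {α : ℝ} (h0 : 0 < α) {G₁ G₂ : Measure ℝ} (h1 : G₁ ∈ classG α)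
    (h2 : G₂ ∈ classG α)
    (hm1 : ∀ G' ∈ classG α, fisher (mix G₁) ≤ fisher (mix G'))
    (hm2 : ∀ G' ∈ classG α, fisher (mix G₂) ≤ fisher (mix G')) : G₁ = G₂ := by
  have hp1 := h1.1
  have hp2 := h2.1
  have s1 := std_of_classG h0 h1
  have s2 := std_of_classG h0 h2
  have h3 := avg_mem h1 h2
  have s3 := std_of_classG h0 h3
  have e12 : ∫ x, fint G₁ x = ∫ x, fint G₂ x := by
    have a1 := hm1 G₂ h2
    have a2 := hm2 G₁ h1
    rw [fisher_mix_eq s1, fisher_mix_eq s2] at a1 a2
    rw [ENNReal.ofReal_le_ofReal_iff (integral_nonneg fun x => fint_nonneg x)] at a1 a2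
    exact le_antisymm a1 a2
  have e3 : ∫ x, fint G₁ x ≤ ∫ x, fint (avg G₁ G₂) x := by
    have a1 := hm1 _ h3
    rw [fisher_mix_eq s1, fisher_mix_eq s3] at a1
    rwa [ENNReal.ofReal_le_ofReal_iff (integral_nonneg fun x => fint_nonneg x)] at a1
  set R : ℝ → ℝ := fun x => (dmix G₁ x * mix G₂ x - dmix G₂ x * mix G₁ x) ^ 2 /
    (2 * mix G₁ x * mix G₂ x * (mix G₁ x + mix G₂ x)) with hR
  have hRid : ∀ x, R x = (fint G₁ x + fint G₂ x) / 2 - fint (avg G₁ G₂) x := by
    intro x
    unfold fint
    rw [mix_avg, dmix_avg, avg_identity (s1.mix_pos x) (s2.mix_pos x)]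
  have hRcont : Continuous R := by
    have : R = fun x => (fint G₁ x + fint G₂ x) / 2 - fint (avg G₁ G₂) x := funext hRid
    rw [this]
    have := continuous_fint s1
    have := continuous_fint s2
    have := continuous_fint s3
    fun_prop
  have hRnn : ∀ x, 0 ≤ R x := by
    intro x
    have := s1.mix_pos x
    have := s2.mix_pos x
    simp only [hR]
    positivity
  have hRi : Integrable R := by
    have : R = fun x => (fint G₁ x + fint G₂ x) / 2 - fint (avg G₁ G₂) x := funext hRid
    rw [this]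
    exact (((integrable_fint s1).add (integrable_fint s2)).div_const 2).sub (integrable_fint s3)
  have hRint : ∫ x, R x = 0 := by
    refine le_antisymm ?_ (integral_nonneg hRnn)
    have : ∫ x, R x = ((∫ x, fint G₁ x) + ∫ x, fint G₂ x) / 2 - ∫ x, fint (avg G₁ G₂) x := by
      simp_rw [hRid]
      have i12 : Integrable (fun x => (fint G₁ x + fint G₂ x) / 2) :=
        ((integrable_fint s1).add (integrable_fint s2)).div_const 2
      rw [integral_sub i12 (integrable_fint s3), integral_div,
        integral_add (integrable_fint s1) (integrable_fint s2)]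
    rw [this, ← e12]
    linarith
  rw [integral_eq_zero_iff_of_nonneg hRnn hRi] at hRint
  have hR0 : R = fun _ => 0 := (hRcont.ae_eq_iff_eq volume continuous_const).1 hRint
  have hcross : ∀ x, dmix G₁ x * mix G₂ x - dmix G₂ x * mix G₁ x = 0 := by
    intro x
    have h5 := congrFun hR0 x
    simp only [hR] at h5
    have := s1.mix_pos x
    have := s2.mix_pos x
    rcases div_eq_zero_iff.1 h5 with h | h
    · exact pow_eq_zero_iff two_ne_zero |>.1 h
    · exact absurd h (by positivity)
  have hquot : ∀ x, mix G₁ x / mix G₂ x = mix G₁ 0 / mix G₂ 0 := by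
    intro x
    have hd : ∀ y, HasDerivAt (fun y => mix G₁ y / mix G₂ y) 0 y := by
      intro y
      have := (hasDerivAt_mix G₁ y).div (hasDerivAt_mix G₂ y) (s2.mix_pos y).ne'
      refine this.congr_deriv ?_
      rw [div_eq_zero_iff]
      left
      have := hcross y
      linarith
    exact is_const_of_deriv_eq_zero (fun y => (hd y).differentiableAt) (fun y => (hd y).deriv) x 0
  set c := mix G₁ 0 / mix G₂ 0 with hc
  have hcpos : 0 < c := div_pos (s1.mix_pos 0) (s2.mix_pos 0)
  have hcm : ∀ x, mix G₁ x = c * mix G₂ x := by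
    intro x
    have := hquot x
    rw [div_eq_iff (s2.mix_pos x).ne'] at this
    exact this
  have hfin : IsFiniteMeasure (ENNReal.ofReal c • G₂) :=
    Measure.smul_finite _ ENNReal.ofReal_ne_top
  have hGG : G₁ = ENNReal.ofReal c • G₂ := by
    apply mix_injective
    intro x
    rw [hcm x]
    unfold mix
    rw [integral_smul_measure, ENNReal.toReal_ofReal hcpos.le, smul_eq_mul]
  have hc1 : ENNReal.ofReal c = 1 := by
    have h6 : G₁ Set.univ = (ENNReal.ofReal c • G₂) Set.univ := by rw [← hGG]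
    rw [Measure.smul_apply, measure_univ, measure_univ, smul_eq_mul, mul_one] at h6
    exact h6.symm
  rw [hGG, hc1, one_smul]

end Pool.Agent.FisherMin
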