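import Pool.Agent.FisherMin.Tail
import Pool.Agent.FisherMin.Unique

/-!
Assembling the data of an eventually geometric/arithmetic step distribution.
-/

open MeasureTheory Filter Topology

namespace Pool.Agent.FisherMin

/-- the two-sided geometric measure on an arithmetic progression -/
noncomputable def geoZ (P q a h : ℝ) : Measure ℝ :=
  Measure.sum fun n : ℤ => ENNReal.ofReal (P * q ^ n) • Measure.dirac (a + n * h)

/-- right half -/
noncomputable def geoR (P q a h : ℝ) : Measure ℝ :=
  Measure.sum fun n : ℕ => ENNReal.ofReal (P * q ^ n) • Measure.dirac (a + n * h)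

/-- strict left half -/
noncomputable def geoL (P q a h : ℝ) : Measure ℝ :=
  Measure.sum fun n : ℕ => ENNReal.ofReal (P * q⁻¹ ^ (n + 1)) • Measure.dirac (a - (n + 1) * h)

instance (P q a h : ℝ) : SFinite (geoL P q a h) := by
  unfold geoL
  have : ∀ n : ℕ, SFinite (ENNReal.ofReal (P * q⁻¹ ^ (n + 1)) •
      Measure.dirac (a - (n + 1) * h) : Measure ℝ) := fun n => inferInstance
  infer_instance

lemma geoZ_eq (P q a h : ℝ) : geoZ P q a h = geoR P q a h + geoL P q a h := by
  unfold geoZ geoR geoL
  ext s hs
  rw [Measure.add_apply, Measure.sum_apply _ hs, Measure.sum_apply _ hs, Measure.sum_apply _ hs,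
    tsum_of_nat_of_neg_add_one ENNReal.summable ENNReal.summable]
  congr 1
  congr 1
  ext n
  have h1 : q ^ (-((n : ℤ) + 1)) = q⁻¹ ^ (n + 1) := by
    rw [zpow_neg, inv_pow]
    norm_cast
  have h2 : a + ((-((n : ℤ) + 1) : ℤ) : ℝ) * h = a - (n + 1) * h := by
    push_cast
    ring
  rw [h1, h2]

lemma geoZ_shift {P q : ℝ} (a h : ℝ) (hP : 0 < P) (hq : 0 < q) :
    (geoZ P q a h).map (fun u => u + h) = ENNReal.ofReal q⁻¹ • geoZ P q a h := by
  unfold geoZ
  have hm : Measurable (fun u : ℝ => u + h) := by fun_prop
  rw [Measure.map_sum hm.aemeasurable]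
  have h1 : ∀ n : ℤ, (ENNReal.ofReal (P * q ^ n) • Measure.dirac (a + n * h) : Measure ℝ).map
      (fun u => u + h) = ENNReal.ofReal q⁻¹ •
        (ENNReal.ofReal (P * q ^ (n + 1)) • Measure.dirac (a + ((n + 1 : ℤ) : ℝ) * h)) := by
    intro n
    rw [Measure.map_smul, Measure.map_dirac' hm, smul_smul, ← ENNReal.ofReal_mul (by positivity)]
    congr 2
    · rw [zpow_add₀ hq.ne']
      field_simp
    · push_cast
      ring
  simp_rw [h1]
  have h2 := Measure.sum_comp_equiv (Equiv.addRight (1 : ℤ)) (fun n : ℤ => ENNReal.ofReal q⁻¹ •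
    (ENNReal.ofReal (P * q ^ n) • (Measure.dirac (a + (n : ℝ) * h) : Measure ℝ)))
  have h3 : ((fun n : ℤ => ENNReal.ofReal q⁻¹ •
    (ENNReal.ofReal (P * q ^ n) • (Measure.dirac (a + (n : ℝ) * h) : Measure ℝ))) ∘
      (Equiv.addRight (1 : ℤ))) = fun n : ℤ => ENNReal.ofReal q⁻¹ •
        (ENNReal.ofReal (P * q ^ (n + 1)) • Measure.dirac (a + ((n + 1 : ℤ) : ℝ) * h)) := by
    ext1 n
    simp [Function.comp]
  rw [h3] at h2
  rw [h2]
  ext s hs
  rw [Measure.sum_apply _ hs, Measure.smul_apply, Measure.sum_apply _ hs, smul_eq_mul,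
    ← ENNReal.tsum_mul_left]
  rfl

lemma nice_geoL {P q : ℝ} (a h : ℝ) (hP : 0 < P) (hq : 0 < q) (hh : 0 < h) :
    Nice (geoL P q a h) := by
  intro β
  unfold geoL
  rw [integrable_sum_dirac_iff]
  · set c := -Real.log q + |β| * h + 1 with hc
    set C := P * Real.exp (|β| * |a| + a ^ 2 / 2 + c ^ 2 / h ^ 2) with hC
    have hsum : Summable (fun n : ℕ => C * Real.exp (-1) ^ (n + 1)) := by
      have : Summable (fun n : ℕ => Real.exp (-1) ^ n) :=
        summable_geometric_of_lt_one (Real.exp_pos _).le (by
          rw [Real.exp_lt_one_iff]; norm_num)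
      exact ((summable_nat_add_iff 1).2 this).mul_left C
    refine Summable.of_nonneg_of_le (fun n => by positivity) (fun n => ?_) hsum
    rw [ENNReal.toReal_ofReal (by positivity), Real.norm_eq_abs,
      abs_of_nonneg (mul_nonneg (Real.exp_pos _).le (phi_nonneg _))]
    set y := a - ((n : ℝ) + 1) * h with hy
    have e1 : q⁻¹ ^ (n + 1) = Real.exp (-(Real.log q) * ((n : ℝ) + 1)) := by
      rw [← Real.exp_log (inv_pos.2 hq), ← Real.exp_nat_mul, Real.log_inv]
      congr 1
      push_cast
      ring
    have e2 : Real.exp (-1) ^ (n + 1) = Real.exp (-((n : ℝ) + 1)) := by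
      rw [← Real.exp_nat_mul]
      congr 1
      push_cast
      ring
    rw [e1, e2]
    set m : ℝ := (n : ℝ) + 1 with hm
    have hm0 : 0 < m := by positivity
    have hyabs : |y| ≤ |a| + m * h := by
      rw [hy]
      refine (abs_sub _ _).trans ?_
      rw [abs_of_nonneg (a := m * h) (by positivity)]
    calc P * Real.exp (-Real.log q * m) * (Real.exp (β * |y|) * phi y)
        ≤ P * Real.exp (-Real.log q * m) * (Real.exp (|β| * (|a| + m * h)) *
            Real.exp (-y ^ 2 / 2)) := by
          have hphi := phi_nonneg y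
          gcongr
          · exact le_abs_self β
          · exact phi_le_exp y
      _ = P * Real.exp (-Real.log q * m + (|β| * (|a| + m * h) + -y ^ 2 / 2)) := by
          rw [Real.exp_add, Real.exp_add]; ring
      _ ≤ P * Real.exp ((|β| * |a| + a ^ 2 / 2 + c ^ 2 / h ^ 2) + -m) := by
          refine mul_le_mul_of_nonneg_left (Real.exp_le_exp.2 ?_) hP.le
          have h1 : (m * h) ^ 2 / 2 - a ^ 2 ≤ y ^ 2 := by
            rw [hy]
            nlinarith [sq_nonneg (2 * a - m * h)]
          have h2 : m * c ≤ (m * h) ^ 2 / 4 + c ^ 2 / h ^ 2 := by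
            have h3 : 0 ≤ (m * h / 2 - c / h) ^ 2 := sq_nonneg _
            have h4 : (m * h / 2 - c / h) ^ 2 = (m * h) ^ 2 / 4 - m * c + c ^ 2 / h ^ 2 := by
              field_simp
              ring
            linarith
          have h5 : m * c = -Real.log q * m + |β| * (m * h) + m := by rw [hc]; ring
          nlinarith
      _ = C * Real.exp (-m) := by rw [Real.exp_add, hC]; ring
  · intro n
    exact ENNReal.ofReal_ne_top

lemma geoL_Ioi (P q a h : ℝ) {b : ℝ} (hh : 0 < h) (hb : a - h ≤ b) :
    geoL P q a h (Set.Ioi b) = 0 := by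
  unfold geoL
  rw [Measure.sum_apply _ measurableSet_Ioi, ENNReal.tsum_eq_zero]
  intro n
  rw [Measure.smul_apply, Measure.dirac_apply' _ measurableSet_Ioi]
  have : a - ((n : ℝ) + 1) * h ∉ Set.Ioi b := by
    rw [Set.mem_Ioi, not_lt]
    have : 0 ≤ (n : ℝ) * h := by positivity
    nlinarith
  rw [Set.indicator_of_notMem this]
  simp

lemma geoL_top {P q : ℝ} (a h : ℝ) (hP : 0 < P) (hq : 0 < q) (hh : 0 < h) :
    (geoL P q a h).real {a - h} = P * q⁻¹ := by
  unfold geoL
  rw [Measure.real, Measure.sum_apply _ (measurableSet_singleton _), tsum_eq_single 0]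
  · simp only [Nat.cast_zero, zero_add, pow_one, one_mul, Measure.smul_apply, smul_eq_mul]
    rw [Measure.dirac_apply' _ (measurableSet_singleton _),
      Set.indicator_of_mem (Set.mem_singleton _), Pi.one_apply, mul_one,
      ENNReal.toReal_ofReal (by positivity)]
  · intro n hn
    rw [Measure.smul_apply, Measure.dirac_apply' _ (measurableSet_singleton _)]
    have : a - ((n : ℝ) + 1) * h ∉ ({a - h} : Set ℝ) := by
      rw [Set.mem_singleton_iff]
      intro h1
      have h2 : (n : ℝ) * h = 0 := by linarith
      rcases mul_eq_zero.1 h2 with h3 | h3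
      · exact hn (by exact_mod_cast h3)
      · exact hh.ne' h3
    rw [Set.indicator_of_notMem this]
    simp

/-- A minimizer is not eventually geometric/arithmetic. -/
theorem not_eventually_geometric {α lam : ℝ} (h0 : 0 < α) {G : Measure ℝ} (hG : G ∈ classG α)
    {g p : ℕ → ℝ} (hg0 : g 0 = 0) (hmono : StrictMono g)
    (hppos : ∀ j, 0 < p j) (hofp : ∀ j, ENNReal.ofReal (p j) = G {g j})
    (hsymm : ∀ a, G {-a} = G {a})
    (hnull : G ({0} ∪ ⋃ j, {g (j + 1), -g (j + 1)})ᶜ = 0)
    (hlev : ∀ j, Lf G (g (j + 1)) = lam) :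
    ¬ ∃ (J : ℕ) (a h c q : ℝ), ∀ j ≥ J, g j = a + j * h ∧ p j = c * q ^ j := by
  rintro ⟨J0, a0, h, c, q, hev⟩
  have hprob := hG.1
  have hstd := std_of_classG h0 hG
  -- step size positive
  have hh : 0 < h := by
    have h1 := (hev J0 le_rfl).1
    have h2 := (hev (J0 + 1) (by omega)).1
    have h3 := hmono (Nat.lt_succ_self J0)
    rw [h1, h2] at h3
    push_cast at h3
    linarith
  have hq0 : 0 < q := by
    have h1 := (hev J0 le_rfl).2
    have h2 := (hev (J0 + 1) (by omega)).2
    have h3 := hppos J0
    have h4 := hppos (J0 + 1)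
    rw [h2, pow_succ, ← mul_assoc, ← h1] at h4
    exact pos_of_mul_pos_right h4 h3.le
  -- recursion
  have hC0 : ∀ j ≥ J0, g (j + 1) = g j + h ∧ p (j + 1) = q * p j := by
    intro j hj
    obtain ⟨h1, h2⟩ := hev j hj
    obtain ⟨h3, h4⟩ := hev (j + 1) (by omega)
    constructor
    · rw [h3, h1]; push_cast; ring
    · rw [h4, h2, pow_succ]; ring
  -- minimal index
  classical
  have hex : ∃ J, ∀ j ≥ J, g (j + 1) = g j + h ∧ p (j + 1) = q * p j := ⟨J0, hC0⟩
  set J := Nat.find hex with hJ
  have hC : ∀ j ≥ J, g (j + 1) = g j + h ∧ p (j + 1) = q * p j := Nat.find_spec hex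
  have hmin : ∀ k, J = k + 1 → ¬ (g (k + 1) = g k + h ∧ p (k + 1) = q * p k) := by
    intro k hk hcon
    have h1 := Nat.find_min hex (m := k) (by omega)
    apply h1
    intro j hj
    rcases Nat.eq_or_lt_of_le hj with h2 | h2
    · rw [← h2]; exact hcon
    · exact hC j (by omega)
  have hgk : ∀ k : ℕ, g (J + k) = g J + k * h := by
    intro k
    induction k with
    | zero => simp
    | succ k ih =>
      rw [← add_assoc, (hC (J + k) (by omega)).1, ih]
      push_cast
      ring
  have hpk : ∀ k : ℕ, p (J + k) = p J * q ^ k := by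
    intro k
    induction k with
    | zero => simp
    | succ k ih =>
      rw [← add_assoc, (hC (J + k) (by omega)).2, ih, pow_succ]
      ring
  have hgpos : ∀ j, 0 < g (j + 1) := fun j => by
    rw [← hg0]; exact hmono (Nat.succ_pos j)
  have hgnn : ∀ j, 0 ≤ g j := fun j => by
    rw [← hg0]; exact hmono.monotone (Nat.zero_le j)
  have hPJ := hppos J
  -- the tail measure
  have hT : G.restrict (Set.Ici (g J)) = geoR (p J) q (g J) h := by
    have hset : (Set.Ici (g J) : Set ℝ) =ᵐ[G] (⋃ k : ℕ, {g (J + k)} : Set ℝ) := by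
      have hsub : (⋃ k : ℕ, {g (J + k)} : Set ℝ) ⊆ Set.Ici (g J) := by
        intro x hx
        obtain ⟨k, hk⟩ := Set.mem_iUnion.1 hx
        rw [Set.mem_singleton_iff] at hk
        rw [hk]
        exact hmono.monotone (Nat.le_add_right J k)
      have hdiff : G (Set.Ici (g J) \ ⋃ k : ℕ, {g (J + k)}) = 0 := by
        refine measure_mono_null ?_ hnull
        rintro x ⟨hx1, hx2⟩ hx3
        rw [Set.mem_Ici] at hx1
        apply hx2
        rw [Set.mem_iUnion]
        rcases hx3 with hx3 | hx3
        · rw [Set.mem_singleton_iff] at hx3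
          have hJ0 : J = 0 := by
            by_contra hne
            obtain ⟨k, hk⟩ := Nat.exists_eq_succ_of_ne_zero hne
            have := hgpos k
            rw [hk] at hx1
            have : g (k + 1) = g k.succ := rfl
            linarith
          refine ⟨0, ?_⟩
          rw [Set.mem_singleton_iff, hx3, hJ0]
          exact hg0.symm
        · obtain ⟨j, hj⟩ := Set.mem_iUnion.1 hx3
          rcases hj with hj | hj
          · rw [hj] at hx1
            have hle : J ≤ j + 1 := hmono.le_iff_le.1 hx1
            refine ⟨j + 1 - J, ?_⟩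
            rw [Set.mem_singleton_iff, hj]
            congr 1
            omega
          · rw [Set.mem_singleton_iff] at hj
            have := hgpos j
            have := hgnn J
            linarith
      exact (ae_eq_set.2 ⟨hdiff, by rw [Set.sdiff_eq_empty.2 hsub]; exact measure_empty⟩)
    rw [Measure.restrict_congr_set hset, Measure.restrict_iUnion]
    · unfold geoR
      congr 1
      ext1 k
      rw [Measure.restrict_singleton, ← hofp, hpk, hgk]
    · intro i j hij
      simp only [Function.onFun]
      rw [Set.disjoint_singleton]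
      intro h1
      exact hij (by have := hmono.injective h1; omega)
    · intro i
      exact measurableSet_singleton _
  -- q < 1
  have hq1 : q < 1 := by
    by_contra hcon
    push Not at hcon
    have h1 : geoR (p J) q (g J) h Set.univ ≤ 1 := by
      rw [← hT]
      exact (measure_mono (Set.subset_univ _)).trans (by
        rw [Measure.restrict_apply_univ]; exact prob_le_one)
    unfold geoR at h1
    rw [Measure.sum_apply _ MeasurableSet.univ] at h1
    have h2 : ∀ n : ℕ, (ENNReal.ofReal (p J * q ^ n) • Measure.dirac (g J + n * h) : Measure ℝ)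
        Set.univ = ENNReal.ofReal (p J * q ^ n) := by
      intro n
      simp
    simp_rw [h2] at h1
    have h3 : (∑' _ : ℕ, ENNReal.ofReal (p J)) ≤ ∑' n : ℕ, ENNReal.ofReal (p J * q ^ n) := by
      refine ENNReal.tsum_le_tsum fun n => ENNReal.ofReal_le_ofReal ?_
      have := one_le_pow₀ hcon (n := n)
      nlinarith
    rw [ENNReal.tsum_const_eq_top_of_ne_zero (by simpa using hPJ)] at h3
    exact absurd (h3.trans h1) (by simp)
  -- the left neighbour
  obtain ⟨b1, m1, hb1lt, hm1, hb1null, hb1mass, hne⟩ : ∃ b1 m1 : ℝ, b1 < g J ∧ 0 < m1 ∧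
      G (Set.Ioo b1 (g J)) = 0 ∧ G.real {b1} = m1 ∧ ¬ (b1 = g J - h ∧ m1 = p J * q⁻¹) := by
    rcases Nat.eq_zero_or_pos J with hJ0 | hJpos
    · refine ⟨-g 1, p 1, ?_, hppos 1, ?_, ?_, ?_⟩
      · rw [hJ0, hg0]
        have := hgpos 0
        simp only [zero_add] at this
        linarith
      · refine measure_mono_null ?_ hnull
        rintro x ⟨hx1, hx2⟩ hx3
        rw [hJ0, hg0] at hx2
        rcases hx3 with hx3 | hx3
        · rw [Set.mem_singleton_iff] at hx3
          linarith
        · obtain ⟨j, hj⟩ := Set.mem_iUnion.1 hx3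
          rcases hj with hj | hj
          · have := hgpos j
            linarith
          · rw [Set.mem_singleton_iff] at hj
            have : g 1 ≤ g (j + 1) := hmono.monotone (by omega)
            linarith
      · rw [Measure.real, hsymm, ← hofp, ENNReal.toReal_ofReal (hppos 1).le]
      · rintro ⟨-, h2⟩
        have h3 := (hC 0 (by omega)).2
        simp only [zero_add] at h3
        rw [h3, hJ0] at h2
        have h4 := hppos 0
        have h5 : q * q = 1 := by
          have : q * p 0 * q = p 0 := by
            rw [h2]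
            field_simp
          have h6 : (q * q) * p 0 = 1 * p 0 := by linarith
          exact mul_right_cancel₀ h4.ne' h6
        nlinarith
    · obtain ⟨k, hk⟩ : ∃ k, J = k + 1 := ⟨J - 1, by omega⟩
      refine ⟨g k, p k, ?_, hppos k, ?_, ?_, ?_⟩
      · rw [hk]; exact hmono (Nat.lt_succ_self k)
      · refine measure_mono_null ?_ hnull
        rintro x ⟨hx1, hx2⟩ hx3
        rw [hk] at hx2
        have hgk0 := hgnn k
        rcases hx3 with hx3 | hx3
        · rw [Set.mem_singleton_iff] at hx3
          linarith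
        · obtain ⟨j, hj⟩ := Set.mem_iUnion.1 hx3
          rcases hj with hj | hj
          · rw [hj] at hx1 hx2
            have e1 := hmono.lt_iff_lt.1 hx1
            have e2 := hmono.lt_iff_lt.1 hx2
            omega
          · rw [Set.mem_singleton_iff] at hj
            have := hgpos j
            linarith
      · rw [Measure.real, ← hofp, ENNReal.toReal_ofReal (hppos k).le]
      · rintro ⟨h1, h2⟩
        apply hmin k hk
        rw [hk] at h1 h2
        constructor
        · linarith
        · rw [h2]
          field_simp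
  set b := max b1 (g J - h) with hb
  have hbb1 : b1 ≤ b := le_max_left _ _
  have hbb2 : g J - h ≤ b := le_max_right _ _
  have hG1b : (G.restrict (Set.Iio (g J))) (Set.Ioi b) = 0 := by
    rw [Measure.restrict_apply measurableSet_Ioi]
    refine measure_mono_null ?_ hb1null
    rintro x ⟨hx1, hx2⟩
    exact ⟨lt_of_le_of_lt hbb1 hx1, hx2⟩
  have hG1sing : ∀ y, b1 < y → (G.restrict (Set.Iio (g J))).real {y} = 0 := by
    intro y hy
    rw [Measure.real, Measure.restrict_apply (measurableSet_singleton _)]
    have : G ({y} ∩ Set.Iio (g J)) = 0 := by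
      refine measure_mono_null ?_ hb1null
      rintro x ⟨hx1, hx2⟩
      rw [Set.mem_singleton_iff] at hx1
      exact ⟨by rw [hx1]; exact hy, hx2⟩
    rw [this, ENNReal.toReal_zero]
  have hG1b1 : (G.restrict (Set.Iio (g J))).real {b1} = m1 := by
    rw [Measure.real, Measure.restrict_apply (measurableSet_singleton _)]
    have : ({b1} : Set ℝ) ∩ Set.Iio (g J) = {b1} := by
      rw [Set.inter_eq_left, Set.singleton_subset_iff]
      exact hb1lt
    rw [this]
    exact hb1mass
  have hG2sing : ∀ y, g J - h < y → (geoL (p J) q (g J) h).real {y} = 0 := by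
    intro y hy
    rw [Measure.real]
    have : geoL (p J) q (g J) h {y} = 0 :=
      measure_mono_null (by rw [Set.singleton_subset_iff]; exact hy)
        (geoL_Ioi (p J) q (g J) h hh le_rfl)
    rw [this, ENNReal.toReal_zero]
  have hG2top := geoL_top (g J) h hPJ hq0 hh
  have hTG : G = G.restrict (Set.Ici (g J)) + G.restrict (Set.Iio (g J)) := by
    have := Measure.restrict_add_restrict_compl (μ := G) (measurableSet_Ici (a := g J))
    rw [Set.compl_Ici] at this
    exact this.symm
  have H : TailData α lam G (G.restrict (Set.Ici (g J))) (G.restrict (Set.Iio (g J)))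
      (geoL (p J) q (g J) h) (g J) h q (p J) b := {
    std := hstd
    sum := hTG
    nice2 := nice_geoL (g J) h hPJ hq0 hh
    hh := hh
    hq0 := hq0
    hq1 := hq1
    hP := hPJ
    per := by
      rw [hT, ← geoZ_eq]
      exact geoZ_shift (g J) h hPJ hq0
    hb1 := hG1b
    hb2 := geoL_Ioi (p J) q (g J) h hh hbb2
    hm := by
      rcases lt_trichotomy b1 (g J - h) with h1 | h1 | h1
      · have hbe : b = g J - h := max_eq_right h1.le
        rw [hbe, hG1sing _ h1, hG2top]
        have : 0 < p J * q⁻¹ := by positivity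
        exact this.ne
      · have hbe : b = g J - h := max_eq_right h1.le
        rw [hbe, hG2top, ← h1, hG1b1]
        intro h2
        exact hne ⟨h1, h2⟩
      · have hbe : b = b1 := max_eq_left h1.le
        rw [hbe, hG1b1, hG2sing _ h1]
        exact hm1.ne'
    atom := by
      intro k
      rw [← hgk k, Measure.real, Measure.restrict_apply (measurableSet_singleton _)]
      have : ({g (J + k)} : Set ℝ) ∩ Set.Ici (g J) = {g (J + k)} := by
        rw [Set.inter_eq_left, Set.singleton_subset_iff]
        exact hmono.monotone (Nat.le_add_right J k)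
      rw [this, ← hofp, ENNReal.toReal_ofReal (hppos _).le, hpk]
    lev := by
      intro k
      have h1 := hgk (k + 1)
      push_cast at h1
      rw [← h1]
      exact hlev (J + k) }
  exact H.false

end Pool.Agent.FisherMin
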