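import Pool.Agent.FisherMin.Defs

/-!
Basic facts on Gaussian location mixtures: the standard Gaussian density `phi`, the mixture
density `mix G`, its derivative `dmix G`, and Fisher information.
-/

open MeasureTheory Filter Topology

namespace Pool.Agent.FisherMin

/-- The derivative of `mix G`. -/
noncomputable def dmix (G : Measure ℝ) (x : ℝ) : ℝ := ∫ u, -(x - u) * phi (x - u) ∂G

lemma phi_const_pos : 0 < (Real.sqrt (2 * Real.pi))⁻¹ := by positivity

lemma phi_const_le_one : (Real.sqrt (2 * Real.pi))⁻¹ ≤ 1 := by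
  apply inv_le_one_of_one_le₀
  rw [Real.one_le_sqrt]
  nlinarith [Real.pi_gt_three]

lemma phi_pos (x : ℝ) : 0 < phi x := by unfold phi; positivity

lemma phi_nonneg (x : ℝ) : 0 ≤ phi x := (phi_pos x).le

lemma phi_neg (x : ℝ) : phi (-x) = phi x := by unfold phi; simp

lemma phi_le_exp (x : ℝ) : phi x ≤ Real.exp (-x ^ 2 / 2) := by
  unfold phi
  have := phi_const_le_one
  have h := Real.exp_pos (-x ^ 2 / 2)
  nlinarith

lemma phi_le_one (x : ℝ) : phi x ≤ 1 := by
  refine (phi_le_exp x).trans ?_
  rw [Real.exp_le_one_iff]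
  nlinarith [sq_nonneg x]

@[fun_prop]
lemma continuous_phi : Continuous phi := by unfold phi; fun_prop

@[fun_prop]
lemma measurable_phi : Measurable phi := continuous_phi.measurable

lemma hasDerivAt_phi (x : ℝ) : HasDerivAt phi (-x * phi x) x := by
  unfold phi
  have h1 : HasDerivAt (fun x : ℝ => -x ^ 2 / 2) (-x) x := by
    have := ((hasDerivAt_pow 2 x).neg).div_const 2
    refine this.congr_deriv ?_
    push_cast
    ring
  have h2 := (h1.exp).const_mul ((Real.sqrt (2 * Real.pi))⁻¹)
  refine h2.congr_deriv ?_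
  ring

lemma abs_mul_phi_le (x : ℝ) : |x| * phi x ≤ 1 := by
  have h1 : |x| ≤ Real.exp (x ^ 2 / 2) := by
    have := Real.add_one_le_exp (x ^ 2 / 2)
    nlinarith [sq_abs x, sq_nonneg (|x| - 1)]
  have h2 : phi x ≤ Real.exp (-x ^ 2 / 2) := phi_le_exp x
  calc |x| * phi x ≤ Real.exp (x ^ 2 / 2) * Real.exp (-x ^ 2 / 2) :=
        mul_le_mul h1 h2 (phi_nonneg x) (Real.exp_pos _).le
    _ = 1 := by rw [← Real.exp_add, show x ^ 2 / 2 + -x ^ 2 / 2 = 0 by ring, Real.exp_zero]

lemma sq_mul_phi_le (x : ℝ) : x ^ 2 * phi x ≤ 2 := by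
  have h1 : x ^ 2 ≤ 2 * Real.exp (x ^ 2 / 2) := by
    have := Real.add_one_le_exp (x ^ 2 / 2)
    nlinarith
  have h2 : phi x ≤ Real.exp (-x ^ 2 / 2) := phi_le_exp x
  calc x ^ 2 * phi x ≤ (2 * Real.exp (x ^ 2 / 2)) * Real.exp (-x ^ 2 / 2) :=
        mul_le_mul h1 h2 (phi_nonneg x) (by positivity)
    _ = 2 := by
        rw [mul_assoc, ← Real.exp_add, show x ^ 2 / 2 + -x ^ 2 / 2 = 0 by ring, Real.exp_zero,
          mul_one]

section Mix

variable (G : Measure ℝ) [IsFiniteMeasure G]

lemma integrable_phi_sub (x : ℝ) : Integrable (fun u => phi (x - u)) G := by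
  refine Integrable.mono' (integrable_const (1 : ℝ)) (by fun_prop) ?_
  filter_upwards with u
  rw [Real.norm_eq_abs, abs_of_nonneg (phi_nonneg _)]
  exact phi_le_one _

lemma integrable_mul_phi_sub (x : ℝ) : Integrable (fun u => (x - u) * phi (x - u)) G := by
  refine Integrable.mono' (integrable_const (1 : ℝ)) (by fun_prop) ?_
  filter_upwards with u
  rw [Real.norm_eq_abs, abs_mul, abs_of_nonneg (phi_nonneg _)]
  exact abs_mul_phi_le _

lemma integrable_neg_mul_phi_sub (x : ℝ) : Integrable (fun u => -(x - u) * phi (x - u)) G := by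
  refine (integrable_mul_phi_sub G x).neg.congr (ae_of_all _ fun u => ?_)
  simp only [Pi.neg_apply]
  ring

lemma integrable_sq_mul_phi_sub (x : ℝ) : Integrable (fun u => (x - u) ^ 2 * phi (x - u)) G := by
  refine Integrable.mono' (integrable_const (2 : ℝ)) (by fun_prop) ?_
  filter_upwards with u
  rw [Real.norm_eq_abs, abs_of_nonneg (mul_nonneg (sq_nonneg _) (phi_nonneg _))]
  exact sq_mul_phi_le _

lemma hasDerivAt_mix (x : ℝ) : HasDerivAt (mix G) (dmix G x) x := by
  have := (hasDerivAt_integral_of_dominated_loc_of_deriv_le (μ := G) (𝕜 := ℝ)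
    (F := fun x u => phi (x - u)) (x₀ := x) (s := Set.univ) (bound := fun _ => 1)
    (F' := fun x u => -(x - u) * phi (x - u)) Filter.univ_mem ?_ ?_ ?_ ?_ ?_ ?_).2
  · exact this
  · filter_upwards with y
    exact (by fun_prop : Measurable fun u => phi (y - u)).aestronglyMeasurable
  · exact integrable_phi_sub G x
  · exact (by fun_prop : Measurable fun u => -(x - u) * phi (x - u)).aestronglyMeasurable
  · filter_upwards with u y _
    rw [Real.norm_eq_abs, abs_mul, abs_neg, abs_of_nonneg (phi_nonneg _)]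
    exact abs_mul_phi_le _
  · exact integrable_const _
  · filter_upwards with u y _
    have := (hasDerivAt_phi (y - u)).comp y ((hasDerivAt_id y).sub_const u)
    simpa [Function.comp_def] using this

lemma deriv_mix (x : ℝ) : deriv (mix G) x = dmix G x := (hasDerivAt_mix G x).deriv

lemma continuous_mix : Continuous (mix G) :=
  continuous_iff_continuousAt.2 fun x => (hasDerivAt_mix G x).continuousAt

lemma continuous_dmix : Continuous (dmix G) := by
  refine continuous_of_dominated (bound := fun _ => (1 : ℝ)) ?_ ?_ (integrable_const _) ?_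
  · intro x
    exact (by fun_prop : Measurable fun u => -(x - u) * phi (x - u)).aestronglyMeasurable
  · intro x
    filter_upwards with u
    rw [Real.norm_eq_abs, abs_mul, abs_neg, abs_of_nonneg (phi_nonneg _)]
    exact abs_mul_phi_le _
  · filter_upwards with u
    fun_prop

omit [IsFiniteMeasure G] in
lemma mix_nonneg (x : ℝ) : 0 ≤ mix G x := integral_nonneg fun _ => phi_nonneg _

lemma fisher_mix : fisher (mix G) = ∫⁻ x, ENNReal.ofReal ((dmix G x) ^ 2 / mix G x) := by
  unfold fisher
  simp_rw [deriv_mix]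

lemma mix_ge_of_atom (x : ℝ) : (G {0}).toReal * phi x ≤ mix G x := by
  have h : ∫ u in ({0} : Set ℝ), phi (x - u) ∂G ≤ mix G x :=
    setIntegral_le_integral (integrable_phi_sub G x) (by
      filter_upwards with u
      exact phi_nonneg _)
  have h2 : ∫ u in ({0} : Set ℝ), phi (x - u) ∂G = (G {0}).toReal * phi x := by
    rw [Measure.restrict_singleton, integral_smul_measure, integral_dirac]
    simp
  rwa [h2] at h

end Mix

/-- Fisher information of mixtures, real integrand. -/
noncomputable def fint (G : Measure ℝ) (x : ℝ) : ℝ := (dmix G x) ^ 2 / mix G x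

/-- The score function. -/
noncomputable def psi (G : Measure ℝ) (x : ℝ) : ℝ := -(dmix G x) / mix G x

end Pool.Agent.FisherMin
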