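import Pool.Agent.FisherMin.Basic

/-!
Growth bounds and integrability.
-/

open MeasureTheory Filter Topology

namespace Pool.Agent.FisherMin

lemma integrable_exp_neg_sq_add_abs (c b : ℝ) (hc : 0 < c) :
    Integrable (fun x : ℝ => Real.exp (-c * x ^ 2 + b * |x|)) := by
  have h := (integrable_exp_neg_mul_sq (half_pos hc)).const_mul (Real.exp (b ^ 2 / (2 * c)))
  refine h.mono' (by fun_prop) ?_
  filter_upwards with x
  rw [Real.norm_eq_abs, Real.abs_exp, ← Real.exp_add]
  apply Real.exp_le_exp.2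
  have : 0 ≤ (c * |x| - b) ^ 2 / (2 * c) := by positivity
  have h2 : (c * |x| - b) ^ 2 / (2 * c) = c / 2 * x ^ 2 - b * |x| + b ^ 2 / (2 * c) := by
    field_simp
    rw [sub_sq, mul_pow, sq_abs]
    ring
  linarith

lemma phi_sub_le (x u : ℝ) : phi (x - u) ≤ Real.exp (-(1 / 2) * x ^ 2 + |u| * |x|) := by
  refine (phi_le_exp _).trans (Real.exp_le_exp.2 ?_)
  have : x * u ≤ |u| * |x| := by rw [← abs_mul, mul_comm]; exact le_abs_self _
  nlinarith [sq_nonneg u]

/-- Functions of at most exponential growth. -/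
def ExpBdd (w : ℝ → ℝ) : Prop := ∃ C b : ℝ, 0 ≤ C ∧ 0 ≤ b ∧ ∀ x, |w x| ≤ C * Real.exp (b * |x|)

lemma ExpBdd.const (c : ℝ) : ExpBdd (fun _ => c) :=
  ⟨|c|, 0, abs_nonneg _, le_rfl, fun x => by simp⟩

lemma ExpBdd.id : ExpBdd (fun x => x) :=
  ⟨1, 1, zero_le_one, zero_le_one, fun x => by
    have := Real.add_one_le_exp |x|
    simp only [one_mul]
    linarith⟩

lemma ExpBdd.mul {w v : ℝ → ℝ} (hw : ExpBdd w) (hv : ExpBdd v) : ExpBdd (fun x => w x * v x) := by
  obtain ⟨C, b, hC, hb, h⟩ := hw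
  obtain ⟨C', b', hC', hb', h'⟩ := hv
  refine ⟨C * C', b + b', by positivity, by positivity, fun x => ?_⟩
  rw [abs_mul, add_mul, Real.exp_add]
  calc |w x| * |v x| ≤ (C * Real.exp (b * |x|)) * (C' * Real.exp (b' * |x|)) :=
        mul_le_mul (h x) (h' x) (abs_nonneg _) (by positivity)
    _ = _ := by ring

lemma ExpBdd.add {w v : ℝ → ℝ} (hw : ExpBdd w) (hv : ExpBdd v) : ExpBdd (fun x => w x + v x) := by
  obtain ⟨C, b, hC, hb, h⟩ := hw
  obtain ⟨C', b', hC', hb', h'⟩ := hv
  refine ⟨C + C', b + b', by positivity, by positivity, fun x => ?_⟩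
  have hx : 0 ≤ |x| := abs_nonneg x
  have e1 : Real.exp (b * |x|) ≤ Real.exp ((b + b') * |x|) :=
    Real.exp_le_exp.2 (by nlinarith [mul_nonneg hb' hx])
  have e2 : Real.exp (b' * |x|) ≤ Real.exp ((b + b') * |x|) :=
    Real.exp_le_exp.2 (by nlinarith [mul_nonneg hb hx])
  calc |w x + v x| ≤ |w x| + |v x| := abs_add_le _ _
    _ ≤ C * Real.exp (b * |x|) + C' * Real.exp (b' * |x|) := add_le_add (h x) (h' x)
    _ ≤ C * Real.exp ((b + b') * |x|) + C' * Real.exp ((b + b') * |x|) := by gcongr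
    _ = _ := by ring

lemma ExpBdd.neg {w : ℝ → ℝ} (hw : ExpBdd w) : ExpBdd (fun x => -w x) := by
  obtain ⟨C, b, hC, hb, h⟩ := hw
  exact ⟨C, b, hC, hb, fun x => by rw [abs_neg]; exact h x⟩

lemma ExpBdd.sub {w v : ℝ → ℝ} (hw : ExpBdd w) (hv : ExpBdd v) : ExpBdd (fun x => w x - v x) := by
  simpa [sub_eq_add_neg] using hw.add hv.neg

lemma ExpBdd.pow {w : ℝ → ℝ} (hw : ExpBdd w) (n : ℕ) : ExpBdd (fun x => w x ^ n) := by
  induction n with
  | zero => simpa using ExpBdd.const 1
  | succ n ih => simpa [pow_succ] using ih.mul hw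

lemma ExpBdd.of_le {w v : ℝ → ℝ} (hv : ExpBdd v) (h : ∀ x, |w x| ≤ |v x|) : ExpBdd w := by
  obtain ⟨C, b, hC, hb, h'⟩ := hv
  exact ⟨C, b, hC, hb, fun x => (h x).trans (h' x)⟩

/-- `w(x) e^{-c x²}` is integrable for `w` of at most exponential growth. -/
lemma ExpBdd.integrable_mul_exp {w : ℝ → ℝ} (hw : ExpBdd w) (hm : Measurable w) {c : ℝ}
    (hc : 0 < c) (b : ℝ) : Integrable (fun x => w x * Real.exp (-c * x ^ 2 + b * |x|)) := by
  obtain ⟨C, b', hC, hb', h⟩ := hw
  refine ((integrable_exp_neg_sq_add_abs c (b + b') hc).const_mul C).mono' (by fun_prop) ?_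
  filter_upwards with x
  rw [Real.norm_eq_abs, abs_mul, Real.abs_exp]
  calc |w x| * Real.exp (-c * x ^ 2 + b * |x|)
      ≤ (C * Real.exp (b' * |x|)) * Real.exp (-c * x ^ 2 + b * |x|) := by
        gcongr; exact h x
    _ = C * Real.exp (-c * x ^ 2 + (b + b') * |x|) := by
        rw [mul_assoc, ← Real.exp_add]; ring_nf

lemma ExpBdd.integrable_mul_phi {w : ℝ → ℝ} (hw : ExpBdd w) (hm : Measurable w) (u : ℝ) :
    Integrable (fun x => w x * phi (x - u)) := by
  refine (hw.integrable_mul_exp hm (c := 1 / 2) (by norm_num) |u|).norm.mono' (by fun_prop) ?_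
  filter_upwards with x
  rw [Real.norm_eq_abs, Real.norm_eq_abs, abs_mul, abs_mul, Real.abs_exp,
    abs_of_nonneg (phi_nonneg _)]
  gcongr
  exact phi_sub_le x u

section CS

variable (G : Measure ℝ) [IsFiniteMeasure G]

/-- the integral of `(x-u)² φ(x-u)`. -/
noncomputable def qmix (G : Measure ℝ) (x : ℝ) : ℝ := ∫ u, (x - u) ^ 2 * phi (x - u) ∂G

lemma dmix_sq_le (x : ℝ) (hf : 0 < mix G x) : (dmix G x) ^ 2 / mix G x ≤ qmix G x := by
  have key : ∀ t : ℝ, 0 ≤ t ^ 2 * mix G x + 2 * t * dmix G x + qmix G x := by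
    intro t
    have h1 : 0 ≤ ∫ u, (t - (x - u)) ^ 2 * phi (x - u) ∂G :=
      integral_nonneg fun u => mul_nonneg (sq_nonneg _) (phi_nonneg _)
    have h2 : ∫ u, (t - (x - u)) ^ 2 * phi (x - u) ∂G
        = t ^ 2 * mix G x + 2 * t * dmix G x + qmix G x := by
      unfold mix dmix qmix
      rw [← integral_const_mul, ← integral_const_mul, ← integral_add, ← integral_add]
      · congr 1
        ext u
        ring
      · exact ((integrable_phi_sub G x).const_mul _).add
          ((integrable_neg_mul_phi_sub G x).const_mul _)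
      · exact integrable_sq_mul_phi_sub G x
      · exact (integrable_phi_sub G x).const_mul _
      · exact (integrable_neg_mul_phi_sub G x).const_mul _
    rwa [h2] at h1
  have h := key (-(dmix G x) / mix G x)
  have h3 : (-(dmix G x) / mix G x) ^ 2 * mix G x + 2 * (-(dmix G x) / mix G x) * dmix G x
      = -((dmix G x) ^ 2 / mix G x) := by
    field_simp
    ring
  linarith

lemma qmix_le (x : ℝ) (hf : 0 < mix G x) (hG : G.real Set.univ ≤ 1) {α : ℝ} (hα : 0 < α)
    (h0 : α ≤ G.real {0}) :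
    qmix G x ≤ mix G x * (x ^ 2 - 2 * Real.log α) := by
  set c₀ : ℝ := (Real.sqrt (2 * Real.pi))⁻¹ with hc₀
  have hc₀pos : 0 < c₀ := phi_const_pos
  set f := mix G x with hfdef
  set b : ℝ := f / c₀ with hb
  have hbpos : 0 < b := by positivity
  have hpt : ∀ u : ℝ, (x - u) ^ 2 * phi (x - u) ≤
      2 * (-Real.log b * phi (x - u) + (c₀ * b - phi (x - u))) := by
    intro u
    have hphi : phi (x - u) = c₀ * Real.exp (-(x - u) ^ 2 / 2) := rfl
    set y := Real.exp (-(x - u) ^ 2 / 2) with hy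
    have hypos : 0 < y := Real.exp_pos _
    have hlogy : Real.log y = -(x - u) ^ 2 / 2 := by rw [hy, Real.log_exp]
    have h1 : Real.log (b / y) ≤ b / y - 1 := Real.log_le_sub_one_of_pos (by positivity)
    rw [Real.log_div hbpos.ne' hypos.ne'] at h1
    have h2 : y * (Real.log b - Real.log y) ≤ b - y := by
      have h12 := mul_le_mul_of_nonneg_left h1 hypos.le
      have h13 : y * (b / y - 1) = b - y := by field_simp
      rwa [h13] at h12
    rw [hphi]
    have h3 : (x - u) ^ 2 = -2 * Real.log y := by rw [hlogy]; ring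
    rw [h3]
    nlinarith [mul_le_mul_of_nonneg_left h2 hc₀pos.le]
  have hint : qmix G x ≤ ∫ u, 2 * (-Real.log b * phi (x - u) + (c₀ * b - phi (x - u))) ∂G := by
    refine integral_mono (integrable_sq_mul_phi_sub G x) ?_ hpt
    exact (((integrable_phi_sub G x).const_mul _).add
      ((integrable_const _).sub (integrable_phi_sub G x))).const_mul _
  have hcomp : ∫ u, 2 * (-Real.log b * phi (x - u) + (c₀ * b - phi (x - u))) ∂G
      = 2 * (-Real.log b * f + (G.real Set.univ * (c₀ * b) - f)) := by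
    rw [integral_const_mul, integral_add, integral_const_mul, integral_sub, integral_const]
    · simp [hfdef, mix]
    · exact integrable_const _
    · exact integrable_phi_sub G x
    · exact (integrable_phi_sub G x).const_mul _
    · exact (integrable_const _).sub (integrable_phi_sub G x)
  rw [hcomp] at hint
  have hcb : c₀ * b = f := by rw [hb]; field_simp
  rw [hcb] at hint
  have h4 : G.real Set.univ * f - f ≤ 0 := by nlinarith
  have h5 : Real.log α - x ^ 2 / 2 ≤ Real.log b := by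
    have h6 : α * Real.exp (-x ^ 2 / 2) ≤ b := by
      rw [hb, le_div_iff₀ hc₀pos]
      have h7 := mix_ge_of_atom G x
      have h8 : phi x = c₀ * Real.exp (-x ^ 2 / 2) := rfl
      rw [h8] at h7
      have h9 : α ≤ (G {0}).toReal := h0
      have h10 : 0 ≤ c₀ * Real.exp (-x ^ 2 / 2) := by positivity
      nlinarith [mul_le_mul_of_nonneg_right h9 h10]
    have h11 := Real.log_le_log (by positivity) h6
    rw [Real.log_mul hα.ne' (Real.exp_pos _).ne', Real.log_exp] at h11
    linarith
  nlinarith [mul_le_mul_of_nonneg_left h5 hf.le]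

end CS

/-- The standing assumptions on a mixing measure: finite of mass at most one, with an atom of mass
at least `α > 0` at the origin. -/
structure Std (α : ℝ) (G : Measure ℝ) : Prop where
  pos : 0 < α
  mass : G.real Set.univ ≤ 1
  atom : α ≤ G.real {0}

variable {α : ℝ} {G : Measure ℝ} [IsFiniteMeasure G]

lemma Std.mix_ge (h : Std α G) (x : ℝ) : α * phi x ≤ mix G x := by
  have h7 := mix_ge_of_atom G x
  have h9 : α ≤ (G {0}).toReal := h.atom
  nlinarith [mul_le_mul_of_nonneg_right h9 (phi_nonneg x)]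

lemma Std.mix_pos (h : Std α G) (x : ℝ) : 0 < mix G x :=
  lt_of_lt_of_le (mul_pos h.pos (phi_pos x)) (h.mix_ge x)

lemma Std.psi_sq_le (h : Std α G) (x : ℝ) : psi G x ^ 2 ≤ x ^ 2 - 2 * Real.log α := by
  have hf := h.mix_pos x
  have h1 := dmix_sq_le G x hf
  have h2 := qmix_le G x hf h.mass h.pos h.atom
  have h3 : psi G x ^ 2 = ((dmix G x) ^ 2 / mix G x) / mix G x := by
    unfold psi
    field_simp
  rw [h3, div_le_iff₀ hf]
  linarith

lemma Std.continuous_psi (h : Std α G) : Continuous (psi G) := by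
  unfold psi
  exact (continuous_dmix G).neg.div (continuous_mix G) fun x => (h.mix_pos x).ne'

lemma Std.psi_expBdd (h : Std α G) : ExpBdd (psi G) := by
  have hlog : 0 ≤ -2 * Real.log α := by
    have h1 : α ≤ 1 := h.atom.trans ((measureReal_mono (Set.subset_univ _)).trans h.mass)
    have := Real.log_nonpos h.pos.le h1
    linarith
  have hsq : ExpBdd (fun x => psi G x ^ 2) := by
    refine ((ExpBdd.id.pow 2).add (ExpBdd.const (-2 * Real.log α))).of_le fun x => ?_
    rw [abs_of_nonneg (sq_nonneg _), abs_of_nonneg (by positivity)]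
    have := h.psi_sq_le x
    linarith
  have hsq1 : ExpBdd (fun x => psi G x ^ 2 + 1) := hsq.add (ExpBdd.const 1)
  refine hsq1.of_le fun x => ?_
  rw [abs_of_nonneg (a := psi G x ^ 2 + 1) (by positivity), ← sq_abs (psi G x)]
  nlinarith [sq_nonneg (|psi G x| - 1)]

lemma fint_eq (h : Std α G) (x : ℝ) : fint G x = psi G x ^ 2 * mix G x := by
  have hf := (h.mix_pos x).ne'
  unfold fint psi
  field_simp

omit [IsFiniteMeasure G] in
lemma fint_nonneg (x : ℝ) : 0 ≤ fint G x := div_nonneg (sq_nonneg _) (mix_nonneg G x)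

lemma continuous_fint (h : Std α G) : Continuous (fint G) := by
  unfold fint
  exact ((continuous_dmix G).pow 2).div (continuous_mix G) fun x => (h.mix_pos x).ne'

lemma lintegral_sq_phi (u : ℝ) :
    ∫⁻ x, ENNReal.ofReal ((x - u) ^ 2 * phi (x - u)) = ∫⁻ x, ENNReal.ofReal (x ^ 2 * phi x) :=
  lintegral_sub_right_eq_self (fun x => ENNReal.ofReal (x ^ 2 * phi x)) u

lemma integrable_sq_mul_phi : Integrable (fun x => x ^ 2 * phi x) := by
  have := (ExpBdd.id.pow 2).integrable_mul_phi (by fun_prop) 0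
  simpa using this

lemma lintegral_qmix_lt_top (G : Measure ℝ) [IsFiniteMeasure G] :
    ∫⁻ x, ENNReal.ofReal (qmix G x) < ⊤ := by
  have h1 : ∀ x, ENNReal.ofReal (qmix G x)
      = ∫⁻ u, ENNReal.ofReal ((x - u) ^ 2 * phi (x - u)) ∂G := by
    intro x
    unfold qmix
    rw [ofReal_integral_eq_lintegral_ofReal (integrable_sq_mul_phi_sub G x)]
    exact ae_of_all _ fun u => mul_nonneg (sq_nonneg _) (phi_nonneg _)
  simp_rw [h1]
  rw [lintegral_lintegral_swap]
  · simp_rw [lintegral_sq_phi]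
    rw [lintegral_const]
    refine ENNReal.mul_lt_top ?_ (measure_lt_top G _)
    have := integrable_sq_mul_phi.lintegral_lt_top
    exact this
  · have : Measurable (fun p : ℝ × ℝ => ENNReal.ofReal ((p.1 - p.2) ^ 2 * phi (p.1 - p.2))) := by
      fun_prop
    exact this.aemeasurable

lemma integrable_fint (h : Std α G) : Integrable (fint G) := by
  refine ⟨(continuous_fint h).aestronglyMeasurable, ?_⟩
  rw [hasFiniteIntegral_iff_ofReal (ae_of_all _ fun x => fint_nonneg x)]
  refine lt_of_le_of_lt (lintegral_mono fun x => ?_) (lintegral_qmix_lt_top G)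
  exact ENNReal.ofReal_le_ofReal (dmix_sq_le G x (h.mix_pos x))

lemma fisher_mix_eq (h : Std α G) : fisher (mix G) = ENNReal.ofReal (∫ x, fint G x) := by
  rw [fisher_mix, ofReal_integral_eq_lintegral_ofReal (integrable_fint h)
    (ae_of_all _ fun x => fint_nonneg x)]
  rfl

end Pool.Agent.FisherMin
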