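import Mathlib

/-!
Definitions used in the statement of the result on `MP_1b24b4_pr`: the standard Gaussian density,
Gaussian location mixtures, Fisher information, the class `𝒢_α`, and symmetric step distributions.
-/

open MeasureTheory

namespace Pool.Agent.FisherMin

/-- The standard Gaussian density `φ(x) = (2π)^{-1/2} e^{-x²/2}`. -/
noncomputable def phi (x : ℝ) : ℝ := (Real.sqrt (2 * Real.pi))⁻¹ * Real.exp (-x ^ 2 / 2)

/-- The mixture `f(x) = ∫ φ(x - u) dG(u)`: the density of `Z + U`, where `Z ∼ N(0,1)` and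
`U ∼ G` are independent. -/
noncomputable def mix (G : Measure ℝ) (x : ℝ) : ℝ := ∫ u, phi (x - u) ∂G

/-- The location Fisher information `I_f = ∫ (f')² / f` of a density `f`, as an element of
`[0, ∞]`. -/
noncomputable def fisher (f : ℝ → ℝ) : ENNReal :=
  ∫⁻ x, ENNReal.ofReal ((deriv f x) ^ 2 / f x)

/-- The class `𝒢_α`: probability measures on `ℝ`, symmetric about `0`, with an atom of mass exactly
`α` at `0`. -/
def classG (α : ℝ) : Set (Measure ℝ) :=
  {G | IsProbabilityMeasure G ∧ G.map (fun u => -u) = G ∧ G {0} = ENNReal.ofReal α}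

/-- The (symmetric) step distribution with mass `p 0` at `g 0` and mass `p j` at each of the two
points `g j` and `- g j`, for every `j ≥ 1`:
`p₀ δ_{g₀} + ∑_{j ≥ 1} p_j (δ_{g_j} + δ_{-g_j})`. -/
noncomputable def stepMeasure (g p : ℕ → ℝ) : Measure ℝ :=
  ENNReal.ofReal (p 0) • Measure.dirac (g 0) +
    Measure.sum fun j : ℕ => ENNReal.ofReal (p (j + 1)) •
      (Measure.dirac (g (j + 1)) + Measure.dirac (-g (j + 1)))

end Pool.Agent.FisherMin
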