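import Pool.Agent.FisherMin.Structure

/-!
The minimizer is discrete with locally finite, unbounded support.
-/

open MeasureTheory Filter Topology ProbabilityTheory

namespace Pool.Agent.FisherMin

lemma analytic_laplace_nonneg {w : ℝ → ℝ} (hw : ExpBdd w) (hm : Measurable w)
    (h0 : ∀ x, 0 ≤ w x) :
    AnalyticOnNhd ℝ (fun u => ∫ x, w x * (phi x * Real.exp (u * x))) Set.univ := by
  set μ : Measure ℝ := volume.withDensity (fun x => ENNReal.ofReal (w x * phi x)) with hμ
  have hmgf : ∀ u, mgf id μ u = ∫ x, w x * (phi x * Real.exp (u * x)) := by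
    intro u
    unfold mgf
    rw [hμ, integral_withDensity_eq_integral_toReal_smul (by fun_prop)
      (ae_of_all _ fun u => ENNReal.ofReal_lt_top)]
    congr 1
    ext x
    rw [ENNReal.toReal_ofReal (mul_nonneg (h0 x) (phi_nonneg x))]
    simp only [id, smul_eq_mul]
    ring
  have hset : integrableExpSet id μ = Set.univ := by
    ext t
    simp only [integrableExpSet, Set.mem_ofPred_eq, Set.mem_univ, iff_true, id]
    rw [hμ, integrable_withDensity_iff_integrable_smul' (by fun_prop)
      (ae_of_all _ fun u => ENNReal.ofReal_lt_top)]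
    have h3 : ExpBdd (fun x => w x * Real.exp (x * t + 0)) := hw.mul (expBdd_exp t 0)
    have h4 := h3.integrable_mul_phi (by fun_prop) 0
    refine h4.congr (ae_of_all _ fun x => ?_)
    simp only [ENNReal.toReal_ofReal (mul_nonneg (h0 x) (phi_nonneg x)), smul_eq_mul, sub_zero,
      add_zero]
    rw [mul_comm x t]
    ring
  have h5 := analyticOnNhd_mgf (X := id) (μ := μ)
  rw [hset, interior_univ] at h5
  have : mgf id μ = fun u => ∫ x, w x * (phi x * Real.exp (u * x)) := funext hmgf
  rwa [this] at h5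

lemma integrable_laplace {w : ℝ → ℝ} (hw : ExpBdd w) (hm : Measurable w) (u : ℝ) :
    Integrable (fun x => w x * (phi x * Real.exp (u * x))) := by
  have h3 : ExpBdd (fun x => w x * Real.exp (x * u + 0)) := hw.mul (expBdd_exp u 0)
  have h4 := h3.integrable_mul_phi (by fun_prop) 0
  refine h4.congr (ae_of_all _ fun x => ?_)
  simp only [sub_zero, add_zero]
  rw [mul_comm x u]
  ring

lemma analytic_laplace {w : ℝ → ℝ} (hw : ExpBdd w) (hm : Measurable w) :
    AnalyticOnNhd ℝ (fun u => ∫ x, w x * (phi x * Real.exp (u * x))) Set.univ := by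
  have ha : ExpBdd (fun x => |w x|) := hw.of_le fun x => by rw [abs_abs]
  have hb : ExpBdd (fun x => |w x| + w x) := ha.add hw
  have h1 := analytic_laplace_nonneg ha (by fun_prop) (fun x => abs_nonneg _)
  have h2 := analytic_laplace_nonneg hb (by fun_prop) (fun x => by
    have := neg_abs_le (w x); linarith)
  have h3 := h2.sub h1
  refine h3.congr isOpen_univ fun u _ => ?_
  simp only [Pi.sub_apply]
  rw [← integral_sub (integrable_laplace hb (by fun_prop) u)
    (integrable_laplace ha (by fun_prop) u)]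
  congr 1
  ext x
  ring

variable {α : ℝ} {G : Measure ℝ} [IsFiniteMeasure G]

lemma Lf_eq (hG : Std α G) (u : ℝ) : Lf G u = Real.exp (-(u ^ 2 / 2)) *
    ((∫ x, (2 * x * psi G x - psi G x ^ 2) * (phi x * Real.exp (u * x))) -
      2 * u * ∫ x, psi G x * (phi x * Real.exp (u * x))) := by
  have hm := hG.continuous_psi.measurable
  have h1 : ExpBdd (fun x => 2 * x * psi G x - psi G x ^ 2) :=
    (((ExpBdd.const 2).mul ExpBdd.id).mul hG.psi_expBdd).sub (hG.psi_expBdd.pow 2)
  rw [← integral_const_mul, ← integral_sub (integrable_laplace h1 (by fun_prop) u)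
    ((integrable_laplace hG.psi_expBdd hm u).const_mul _), ← integral_const_mul]
  unfold Lf
  congr 1
  ext x
  rw [phi_sub_eq, show x * u - u ^ 2 / 2 = -(u ^ 2 / 2) + u * x by ring, Real.exp_add]
  ring

lemma analytic_Lf (hG : Std α G) : AnalyticOnNhd ℝ (Lf G) Set.univ := by
  have hm := hG.continuous_psi.measurable
  have h1 : ExpBdd (fun x => 2 * x * psi G x - psi G x ^ 2) :=
    (((ExpBdd.const 2).mul ExpBdd.id).mul hG.psi_expBdd).sub (hG.psi_expBdd.pow 2)
  have a1 := analytic_laplace h1 (by fun_prop)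
  have a2 := analytic_laplace hG.psi_expBdd hm
  have a3 : AnalyticOnNhd ℝ (fun u : ℝ => Real.exp (-(u ^ 2 / 2))) Set.univ := by
    intro u _
    fun_prop
  have a4 : AnalyticOnNhd ℝ (fun u : ℝ => 2 * u) Set.univ := by
    intro u _
    fun_prop
  have a5 := a3.mul (a1.sub (a4.mul a2))
  refine a5.congr isOpen_univ fun u _ => ?_
  rw [Lf_eq hG u]
  rfl

lemma finite_level (hG : Std α G) {lam : ℝ} (h0 : Lf G 0 ≠ lam) (R : ℝ) :
    ({u | Lf G u = lam} ∩ Set.Icc (-R) R).Finite := by
  by_contra hinf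
  obtain ⟨z, -, hz⟩ := Set.Infinite.exists_accPt_of_subset_isCompact hinf isCompact_Icc
    Set.inter_subset_right
  rw [accPt_iff_frequently_nhdsNE] at hz
  have hz2 : ∃ᶠ y in 𝓝[≠] z, Lf G y = (fun _ => lam) y := hz.mono fun y hy => hy.1
  have := (analytic_Lf hG).eqOn_of_preconnected_of_frequently_eq
    (analyticOnNhd_const (v := lam)) isPreconnected_univ (Set.mem_univ z) hz2
  exact h0 (this (Set.mem_univ 0))

lemma Lf_le_of_bdd (hG : Std α G) {R : ℝ} (hR : G (Set.Ioi R) = 0) {u : ℝ} (hu : R ≤ u) :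
    Lf G u ≤ (∫ x, x ^ 2 * phi x) - (u - R) ^ 2 * ∫ x, phi x := by
  have hm := hG.continuous_psi.measurable
  have hae : ∀ᵐ v ∂G, v ≤ R := by
    rw [ae_iff]
    have : {a : ℝ | ¬a ≤ R} = Set.Ioi R := by ext a; simp
    rw [this]
    exact hR
  have hpsi : ∀ x, x - R ≤ psi G x := by
    intro x
    have hf := hG.mix_pos x
    have h1 : 0 ≤ ∫ v, (R - v) * phi (x - v) ∂G := by
      refine integral_nonneg_of_ae ?_
      filter_upwards [hae] with v hv
      exact mul_nonneg (sub_nonneg.2 hv) (phi_nonneg _)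
    have h2 : ∫ v, (R - v) * phi (x - v) ∂G = (R - x) * mix G x - dmix G x := by
      unfold mix dmix
      rw [← integral_const_mul, ← integral_sub ((integrable_phi_sub G x).const_mul _)
        (integrable_neg_mul_phi_sub G x)]
      congr 1
      ext v
      ring
    rw [h2] at h1
    unfold psi
    rw [le_div_iff₀ hf]
    linarith
  have i1 : Integrable (fun x => (x - u) ^ 2 * phi (x - u)) :=
    ((ExpBdd.id.sub (ExpBdd.const u)).pow 2).integrable_mul_phi (by fun_prop) u
  have i2 : Integrable (fun x => phi (x - u)) := by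
    have := (ExpBdd.const 1).integrable_mul_phi (by fun_prop) u
    simpa using this
  have h3 : Lf G u ≤ ∫ x, ((x - u) ^ 2 * phi (x - u) - (u - R) ^ 2 * phi (x - u)) := by
    unfold Lf
    refine integral_mono (integrable_Lf_integrand hG u) (i1.sub (i2.const_mul _)) fun x => ?_
    simp only
    have h4 := hpsi x
    have h5 := phi_nonneg (x - u)
    have h6 : 2 * psi G x * (x - u) - psi G x ^ 2 ≤ (x - u) ^ 2 - (u - R) ^ 2 := by
      nlinarith [mul_nonneg (sub_nonneg.2 hu) (sub_nonneg.2 h4), sq_nonneg (psi G x - (x - R))]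
    calc (2 * psi G x * (x - u) - psi G x ^ 2) * phi (x - u)
        ≤ ((x - u) ^ 2 - (u - R) ^ 2) * phi (x - u) := by gcongr
      _ = _ := by ring
  rw [integral_sub i1 (i2.const_mul _), integral_const_mul,
    integral_sub_right_eq_self (fun x => x ^ 2 * phi x),
    integral_sub_right_eq_self (fun x => phi x)] at h3
  exact h3

lemma integral_phi_pos : 0 < ∫ x, phi x := by
  have i2 : Integrable phi := by
    have := (ExpBdd.const 1).integrable_mul_phi (by fun_prop) 0
    simpa using this
  rw [integral_pos_iff_support_of_nonneg phi_nonneg i2]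
  have : Function.support phi = Set.univ := by
    ext x
    simp [(phi_pos x).ne']
  rw [this]
  simp

lemma unbounded_of_equal (hG : Std α G) {lam : ℝ} (hE : Equal α G lam) (R : ℝ) :
    G (Set.Ioi R) ≠ 0 := by
  intro hR
  set A := ∫ x, x ^ 2 * phi x with hA
  set B := ∫ x, phi x with hB
  have hBpos : 0 < B := integral_phi_pos
  have hA0 : 0 ≤ A := integral_nonneg fun x => mul_nonneg (sq_nonneg _) (phi_nonneg _)
  -- choose a large `u`
  set t := (A - lam) / B + 1 with ht
  have hneg := hE.neg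
  have hq : 0 ≤ (A - lam) / B := div_nonneg (by linarith) hBpos.le
  have ht1 : 1 ≤ t := by linarith
  have h1 := Lf_le_of_bdd hG hR (u := R + t) (by linarith)
  have h2 := hE.le (R + t)
  have h3 : (R + t - R) ^ 2 = t ^ 2 := by ring
  rw [h3, ← hA, ← hB] at h1
  have h4 : t ≤ t ^ 2 := by nlinarith
  have h5 : t * B = A - lam + B := by
    rw [ht]; field_simp
  nlinarith [mul_le_mul_of_nonneg_right h4 hBpos.le]

/-- positive atoms -/
def atoms (G : Measure ℝ) : Set ℝ := {u | 0 < u ∧ G {u} ≠ 0}

omit [IsFiniteMeasure G] in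
lemma atoms_subset {lam : ℝ} (hE : Equal α G lam) : atoms G ⊆ {u | Lf G u = lam} := by
  intro u hu
  by_contra hne
  apply hu.2
  refine measure_mono_null ?_ hE.ae
  rintro v rfl
  exact ⟨hu.1.ne', hne⟩

lemma atoms_finite (hG : Std α G) {lam : ℝ} (hE : Equal α G lam) (R : ℝ) :
    (atoms G ∩ Set.Iic R).Finite := by
  refine (finite_level hG hE.zero.ne' R).subset ?_
  rintro u ⟨hu, hR⟩
  have h1 : 0 < u := hu.1
  have h2 : u ≤ R := hR
  exact ⟨atoms_subset hE hu, by constructor <;> linarith⟩

lemma level_countable (hG : Std α G) {lam : ℝ} (h0 : Lf G 0 ≠ lam) :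
    {u | Lf G u = lam}.Countable := by
  have : {u | Lf G u = lam} ⊆ ⋃ n : ℕ, ({u | Lf G u = lam} ∩ Set.Icc (-(n : ℝ)) n) := by
    intro u hu
    rw [Set.mem_iUnion]
    obtain ⟨n, hn⟩ := exists_nat_ge |u|
    exact ⟨n, hu, abs_le.1 hn⟩
  exact (Set.countable_iUnion fun n : ℕ => (finite_level hG h0 (n : ℝ)).countable).mono this

lemma atoms_unbounded (hG : Std α G) {lam : ℝ} (hE : Equal α G lam) {R : ℝ} (hR : 0 ≤ R) :
    ∃ u ∈ atoms G, R < u := by
  by_contra hcon
  push Not at hcon
  apply unbounded_of_equal hG hE R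
  have hsub : Set.Ioi R ⊆ {u | u ≠ 0 ∧ Lf G u ≠ lam} ∪ ({u | Lf G u = lam} ∩ Set.Ioi R) := by
    intro u hu
    have h1 : R < u := hu
    by_cases h : Lf G u = lam
    · right; exact ⟨h, hu⟩
    · left; exact ⟨by linarith [lt_of_le_of_lt hR h1] |> fun h : 0 < u => h.ne', h⟩
  refine measure_mono_null hsub (measure_union_null hE.ae ?_)
  have hc : ({u | Lf G u = lam} ∩ Set.Ioi R).Countable :=
    (level_countable hG hE.zero.ne').mono Set.inter_subset_left
  rw [measure_null_iff_singleton hc]
  rintro u ⟨-, hu⟩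
  have h1 : R < u := hu
  by_contra hne
  have h2 := hcon u ⟨lt_of_le_of_lt hR h1, hne⟩
  linarith

/-- next atom after `x` -/
lemma exists_next (hG : Std α G) {lam : ℝ} (hE : Equal α G lam) {x : ℝ} (hx : 0 ≤ x) :
    ∃ y, IsLeast (atoms G ∩ Set.Ioi x) y := by
  obtain ⟨s, hs, hxs⟩ := atoms_unbounded hG hE hx
  have hfin : (atoms G ∩ Set.Ioi x ∩ Set.Iic s).Finite :=
    (atoms_finite hG hE s).subset (by
      rintro u ⟨⟨h1, -⟩, h3⟩
      exact ⟨h1, h3⟩)
  have hne : (atoms G ∩ Set.Ioi x ∩ Set.Iic s).Nonempty :=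
    ⟨s, ⟨hs, hxs⟩, Set.mem_Iic.2 le_rfl⟩
  obtain ⟨y, hy, hmin⟩ := Set.exists_min_image _ id hfin hne
  refine ⟨y, hy.1, ?_⟩
  intro z hz
  by_cases hzs : z ≤ s
  · exact hmin z ⟨hz, hzs⟩
  · exact hy.2.trans (le_of_not_ge hzs)

/-- enumeration of the support -/
theorem exists_enum (hG : Std α G) {lam : ℝ} (hE : Equal α G lam) :
    ∃ g : ℕ → ℝ, g 0 = 0 ∧ StrictMono g ∧ Tendsto g atTop atTop ∧
      atoms G = Set.range (fun j => g (j + 1)) := by
  choose! nxt hnxt using fun (x : ℝ) (hx : 0 ≤ x) => exists_next hG hE hx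
  set g : ℕ → ℝ := fun n => nxt^[n] 0 with hg
  have hg0 : g 0 = 0 := rfl
  have hgs : ∀ n, g (n + 1) = nxt (g n) := fun n => Function.iterate_succ_apply' nxt n 0
  have hnn : ∀ n, 0 ≤ g n := by
    intro n
    induction n with
    | zero => exact le_rfl
    | succ n ih =>
      rw [hgs]
      have h1 : g n < nxt (g n) := (hnxt (g n) ih).1.2
      linarith
  have hstep : ∀ n, IsLeast (atoms G ∩ Set.Ioi (g n)) (g (n + 1)) := by
    intro n
    rw [hgs]
    exact hnxt (g n) (hnn n)
  have hmono : StrictMono g := strictMono_nat_of_lt_succ fun n => (hstep n).1.2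
  have hmem : ∀ n, g (n + 1) ∈ atoms G := fun n => (hstep n).1.1
  have htend : Tendsto g atTop atTop := by
    refine tendsto_atTop_atTop_of_monotone hmono.monotone fun b => ?_
    by_contra hcon
    push Not at hcon
    have hsub : Set.range (fun j => g (j + 1)) ⊆ atoms G ∩ Set.Iic b := by
      rintro _ ⟨j, rfl⟩
      exact ⟨hmem j, (hcon (j + 1)).le⟩
    have hinj : Function.Injective (fun j => g (j + 1)) := fun i j hij => by
      have := hmono.injective hij
      omega
    exact Set.infinite_range_of_injective hinj ((atoms_finite hG hE b).subset hsub)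
  refine ⟨g, hg0, hmono, htend, ?_⟩
  apply Set.Subset.antisymm
  · intro s hs
    have hex : ∃ n, s ≤ g n := (htend.eventually (eventually_ge_atTop s)).exists
    classical
    set n := Nat.find hex with hn
    have h1 : s ≤ g n := Nat.find_spec hex
    rcases Nat.eq_zero_or_pos n with h0 | hpos
    · rw [h0, hg0] at h1
      exact absurd hs.1 (not_lt.2 h1)
    · obtain ⟨k, hk⟩ : ∃ k, n = k + 1 := ⟨n - 1, by omega⟩
      have h2 : ¬ s ≤ g k := Nat.find_min hex (by omega)
      push Not at h2
      rw [hk] at h1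
      have h3 := (hstep k).2 ⟨hs, h2⟩
      exact ⟨k, le_antisymm h3 h1⟩
  · rintro _ ⟨j, rfl⟩
    exact hmem j

theorem exists_step (h0 : 0 < α) (hG' : G ∈ classG α) {lam : ℝ} (hE : Equal α G lam) :
    ∃ g p : ℕ → ℝ, g 0 = 0 ∧ p 0 = α ∧ StrictMono g ∧ Tendsto g atTop atTop ∧ (∀ j, 0 < p j) ∧
      G = stepMeasure g p ∧ (∀ j, ENNReal.ofReal (p j) = G {g j}) ∧ (∀ a, G {-a} = G {a}) ∧
      G ({0} ∪ ⋃ j, {g (j + 1), -g (j + 1)})ᶜ = 0 ∧ (∀ j, Lf G (g (j + 1)) = lam) := by
  have hG := std_of_classG h0 hG'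
  obtain ⟨g, hg0, hmono, htend, hatoms⟩ := exists_enum hG hE
  have hgpos : ∀ j, 0 < g (j + 1) := fun j => by
    rw [← hg0]; exact hmono (Nat.succ_pos j)
  set p : ℕ → ℝ := fun j => (G {g j}).toReal with hp
  have hp0 : p 0 = α := by
    simp only [hp]
    rw [hg0, hG'.2.2, ENNReal.toReal_ofReal h0.le]
  have hofp : ∀ j, ENNReal.ofReal (p j) = G {g j} := fun j =>
    ENNReal.ofReal_toReal (measure_ne_top _ _)
  have hppos : ∀ j, 0 < p j := by
    intro j
    rcases j with _ | j
    · rw [hp0]; exact h0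
    · have h1 : g (j + 1) ∈ atoms G := by rw [hatoms]; exact ⟨j, rfl⟩
      exact ENNReal.toReal_pos h1.2 (measure_ne_top _ _)
  have hlev : ∀ j, Lf G (g (j + 1)) = lam := fun j =>
    atoms_subset hE (by rw [hatoms]; exact ⟨j, rfl⟩)
  have hsymm : ∀ a : ℝ, G {-a} = G {a} := by
    intro a
    conv_lhs => rw [← hG'.2.1]
    rw [Measure.map_apply measurable_neg (measurableSet_singleton _)]
    congr 1
    ext u
    simp
  -- pieces
  set s : ℕ → Set ℝ := fun j => {g (j + 1), -g (j + 1)} with hs
  have hsm : ∀ j, MeasurableSet (s j) := fun j => (measurableSet_singleton _).insert _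
  have hpiece : ∀ j, G.restrict (s j) = ENNReal.ofReal (p (j + 1)) •
      (Measure.dirac (g (j + 1)) + Measure.dirac (-g (j + 1))) := by
    intro j
    have hdis : Disjoint {g (j + 1)} ({-g (j + 1)} : Set ℝ) := by
      rw [Set.disjoint_singleton]
      have := hgpos j
      intro h
      linarith
    have h1 : s j = {g (j + 1)} ∪ {-g (j + 1)} := rfl
    rw [h1, Measure.restrict_union hdis (measurableSet_singleton _), Measure.restrict_singleton,
      Measure.restrict_singleton, hsymm, smul_add, hofp]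
  have hpd : Pairwise (Function.onFun Disjoint s) := by
    intro i j hij
    simp only [Function.onFun, hs]
    have hi := hgpos i
    have hj := hgpos j
    have hne : g (i + 1) ≠ g (j + 1) := fun h => hij (by have := hmono.injective h; omega)
    rw [Set.disjoint_left]
    intro u hu hu'
    simp only [Set.mem_insert_iff, Set.mem_singleton_iff] at hu hu'
    rcases hu with h | h <;> rcases hu' with h' | h'
    · exact hne (h.symm.trans h')
    · linarith
    · linarith
    · apply hne; linarith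
  have hsum : (Measure.sum fun j : ℕ => ENNReal.ofReal (p (j + 1)) •
      (Measure.dirac (g (j + 1)) + Measure.dirac (-g (j + 1)))) = G.restrict (⋃ j, s j) := by
    rw [Measure.restrict_iUnion hpd hsm]
    congr 1
    ext1 j
    exact (hpiece j).symm
  have hnull : G ({0} ∪ ⋃ j, s j)ᶜ = 0 := by
    have hcnt : {u | Lf G u = lam}.Countable := level_countable hG hE.zero.ne'
    -- bad set
    have hsub : ({0} ∪ ⋃ j, s j)ᶜ ⊆ {u | u ≠ 0 ∧ Lf G u ≠ lam} ∪
        ({u | Lf G u = lam} ∩ {u | G {u} = 0}) := by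
      intro u hu
      have hu0 : u ≠ 0 := fun h => hu (Or.inl h)
      have hu1 : ∀ j, u ∉ s j := fun j h => hu (Or.inr (Set.mem_iUnion.2 ⟨j, h⟩))
      by_cases h : Lf G u = lam
      · right
        refine ⟨h, ?_⟩
        change G {u} = 0
        by_contra hne
        rcases lt_or_gt_of_ne hu0 with hneg | hpos
        · have h2 : -u ∈ atoms G := ⟨by linarith, by rw [hsymm]; exact hne⟩
          rw [hatoms] at h2
          obtain ⟨j, hj⟩ := h2
          apply hu1 j
          right
          simp only [Set.mem_singleton_iff]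
          simp only at hj
          linarith
        · have h2 : u ∈ atoms G := ⟨hpos, hne⟩
          rw [hatoms] at h2
          obtain ⟨j, hj⟩ := h2
          apply hu1 j
          left
          exact hj.symm
      · left; exact ⟨hu0, h⟩
    refine measure_mono_null hsub (measure_union_null hE.ae ?_)
    rw [measure_null_iff_singleton (hcnt.mono Set.inter_subset_left)]
    intro u hu
    exact hu.2
  refine ⟨g, p, hg0, hp0, hmono, htend, hppos, ?_, hofp, hsymm, hnull, hlev⟩
  unfold stepMeasure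
  rw [hsum, hofp 0, hg0, ← Measure.restrict_singleton]
  have hdis0 : Disjoint {0} (⋃ j, s j) := by
    rw [Set.disjoint_iUnion_right]
    intro j
    have hj := hgpos j
    rw [Set.disjoint_left]
    intro u hu hu'
    simp only [hs, Set.mem_insert_iff, Set.mem_singleton_iff] at hu hu'
    rcases hu' with h' | h' <;> linarith
  rw [← Measure.restrict_union hdis0 (MeasurableSet.iUnion hsm)]
  symm
  rw [Measure.restrict_eq_self_of_ae_mem]
  rw [ae_iff]
  exact hnull

end Pool.Agent.FisherMin
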