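import Pool.Agent.FisherMin.Bounds

/-!
Existence of a minimizer among sub-probability contaminations, by compactness of the space of
probability measures on the extended real line and Fatou's lemma.
-/

open MeasureTheory Filter Topology

namespace Pool.Agent.FisherMin

/-- symmetrised Gaussian kernel -/
noncomputable def kap (x u : ℝ) : ℝ := (phi (x - u) + phi (x + u)) / 2

/-- derivative of the symmetrised Gaussian kernel in `x` -/
noncomputable def dkap (x u : ℝ) : ℝ := (-(x - u) * phi (x - u) + -(x + u) * phi (x + u)) / 2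

/-- The symmetric mixing measure with an atom `α` at the origin and contamination `ν`. -/
noncomputable def gof (α : ℝ) (ν : Measure ℝ) : Measure ℝ :=
  ENNReal.ofReal α • Measure.dirac 0 + ENNReal.ofReal ((1 - α) / 2) • (ν + ν.map (fun u => -u))

instance (α : ℝ) (ν : Measure ℝ) [IsFiniteMeasure ν] : IsFiniteMeasure (gof α ν) := by
  unfold gof
  have h1 : IsFiniteMeasure (ENNReal.ofReal α • Measure.dirac (0 : ℝ)) :=
    Measure.smul_finite _ ENNReal.ofReal_ne_top
  have h2 : IsFiniteMeasure (ENNReal.ofReal ((1 - α) / 2) • (ν + ν.map (fun u => -u))) :=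
    Measure.smul_finite _ ENNReal.ofReal_ne_top
  infer_instance

lemma integral_gof {α : ℝ} (h0 : 0 < α) (h1 : α < 1) (ν : Measure ℝ) [IsFiniteMeasure ν]
    {F : ℝ → ℝ} (hF : Measurable F) (hi : Integrable F ν) (hi' : Integrable (fun u => F (-u)) ν) :
    ∫ u, F u ∂(gof α ν) = α * F 0 + (1 - α) * ∫ u, (F u + F (-u)) / 2 ∂ν := by
  unfold gof
  have hneg : Measurable (fun u : ℝ => -u) := measurable_neg
  have hi2 : Integrable F (ν.map (fun u => -u)) :=
    (integrable_map_measure hF.aestronglyMeasurable hneg.aemeasurable).2 hi'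
  rw [integral_add_measure, integral_smul_measure, integral_smul_measure, integral_dirac,
    integral_add_measure hi hi2, integral_map hneg.aemeasurable hF.aestronglyMeasurable,
    ENNReal.toReal_ofReal h0.le, ENNReal.toReal_ofReal (by linarith), integral_div,
    integral_add hi hi']
  · simp only [smul_eq_mul]
    ring
  · exact (integrable_dirac (by simp)).smul_measure ENNReal.ofReal_ne_top
  · exact (hi.add_measure hi2).smul_measure ENNReal.ofReal_ne_top

lemma mix_gof {α : ℝ} (h0 : 0 < α) (h1 : α < 1) (ν : Measure ℝ) [IsFiniteMeasure ν] (x : ℝ) :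
    mix (gof α ν) x = α * phi x + (1 - α) * ∫ u, kap x u ∂ν := by
  unfold mix
  rw [integral_gof h0 h1 ν (by fun_prop) (integrable_phi_sub ν x)]
  · simp [kap]
  · refine Integrable.mono' (integrable_const (1 : ℝ)) (by fun_prop) ?_
    filter_upwards with u
    rw [Real.norm_eq_abs, abs_of_nonneg (phi_nonneg _)]
    exact phi_le_one _

lemma dmix_gof {α : ℝ} (h0 : 0 < α) (h1 : α < 1) (ν : Measure ℝ) [IsFiniteMeasure ν] (x : ℝ) :
    dmix (gof α ν) x = α * (-x * phi x) + (1 - α) * ∫ u, dkap x u ∂ν := by
  unfold dmix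
  rw [integral_gof h0 h1 ν (by fun_prop) (integrable_neg_mul_phi_sub ν x)]
  · simp [dkap]
  · refine Integrable.mono' (integrable_const (1 : ℝ)) (by fun_prop) ?_
    filter_upwards with u
    rw [Real.norm_eq_abs, abs_mul, abs_neg, abs_of_nonneg (phi_nonneg _)]
    exact abs_mul_phi_le _

lemma std_gof {α : ℝ} (h0 : 0 < α) (h1 : α < 1) (ν : Measure ℝ) [IsFiniteMeasure ν]
    (hν : ν.real Set.univ ≤ 1) : Std α (gof α ν) where
  pos := h0
  mass := by
    have h := integral_gof h0 h1 ν (F := fun _ => 1) (by fun_prop) (integrable_const _)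
      (integrable_const _)
    simp only [integral_const, smul_eq_mul, mul_one] at h
    rw [h]
    norm_num
    nlinarith
  atom := by
    unfold gof
    have h2 : (ENNReal.ofReal α • Measure.dirac (0 : ℝ)).real {0} = α := by
      simp [Measure.real, ENNReal.toReal_ofReal h0.le]
    calc α = (ENNReal.ofReal α • Measure.dirac (0 : ℝ)).real {0} := h2.symm
      _ ≤ _ := by
        have h3 : IsFiniteMeasure (ENNReal.ofReal α • Measure.dirac (0 : ℝ)) :=
          Measure.smul_finite _ ENNReal.ofReal_ne_top
        have h4 : IsFiniteMeasure (ENNReal.ofReal ((1 - α) / 2) • (ν + ν.map (fun u => -u))) :=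
          Measure.smul_finite _ ENNReal.ofReal_ne_top
        rw [measureReal_add_apply]
        have := measureReal_nonneg
          (μ := ENNReal.ofReal ((1 - α) / 2) • (ν + ν.map (fun u => -u))) (s := {0})
        linarith

/-- extension by zero at `±∞` -/
noncomputable def extz (F : ℝ → ℝ) (u : EReal) : ℝ := if u = ⊤ ∨ u = ⊥ then 0 else F u.toReal

@[simp] lemma extz_top (F : ℝ → ℝ) : extz F ⊤ = 0 := by simp [extz]
@[simp] lemma extz_bot (F : ℝ → ℝ) : extz F ⊥ = 0 := by simp [extz]
@[simp] lemma extz_coe (F : ℝ → ℝ) (r : ℝ) : extz F (r : EReal) = F r := by simp [extz]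

lemma continuous_extz {F : ℝ → ℝ} (hF : Continuous F) (ht : Tendsto F atTop (𝓝 0))
    (hb : Tendsto F atBot (𝓝 0)) : Continuous (extz F) := by
  rw [continuous_iff_continuousAt]
  intro u
  induction u using EReal.rec with
  | bot =>
    rw [ContinuousAt, extz_bot, EReal.nhds_bot_basis.tendsto_left_iff]
    intro s hs
    have := (hb.eventually hs)
    rw [eventually_atBot] at this
    obtain ⟨a, ha⟩ := this
    refine ⟨a, trivial, ?_⟩
    intro v hv
    induction v using EReal.rec with
    | bot => rw [extz_bot]; exact mem_of_mem_nhds hs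
    | top => simp at hv
    | coe r =>
      rw [extz_coe]
      exact ha r (by simpa using (le_of_lt (EReal.coe_lt_coe_iff.1 hv)))
  | top =>
    rw [ContinuousAt, extz_top, EReal.nhds_top_basis.tendsto_left_iff]
    intro s hs
    have := (ht.eventually hs)
    rw [eventually_atTop] at this
    obtain ⟨a, ha⟩ := this
    refine ⟨a, trivial, ?_⟩
    intro v hv
    induction v using EReal.rec with
    | bot => simp at hv
    | top => rw [extz_top]; exact mem_of_mem_nhds hs
    | coe r =>
      rw [extz_coe]
      exact ha r (by simpa using (le_of_lt (EReal.coe_lt_coe_iff.1 hv)))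
  | coe r =>
    rw [EReal.isOpenEmbedding_coe.continuousAt_iff.symm]
    have : extz F ∘ (fun r : ℝ => (r : EReal)) = F := by ext r; simp
    rw [this]
    exact hF.continuousAt

/-- the part of a probability measure on `EReal` carried by the reals. -/
noncomputable def realPart (P : Measure EReal) : Measure ℝ :=
  (P.restrict ({⊤, ⊥}ᶜ)).map EReal.toReal

instance (P : Measure EReal) [IsFiniteMeasure P] : IsFiniteMeasure (realPart P) := by
  unfold realPart; infer_instance

lemma realPart_mass (P : Measure EReal) [IsProbabilityMeasure P] :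
    (realPart P).real Set.univ ≤ 1 := by
  unfold realPart
  rw [Measure.real, Measure.map_apply (by fun_prop) MeasurableSet.univ]
  simp only [Set.preimage_univ, Measure.restrict_apply_univ]
  exact ENNReal.toReal_le_of_le_ofReal zero_le_one (by simpa using prob_le_one)

lemma integral_realPart (P : Measure EReal) [IsFiniteMeasure P] {F : ℝ → ℝ} (hF : Measurable F) :
    ∫ u, F u ∂(realPart P) = ∫ u, extz F u ∂P := by
  unfold realPart
  have hms : MeasurableSet ({⊤, ⊥} : Set EReal)ᶜ :=
    ((measurableSet_singleton _).insert _).compl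
  rw [integral_map (by fun_prop) hF.aestronglyMeasurable, ← integral_indicator hms]
  congr 1
  ext u
  unfold extz
  by_cases hu : u = ⊤ ∨ u = ⊥
  · have : u ∉ ({⊤, ⊥} : Set EReal)ᶜ := fun h => h hu
    rw [Set.indicator_of_notMem this, if_pos hu]
  · have : u ∈ ({⊤, ⊥} : Set EReal)ᶜ := by simpa using hu
    rw [Set.indicator_of_mem this, if_neg hu]

/-- extension of a sub-probability on `ℝ` to a probability on `EReal`. -/
noncomputable def extMeas (ν : Measure ℝ) : Measure EReal :=
  ν.map (fun r : ℝ => (r : EReal)) + ENNReal.ofReal (1 - ν.real Set.univ) • Measure.dirac ⊤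

lemma extMeas_prob (ν : Measure ℝ) [IsFiniteMeasure ν] (h : ν.real Set.univ ≤ 1) :
    IsProbabilityMeasure (extMeas ν) := by
  constructor
  unfold extMeas
  rw [Measure.add_apply, Measure.map_apply (by fun_prop) MeasurableSet.univ]
  simp only [Set.preimage_univ, Measure.smul_apply, measure_univ, smul_eq_mul, mul_one]
  have h2 : ν Set.univ = ENNReal.ofReal (ν.real Set.univ) := by
    rw [Measure.real, ENNReal.ofReal_toReal (measure_ne_top _ _)]
  rw [h2, ← ENNReal.ofReal_add measureReal_nonneg (by linarith)]
  simp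

lemma integral_extMeas (ν : Measure ℝ) [IsFiniteMeasure ν] {F : ℝ → ℝ}
    (hF : Continuous (extz F)) (hi : Integrable F ν) :
    ∫ u, extz F u ∂(extMeas ν) = ∫ u, F u ∂ν := by
  unfold extMeas
  have hc : Measurable (fun r : ℝ => (r : EReal)) := by fun_prop
  have hi2 : Integrable (extz F) (ν.map (fun r : ℝ => (r : EReal))) := by
    rw [integrable_map_measure hF.measurable.aestronglyMeasurable hc.aemeasurable]
    refine hi.congr (ae_of_all _ fun r => ?_)
    simp
  rw [integral_add_measure hi2, integral_map hc.aemeasurable hF.measurable.aestronglyMeasurable,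
    integral_smul_measure, integral_dirac]
  · simp
  · exact (integrable_dirac (by simp)).smul_measure ENNReal.ofReal_ne_top

lemma tendsto_phi_atTop : Tendsto phi atTop (𝓝 0) := by
  have h : Tendsto (fun x : ℝ => Real.exp (-x ^ 2 / 2)) atTop (𝓝 0) := by
    refine Real.tendsto_exp_atBot.comp ?_
    have : Tendsto (fun x : ℝ => x ^ 2 / 2) atTop atTop :=
      (tendsto_pow_atTop two_ne_zero).atTop_div_const (by norm_num)
    refine (tendsto_neg_atTop_atBot.comp this).congr fun x => ?_
    simp only [Function.comp]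
    ring
  exact squeeze_zero phi_nonneg phi_le_exp h

lemma tendsto_mul_phi_atTop : Tendsto (fun x => x * phi x) atTop (𝓝 0) := by
  have h2 : Tendsto (fun x : ℝ => 2 / x) atTop (𝓝 0) := tendsto_const_nhds.div_atTop tendsto_id
  refine squeeze_zero' ?_ ?_ h2
  · filter_upwards [eventually_gt_atTop 0] with x hx
    exact mul_nonneg hx.le (phi_nonneg _)
  · filter_upwards [eventually_gt_atTop 0] with x hx
    rw [le_div_iff₀ hx]
    have := sq_mul_phi_le x
    nlinarith

lemma tendsto_phi_atBot : Tendsto phi atBot (𝓝 0) := by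
  have := tendsto_phi_atTop.comp tendsto_neg_atBot_atTop
  refine this.congr fun x => ?_
  simp [phi_neg]

lemma tendsto_mul_phi_atBot : Tendsto (fun x => x * phi x) atBot (𝓝 0) := by
  have := (tendsto_mul_phi_atTop.comp tendsto_neg_atBot_atTop).neg
  rw [neg_zero] at this
  refine this.congr fun x => ?_
  simp [phi_neg]

lemma continuous_kap (x : ℝ) : Continuous (kap x) := by unfold kap; fun_prop

lemma continuous_dkap (x : ℝ) : Continuous (dkap x) := by unfold dkap; fun_prop

lemma tendsto_sub_atTop (x : ℝ) : Tendsto (fun u => x - u) atTop atBot := by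
  simpa [sub_eq_add_neg] using tendsto_atBot_add_const_left atTop x tendsto_neg_atTop_atBot

lemma tendsto_sub_atBot (x : ℝ) : Tendsto (fun u => x - u) atBot atTop := by
  simpa [sub_eq_add_neg] using tendsto_atTop_add_const_left atBot x tendsto_neg_atBot_atTop

lemma tendsto_kap_atTop (x : ℝ) : Tendsto (kap x) atTop (𝓝 0) := by
  have h1 := tendsto_phi_atBot.comp (tendsto_sub_atTop x)
  have h2 := tendsto_phi_atTop.comp (tendsto_atTop_add_const_left atTop x tendsto_id)
  have := (h1.add h2).div_const 2
  rw [add_zero, zero_div] at this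
  exact this

lemma tendsto_kap_atBot (x : ℝ) : Tendsto (kap x) atBot (𝓝 0) := by
  have h1 := tendsto_phi_atTop.comp (tendsto_sub_atBot x)
  have h2 := tendsto_phi_atBot.comp (tendsto_atBot_add_const_left atBot x tendsto_id)
  have := (h1.add h2).div_const 2
  rw [add_zero, zero_div] at this
  exact this

lemma tendsto_dkap_atTop (x : ℝ) : Tendsto (dkap x) atTop (𝓝 0) := by
  have h1 := (tendsto_mul_phi_atBot.comp (tendsto_sub_atTop x)).neg
  have h2 := (tendsto_mul_phi_atTop.comp (tendsto_atTop_add_const_left atTop x tendsto_id)).neg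
  have := (h1.add h2).div_const 2
  rw [neg_zero, add_zero, zero_div] at this
  refine this.congr fun u => ?_
  simp only [Function.comp, dkap, id]
  ring

lemma tendsto_dkap_atBot (x : ℝ) : Tendsto (dkap x) atBot (𝓝 0) := by
  have h1 := (tendsto_mul_phi_atTop.comp (tendsto_sub_atBot x)).neg
  have h2 := (tendsto_mul_phi_atBot.comp (tendsto_atBot_add_const_left atBot x tendsto_id)).neg
  have := (h1.add h2).div_const 2
  rw [neg_zero, add_zero, zero_div] at this
  refine this.congr fun u => ?_
  simp only [Function.comp, dkap, id]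
  ring

lemma integrable_kap (ν : Measure ℝ) [IsFiniteMeasure ν] (x : ℝ) : Integrable (kap x) ν := by
  refine Integrable.mono' (integrable_const (1 : ℝ)) (continuous_kap x).aestronglyMeasurable ?_
  filter_upwards with u
  unfold kap
  have h1 := phi_nonneg (x - u)
  have h2 := phi_nonneg (x + u)
  rw [Real.norm_eq_abs, abs_of_nonneg (by positivity)]
  have := phi_le_one (x - u)
  have := phi_le_one (x + u)
  linarith

lemma integrable_dkap (ν : Measure ℝ) [IsFiniteMeasure ν] (x : ℝ) : Integrable (dkap x) ν := by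
  refine Integrable.mono' (integrable_const (1 : ℝ)) (continuous_dkap x).aestronglyMeasurable ?_
  filter_upwards with u
  unfold dkap
  rw [Real.norm_eq_abs, abs_div, abs_two]
  have h1 := abs_mul_phi_le (x-u)
  have h2 := abs_mul_phi_le (x+u)
  have h3 := abs_add_le (-(x - u) * phi (x - u)) (-(x + u) * phi (x + u))
  rw [abs_mul, abs_neg, abs_mul, abs_neg, abs_of_nonneg (phi_nonneg _),
    abs_of_nonneg (phi_nonneg _)] at h3
  linarith

/-- the functional in terms of a probability measure on the extended reals -/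
noncomputable def IP (α : ℝ) (P : Measure EReal) : ENNReal :=
  ∫⁻ x, ENNReal.ofReal ((α * (-x * phi x) + (1 - α) * ∫ u, extz (dkap x) u ∂P) ^ 2 /
    (α * phi x + (1 - α) * ∫ u, extz (kap x) u ∂P))

lemma IP_eq {α : ℝ} (h0 : 0 < α) (h1 : α < 1) (P : Measure EReal) [IsProbabilityMeasure P] :
    IP α P = fisher (mix (gof α (realPart P))) := by
  rw [fisher_mix]
  unfold IP
  congr 1
  ext x
  rw [mix_gof h0 h1, dmix_gof h0 h1, integral_realPart P (continuous_kap x).measurable,
    integral_realPart P (continuous_dkap x).measurable]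

lemma IP_extMeas {α : ℝ} (h0 : 0 < α) (h1 : α < 1) (ν : Measure ℝ) [IsFiniteMeasure ν] :
    IP α (extMeas ν) = fisher (mix (gof α ν)) := by
  rw [fisher_mix]
  unfold IP
  congr 1
  ext x
  rw [mix_gof h0 h1, dmix_gof h0 h1, integral_extMeas ν
      (continuous_extz (continuous_kap x) (tendsto_kap_atTop x) (tendsto_kap_atBot x))
      (integrable_kap ν x),
    integral_extMeas ν
      (continuous_extz (continuous_dkap x) (tendsto_dkap_atTop x) (tendsto_dkap_atBot x))
      (integrable_dkap ν x)]

/-- integrals of extended kernels depend continuously on the measure. -/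
lemma tendsto_integral_extz {F : ℝ → ℝ} (hF : Continuous (extz F))
    {P : ℕ → ProbabilityMeasure EReal} {Q : ProbabilityMeasure EReal}
    (h : Tendsto P atTop (𝓝 Q)) :
    Tendsto (fun n => ∫ u, extz F u ∂(P n : Measure EReal)) atTop
      (𝓝 (∫ u, extz F u ∂(Q : Measure EReal))) := by
  rw [ProbabilityMeasure.tendsto_iff_forall_integral_tendsto] at h
  exact h (BoundedContinuousFunction.mkOfCompact ⟨extz F, hF⟩)

lemma extz_kap_nonneg (x : ℝ) (u : EReal) : 0 ≤ extz (kap x) u := by
  unfold extz
  split_ifs
  · exact le_rfl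
  · unfold kap
    have := phi_nonneg (x - u.toReal)
    have := phi_nonneg (x + u.toReal)
    positivity

lemma IP_le_liminf {α : ℝ} (h0 : 0 < α) (h1 : α < 1)
    {P : ℕ → ProbabilityMeasure EReal} {Q : ProbabilityMeasure EReal}
    (h : Tendsto P atTop (𝓝 Q)) :
    IP α Q ≤ liminf (fun n => IP α (P n)) atTop := by
  have hk (x : ℝ) := tendsto_integral_extz
    (continuous_extz (continuous_kap x) (tendsto_kap_atTop x) (tendsto_kap_atBot x)) h
  have hd (x : ℝ) := tendsto_integral_extz
    (continuous_extz (continuous_dkap x) (tendsto_dkap_atTop x) (tendsto_dkap_atBot x)) h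
  have hlim : ∀ x : ℝ, Tendsto (fun n => ENNReal.ofReal
      ((α * (-x * phi x) + (1 - α) * ∫ u, extz (dkap x) u ∂(P n : Measure EReal)) ^ 2 /
        (α * phi x + (1 - α) * ∫ u, extz (kap x) u ∂(P n : Measure EReal)))) atTop
      (𝓝 (ENNReal.ofReal
      ((α * (-x * phi x) + (1 - α) * ∫ u, extz (dkap x) u ∂(Q : Measure EReal)) ^ 2 /
        (α * phi x + (1 - α) * ∫ u, extz (kap x) u ∂(Q : Measure EReal))))) := by
    intro x
    refine ENNReal.tendsto_ofReal (Tendsto.div ?_ ?_ ?_)
    · exact (((hd x).const_mul _).const_add _).pow 2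
    · exact ((hk x).const_mul _).const_add _
    · have h2 : 0 ≤ ∫ u, extz (kap x) u ∂(Q : Measure EReal) :=
        integral_nonneg fun u => extz_kap_nonneg x u
      have h3 := mul_pos h0 (phi_pos x)
      have h4 := mul_nonneg (sub_nonneg.2 h1.le) h2
      positivity
  unfold IP
  have hmeas : ∀ n, Measurable (fun x => ENNReal.ofReal
      ((α * (-x * phi x) + (1 - α) * ∫ u, extz (dkap x) u ∂(P n : Measure EReal)) ^ 2 /
        (α * phi x + (1 - α) * ∫ u, extz (kap x) u ∂(P n : Measure EReal)))) := by
    intro n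
    have : ∀ x, (α * (-x * phi x) + (1 - α) * ∫ u, extz (dkap x) u ∂(P n : Measure EReal)) ^ 2 /
        (α * phi x + (1 - α) * ∫ u, extz (kap x) u ∂(P n : Measure EReal))
        = fint (gof α (realPart (P n : Measure EReal))) x := by
      intro x
      unfold fint
      rw [mix_gof h0 h1, dmix_gof h0 h1, integral_realPart _ (continuous_kap x).measurable,
        integral_realPart _ (continuous_dkap x).measurable]
    simp_rw [this]
    exact (continuous_fint (std_gof h0 h1 _ (realPart_mass _))).measurable.ennreal_ofReal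
  calc _ = ∫⁻ x, liminf (fun n => ENNReal.ofReal
      ((α * (-x * phi x) + (1 - α) * ∫ u, extz (dkap x) u ∂(P n : Measure EReal)) ^ 2 /
        (α * phi x + (1 - α) * ∫ u, extz (kap x) u ∂(P n : Measure EReal)))) atTop := by
        congr 1
        ext x
        exact (hlim x).liminf_eq.symm
    _ ≤ _ := lintegral_liminf_le hmeas

theorem exists_min_subprob {α : ℝ} (h0 : 0 < α) (h1 : α < 1) :
    ∃ ν : Measure ℝ, IsFiniteMeasure ν ∧ ν.real Set.univ ≤ 1 ∧
      ∀ ν' : Measure ℝ, IsFiniteMeasure ν' → ν'.real Set.univ ≤ 1 →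
        fisher (mix (gof α ν)) ≤ fisher (mix (gof α ν')) := by
  set S : Set ENNReal := Set.range (fun P : ProbabilityMeasure EReal => IP α P) with hS
  have hne : S.Nonempty := by
    have : Nonempty (ProbabilityMeasure EReal) := ⟨⟨Measure.dirac 0, inferInstance⟩⟩
    exact Set.range_nonempty _
  obtain ⟨a, -, ha, hmem⟩ := exists_seq_tendsto_sInf hne (OrderBot.bddBelow S)
  choose P hP using hmem
  obtain ⟨Q, σ, hσ, hQ⟩ := CompactSpace.tendsto_subseq P
  have h2 := IP_le_liminf h0 h1 hQ
  have h3 : Tendsto (fun n => IP α ((P ∘ σ) n)) atTop (𝓝 (sInf S)) := by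
    have : (fun n => IP α ((P ∘ σ) n : Measure EReal)) = a ∘ σ := by
      ext n
      exact hP (σ n)
    rw [this]
    exact ha.comp hσ.tendsto_atTop
  rw [h3.liminf_eq] at h2
  refine ⟨realPart Q, inferInstance, realPart_mass _, fun ν' hν' hm => ?_⟩
  rw [← IP_eq h0 h1, ← IP_extMeas h0 h1 ν']
  refine h2.trans (sInf_le ?_)
  exact ⟨⟨extMeas ν', extMeas_prob ν' hm⟩, rfl⟩

end Pool.Agent.FisherMin
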