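import Pool.Agent.FisherMin.Variation

/-!
Fubini identity `∫ L dG = I(G)` and the fact that `L` takes negative values.
-/

open MeasureTheory Filter Topology

namespace Pool.Agent.FisherMin

section Fub

variable {α : ℝ} {G : Measure ℝ} [IsFiniteMeasure G]

lemma measurable_qmix (G : Measure ℝ) [IsFiniteMeasure G] : StronglyMeasurable (qmix G) := by
  unfold qmix
  have : StronglyMeasurable (fun p : ℝ × ℝ => (p.1 - p.2) ^ 2 * phi (p.1 - p.2)) := by
    apply Measurable.stronglyMeasurable
    fun_prop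
  exact this.integral_prod_right

omit [IsFiniteMeasure G] in
lemma qmix_nonneg (x : ℝ) : 0 ≤ qmix G x :=
  integral_nonneg fun _ => mul_nonneg (sq_nonneg _) (phi_nonneg _)

lemma integrable_qmix (G : Measure ℝ) [IsFiniteMeasure G] : Integrable (qmix G) := by
  refine ⟨(measurable_qmix G).aestronglyMeasurable, ?_⟩
  rw [hasFiniteIntegral_iff_ofReal (ae_of_all _ fun x => qmix_nonneg x)]
  exact lintegral_qmix_lt_top G

/-- the integrand of the Fubini argument -/
noncomputable def FF (G : Measure ℝ) (p : ℝ × ℝ) : ℝ :=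
  (2 * psi G p.1 * (p.1 - p.2) - psi G p.1 ^ 2) * phi (p.1 - p.2)

lemma measurable_FF (hG : Std α G) : Measurable (FF G) := by
  have hm := hG.continuous_psi.measurable
  unfold FF
  fun_prop

lemma integrable_FF (hG : Std α G) : Integrable (FF G) (volume.prod G) := by
  have hm := hG.continuous_psi.measurable
  set H : ℝ × ℝ → ℝ := fun p => (2 * psi G p.1 ^ 2 + (p.1 - p.2) ^ 2) * phi (p.1 - p.2) with hH
  have hHm : Measurable H := by rw [hH]; fun_prop
  have hHnn : ∀ p, 0 ≤ H p := fun p => mul_nonneg (by positivity) (phi_nonneg _)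
  have hHi : Integrable H (volume.prod G) := by
    rw [integrable_prod_iff hHm.aestronglyMeasurable]
    constructor
    · refine ae_of_all _ fun x => ?_
      have : Integrable (fun u => 2 * psi G x ^ 2 * phi (x - u) + (x - u) ^ 2 * phi (x - u)) G :=
        ((integrable_phi_sub G x).const_mul _).add (integrable_sq_mul_phi_sub G x)
      refine this.congr (ae_of_all _ fun u => ?_)
      simp only [hH]
      ring
    · have : ∀ x, ∫ u, ‖H (x, u)‖ ∂G = 2 * fint G x + qmix G x := by
        intro x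
        have e1 : ∀ u, ‖H (x, u)‖ = 2 * psi G x ^ 2 * phi (x - u) + (x - u) ^ 2 * phi (x - u) := by
          intro u
          rw [Real.norm_eq_abs, abs_of_nonneg (hHnn _)]
          simp only [hH]
          ring
        simp_rw [e1]
        rw [integral_add ((integrable_phi_sub G x).const_mul _) (integrable_sq_mul_phi_sub G x),
          integral_const_mul, fint_eq hG]
        unfold mix qmix
        ring
      simp_rw [this]
      exact ((integrable_fint hG).const_mul 2).add (integrable_qmix G)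
  refine hHi.mono' (measurable_FF hG).aestronglyMeasurable (ae_of_all _ fun p => ?_)
  rw [Real.norm_eq_abs]
  simp only [FF, hH]
  rw [abs_mul, abs_of_nonneg (phi_nonneg _)]
  refine mul_le_mul_of_nonneg_right ?_ (phi_nonneg _)
  rw [abs_le]
  constructor <;> nlinarith [sq_nonneg (psi G p.1 - (p.1 - p.2)),
    sq_nonneg (psi G p.1 + (p.1 - p.2)), sq_nonneg (psi G p.1), sq_nonneg (p.1 - p.2)]

lemma integral_FF (hG : Std α G) (x : ℝ) : ∫ u, FF G (x, u) ∂G = fint G x := by
  have e1 : ∀ u, FF G (x, u) = -2 * psi G x * (-(x - u) * phi (x - u)) -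
      psi G x ^ 2 * phi (x - u) := by
    intro u
    simp only [FF]
    ring
  simp_rw [e1]
  rw [integral_sub, integral_const_mul, integral_const_mul, fint_eq hG]
  · have hf := (hG.mix_pos x).ne'
    have h2 : dmix G x = -psi G x * mix G x := by
      unfold psi
      field_simp
    have h3 : ∫ u, -(x - u) * phi (x - u) ∂G = dmix G x := rfl
    have h4 : ∫ u, phi (x - u) ∂G = mix G x := rfl
    rw [h3, h4, h2]
    ring
  · exact (integrable_neg_mul_phi_sub G x).const_mul _
  · exact (integrable_phi_sub G x).const_mul _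

lemma integrable_Lf (hG : Std α G) : Integrable (Lf G) G := by
  have := (integrable_FF hG).integral_prod_right
  exact this

theorem integral_Lf (hG : Std α G) : ∫ u, Lf G u ∂G = ∫ x, fint G x := by
  have h := integral_integral_swap (μ := volume) (ν := G) (f := fun x u => FF G (x, u))
    (integrable_FF hG)
  simp_rw [integral_FF hG] at h
  rw [h]
  rfl

end Fub

section Gauss

/-- `∫ φ(x-u) e^{-(b-1)u²/2} du` and the first moment version, `b > 1`. -/
lemma gauss_conv (b : ℝ) (hb : 1 < b) (x : ℝ) :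
    ∫ u, phi (x - u) * Real.exp (-((b - 1) / 2) * u ^ 2) =
      (Real.sqrt (2 * Real.pi))⁻¹ * Real.sqrt (Real.pi / (b / 2)) *
        Real.exp (-((1 - 1 / b) / 2) * x ^ 2) := by
  have hb0 : b ≠ 0 := by positivity
  have e1 : ∀ u, phi (x - u) * Real.exp (-((b - 1) / 2) * u ^ 2) =
      (Real.sqrt (2 * Real.pi))⁻¹ * Real.exp (-((1 - 1 / b) / 2) * x ^ 2) *
        Real.exp (-(b / 2) * (u - x / b) ^ 2) := by
    intro u
    unfold phi
    rw [mul_assoc, ← Real.exp_add, mul_assoc, ← Real.exp_add]
    congr 2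
    field_simp
    ring
  simp_rw [e1]
  rw [integral_const_mul, integral_sub_right_eq_self (fun u => Real.exp (-(b / 2) * u ^ 2)),
    integral_gaussian]
  ring

lemma gauss_conv_mul (b : ℝ) (hb : 1 < b) (x : ℝ) :
    ∫ u, (x - u) * (phi (x - u) * Real.exp (-((b - 1) / 2) * u ^ 2)) =
      (1 - 1 / b) * x * ((Real.sqrt (2 * Real.pi))⁻¹ * Real.sqrt (Real.pi / (b / 2)) *
        Real.exp (-((1 - 1 / b) / 2) * x ^ 2)) := by
  have hb0 : b ≠ 0 := by positivity
  have hb1 : 0 < b / 2 := by positivity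
  have e1 : ∀ u, (x - u) * (phi (x - u) * Real.exp (-((b - 1) / 2) * u ^ 2)) =
      (Real.sqrt (2 * Real.pi))⁻¹ * Real.exp (-((1 - 1 / b) / 2) * x ^ 2) *
        (((1 - 1 / b) * x - (u - x / b)) * Real.exp (-(b / 2) * (u - x / b) ^ 2)) := by
    intro u
    have : phi (x - u) * Real.exp (-((b - 1) / 2) * u ^ 2) =
      (Real.sqrt (2 * Real.pi))⁻¹ * Real.exp (-((1 - 1 / b) / 2) * x ^ 2) *
        Real.exp (-(b / 2) * (u - x / b) ^ 2) := by
      unfold phi
      rw [mul_assoc, ← Real.exp_add, mul_assoc, ← Real.exp_add]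
      congr 2
      field_simp
      ring
    rw [this]
    ring
  simp_rw [e1]
  rw [integral_const_mul, integral_sub_right_eq_self
    (fun u => ((1 - 1 / b) * x - u) * Real.exp (-(b / 2) * u ^ 2))]
  have hodd : ∫ u : ℝ, u * Real.exp (-(b / 2) * u ^ 2) = 0 := by
    have h := integral_neg_eq_self (fun u : ℝ => u * Real.exp (-(b / 2) * u ^ 2)) volume
    simp only [neg_mul, even_two, Even.neg_pow, integral_neg] at h
    simp only [neg_mul]
    linarith
  have hint : Integrable (fun u : ℝ => u * Real.exp (-(b / 2) * u ^ 2)) :=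
    integrable_mul_exp_neg_mul_sq hb1
  have : ∫ u : ℝ, ((1 - 1 / b) * x - u) * Real.exp (-(b / 2) * u ^ 2) =
      (1 - 1 / b) * x * Real.sqrt (Real.pi / (b / 2)) := by
    have e2 : ∀ u : ℝ, ((1 - 1 / b) * x - u) * Real.exp (-(b / 2) * u ^ 2) =
      (1 - 1 / b) * x * Real.exp (-(b / 2) * u ^ 2) - u * Real.exp (-(b / 2) * u ^ 2) := by
      intro u; ring
    simp_rw [e2]
    rw [integral_sub ((integrable_exp_neg_mul_sq hb1).const_mul _) hint, hodd,
      integral_const_mul, integral_gaussian]
    ring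
  rw [this]
  ring

end Gauss

section Neg

variable {α : ℝ} {G : Measure ℝ} [IsFiniteMeasure G]

lemma integrable_avg (hG : Std α G) (b : ℝ) (hb : 1 < b) :
    Integrable (fun p : ℝ × ℝ => FF G p * Real.exp (-((b - 1) / 2) * p.2 ^ 2))
      (volume.prod volume) := by
  set ε : ℝ := min (1 / 4) ((b - 1) / 6) with hε
  have hεpos : 0 < ε := by rw [hε]; exact lt_min (by norm_num) (by linarith)
  have hε1 : ε ≤ 1 / 4 := min_le_left _ _
  have hε2 : ε ≤ (b - 1) / 6 := min_le_right _ _
  have hpsim := hG.continuous_psi.measurable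
  set W : ℝ → ℝ := fun x => 2 * |psi G x| * |x| + 2 * |psi G x| + psi G x ^ 2 with hW
  have hWb : ExpBdd W := by
    have ha : ExpBdd (fun x => |psi G x|) := hG.psi_expBdd.of_le fun x => by rw [abs_abs]
    have hb : ExpBdd (fun x : ℝ => |x|) := ExpBdd.id.of_le fun x => by rw [abs_abs]
    exact ((((ExpBdd.const 2).mul ha).mul hb).add ((ExpBdd.const 2).mul ha)).add
      (hG.psi_expBdd.pow 2)
  have hWm : Measurable W := by rw [hW]; fun_prop
  have hi1 := hWb.integrable_mul_exp hWm hεpos 0
  have hVb : ExpBdd (fun u : ℝ => 1 + |u|) :=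
    (ExpBdd.const 1).add (ExpBdd.id.of_le fun x => by rw [abs_abs])
  have hi2 := hVb.integrable_mul_exp (by fun_prop) hεpos 0
  have hi := hi1.mul_prod hi2
  refine hi.mono' ?_ (ae_of_all _ fun p => ?_)
  · have := measurable_FF hG
    exact (by fun_prop : Measurable fun p : ℝ × ℝ =>
      FF G p * Real.exp (-((b - 1) / 2) * p.2 ^ 2)).aestronglyMeasurable
  · obtain ⟨x, u⟩ := p
    simp only [zero_mul, add_zero]
    rw [Real.norm_eq_abs]
    simp only [FF]
    rw [abs_mul, abs_mul, abs_of_nonneg (phi_nonneg _), Real.abs_exp]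
    have hpoly : |2 * psi G x * (x - u) - psi G x ^ 2| ≤ W x * (1 + |u|) := by
      have h1 : |2 * psi G x * (x - u) - psi G x ^ 2| ≤
          2 * |psi G x| * |x| + 2 * |psi G x| * |u| + psi G x ^ 2 := by
        have h2 : 2 * psi G x * (x - u) - psi G x ^ 2
            = 2 * psi G x * x + (-(2 * psi G x * u)) + (-(psi G x ^ 2)) := by ring
        rw [h2]
        refine (abs_add_three _ _ _).trans ?_
        rw [abs_neg, abs_neg, abs_mul, abs_mul, abs_mul, abs_mul, abs_two,
          abs_of_nonneg (sq_nonneg (psi G x))]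
      refine h1.trans ?_
      simp only [hW]
      have := abs_nonneg (psi G x)
      have := abs_nonneg x
      have := abs_nonneg u
      have := sq_nonneg (psi G x)
      have h5 : 0 ≤ |psi G x| * |x| * |u| := by positivity
      nlinarith [mul_nonneg (sq_nonneg (psi G x)) (abs_nonneg u)]
    have hexp : phi (x - u) * Real.exp (-((b - 1) / 2) * u ^ 2) ≤
        Real.exp (-ε * x ^ 2) * Real.exp (-ε * u ^ 2) := by
      refine (mul_le_mul_of_nonneg_right (phi_le_exp _) (Real.exp_pos _).le).trans ?_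
      rw [← Real.exp_add, ← Real.exp_add]
      apply Real.exp_le_exp.2
      have h1 : ε * (2 * (x - u) ^ 2) ≤ 1 / 4 * (2 * (x - u) ^ 2) := by gcongr
      have h2 : ε * (3 * u ^ 2) ≤ (b - 1) / 6 * (3 * u ^ 2) := by gcongr
      have h3 : x ^ 2 ≤ 2 * (x - u) ^ 2 + 2 * u ^ 2 := by nlinarith [sq_nonneg (x - 2 * u)]
      have h4 : ε * x ^ 2 ≤ ε * (2 * (x - u) ^ 2 + 2 * u ^ 2) := by gcongr
      nlinarith
    have hW0 : 0 ≤ W x := by simp only [hW]; positivity
    calc |2 * psi G x * (x - u) - psi G x ^ 2| * phi (x - u) * Real.exp (-((b - 1) / 2) * u ^ 2)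
        = |2 * psi G x * (x - u) - psi G x ^ 2| *
          (phi (x - u) * Real.exp (-((b - 1) / 2) * u ^ 2)) := by ring
      _ ≤ (W x * (1 + |u|)) * (Real.exp (-ε * x ^ 2) * Real.exp (-ε * u ^ 2)) := by
          apply mul_le_mul hpoly hexp
          · have := phi_nonneg (x - u); positivity
          · positivity
      _ = _ := by ring

/-- integral of `x² e^{-c x²/2}` by scaling -/
lemma integral_sq_exp (c : ℝ) (hc : 0 < c) :
    c * ∫ x : ℝ, x ^ 2 * Real.exp (-(c / 2) * x ^ 2) =
      (Real.sqrt c)⁻¹ * ∫ x : ℝ, x ^ 2 * Real.exp (-(1 / 2) * x ^ 2) := by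
  have h := Measure.integral_comp_mul_left
    (fun x : ℝ => x ^ 2 * Real.exp (-(1 / 2) * x ^ 2)) (Real.sqrt c)
  rw [abs_of_nonneg (inv_nonneg.2 (Real.sqrt_nonneg c)), smul_eq_mul] at h
  rw [← h, ← integral_const_mul]
  congr 1
  ext x
  rw [mul_pow, Real.sq_sqrt hc.le]
  ring_nf

/-- key estimate: if `L ≥ 0` everywhere then weighted `L²`-norms of the score are small. -/
lemma psi_small (hG : Std α G) (hL : ∀ u, 0 ≤ Lf G u) (b : ℝ) (hb : 1 < b) :
    ∫ x, psi G x ^ 2 * Real.exp (-((1 - 1 / b) / 2) * x ^ 2) ≤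
      4 * (1 - 1 / b) ^ 2 * ∫ x : ℝ, x ^ 2 * Real.exp (-((1 - 1 / b) / 2) * x ^ 2) := by
  set c := 1 - 1 / b with hc
  have hc0 : 0 < c := by
    rw [hc, sub_pos, div_lt_one (by linarith)]
    exact hb
  set K := (Real.sqrt (2 * Real.pi))⁻¹ * Real.sqrt (Real.pi / (b / 2)) with hK
  have hKpos : 0 < K := by
    have : 0 < b := by linarith
    positivity
  have hpsim := hG.continuous_psi.measurable
  have hswap := integral_integral_swap (μ := volume) (ν := volume)
    (f := fun x u => FF G (x, u) * Real.exp (-((b - 1) / 2) * u ^ 2)) (integrable_avg hG b hb)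
  have hleft : ∀ x, ∫ u, FF G (x, u) * Real.exp (-((b - 1) / 2) * u ^ 2) =
      (2 * c * (x * psi G x) - psi G x ^ 2) * (K * Real.exp (-(c / 2) * x ^ 2)) := by
    intro x
    have e1 : ∀ u, FF G (x, u) * Real.exp (-((b - 1) / 2) * u ^ 2) =
        2 * psi G x * ((x - u) * (phi (x - u) * Real.exp (-((b - 1) / 2) * u ^ 2))) -
        psi G x ^ 2 * (phi (x - u) * Real.exp (-((b - 1) / 2) * u ^ 2)) := by
      intro u
      simp only [FF]
      ring
    simp_rw [e1]
    have i2 : Integrable (fun u => phi (x - u) * Real.exp (-((b - 1) / 2) * u ^ 2)) := by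
      have := (integrable_exp_neg_mul_sq (b := (b - 1) / 2) (by linarith))
      refine this.mono' (by fun_prop) (ae_of_all _ fun u => ?_)
      rw [Real.norm_eq_abs, abs_mul, abs_of_nonneg (phi_nonneg _), Real.abs_exp]
      have := phi_le_one (x - u)
      have := Real.exp_pos (-((b - 1) / 2) * u ^ 2)
      nlinarith
    have i1 : Integrable (fun u => (x - u) *
        (phi (x - u) * Real.exp (-((b - 1) / 2) * u ^ 2))) := by
      have := (integrable_exp_neg_mul_sq (b := (b - 1) / 2) (by linarith))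
      refine this.mono' (by fun_prop) (ae_of_all _ fun u => ?_)
      rw [Real.norm_eq_abs, abs_mul, abs_mul, abs_of_nonneg (phi_nonneg _), Real.abs_exp]
      have := abs_mul_phi_le (x - u)
      have := Real.exp_pos (-((b - 1) / 2) * u ^ 2)
      nlinarith
    rw [integral_sub (i1.const_mul _) (i2.const_mul _), integral_const_mul, integral_const_mul,
      gauss_conv b hb x, gauss_conv_mul b hb x]
    ring
  have hright : ∀ u, ∫ x, FF G (x, u) * Real.exp (-((b - 1) / 2) * u ^ 2) =
      Lf G u * Real.exp (-((b - 1) / 2) * u ^ 2) := by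
    intro u
    rw [integral_mul_const]
    rfl
  simp_rw [hleft, hright] at hswap
  have hnn : 0 ≤ ∫ x, (2 * c * (x * psi G x) - psi G x ^ 2) *
      (K * Real.exp (-(c / 2) * x ^ 2)) := by
    rw [hswap]
    exact integral_nonneg fun u => mul_nonneg (hL u) (Real.exp_pos _).le
  have hsqi : Integrable (fun x => psi G x ^ 2 * Real.exp (-(c / 2) * x ^ 2)) := by
    simpa using (hG.psi_expBdd.pow 2).integrable_mul_exp (by fun_prop) (half_pos hc0) 0
  have hxpi : Integrable (fun x => x * psi G x * Real.exp (-(c / 2) * x ^ 2)) := by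
    simpa using (ExpBdd.id.mul hG.psi_expBdd).integrable_mul_exp (by fun_prop) (half_pos hc0) 0
  have hx2i : Integrable (fun x : ℝ => x ^ 2 * Real.exp (-(c / 2) * x ^ 2)) := by
    simpa using (ExpBdd.id.pow 2).integrable_mul_exp (by fun_prop) (half_pos hc0) 0
  have hcomp : ∫ x, (2 * c * (x * psi G x) - psi G x ^ 2) * (K * Real.exp (-(c / 2) * x ^ 2)) =
      K * (2 * c * ∫ x, x * psi G x * Real.exp (-(c / 2) * x ^ 2)) -
      K * ∫ x, psi G x ^ 2 * Real.exp (-(c / 2) * x ^ 2) := by
    rw [← integral_const_mul, ← integral_const_mul, ← integral_const_mul, ← integral_sub]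
    · congr 1
      ext x
      ring
    · exact (hxpi.const_mul _).const_mul _
    · exact hsqi.const_mul _
  rw [hcomp, ← mul_sub] at hnn
  have hnn2 : ∫ x, psi G x ^ 2 * Real.exp (-(c / 2) * x ^ 2) ≤
      2 * c * ∫ x, x * psi G x * Real.exp (-(c / 2) * x ^ 2) := by
    have := nonneg_of_mul_nonneg_right hnn hKpos
    linarith
  have hyoung : 2 * c * ∫ x, x * psi G x * Real.exp (-(c / 2) * x ^ 2) ≤
      1 / 2 * (∫ x, psi G x ^ 2 * Real.exp (-(c / 2) * x ^ 2)) +
      2 * c ^ 2 * ∫ x : ℝ, x ^ 2 * Real.exp (-(c / 2) * x ^ 2) := by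
    rw [← integral_const_mul, ← integral_const_mul, ← integral_const_mul,
      ← integral_add (hsqi.const_mul _) (hx2i.const_mul _)]
    refine integral_mono (hxpi.const_mul _) ((hsqi.const_mul _).add (hx2i.const_mul _)) fun x => ?_
    have := Real.exp_pos (-(c / 2) * x ^ 2)
    have h2 : 2 * c * (x * psi G x) ≤ 1 / 2 * psi G x ^ 2 + 2 * c ^ 2 * x ^ 2 := by
      nlinarith [sq_nonneg (psi G x - 2 * c * x)]
    calc 2 * c * (x * psi G x * Real.exp (-(c / 2) * x ^ 2))
        = (2 * c * (x * psi G x)) * Real.exp (-(c / 2) * x ^ 2) := by ring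
      _ ≤ (1 / 2 * psi G x ^ 2 + 2 * c ^ 2 * x ^ 2) * Real.exp (-(c / 2) * x ^ 2) := by gcongr
      _ = _ := by ring
  linarith

/-- `L` takes a negative value: otherwise the score would vanish. -/
theorem exists_Lf_neg (hG : Std α G) : ∃ u, Lf G u < 0 := by
  by_contra hcon
  push Not at hcon
  set A := ∫ x : ℝ, x ^ 2 * Real.exp (-(1 / 2) * x ^ 2) with hA
  have hA0 : 0 ≤ A := integral_nonneg fun x => by positivity
  have hpsim := hG.continuous_psi.measurable
  -- bound
  have hsm : ∀ c : ℝ, 0 < c → c < 1 →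
      ∫ x, psi G x ^ 2 * Real.exp (-(1 / 2) * x ^ 2) ≤ 4 * Real.sqrt c * A := by
    intro c hc hc1
    have hb : 1 < 1 / (1 - c) := by
      rw [lt_div_iff₀ (by linarith)]
      linarith
    have h1 := psi_small hG hcon (1 / (1 - c)) hb
    have h2 : 1 - 1 / (1 / (1 - c)) = c := by
      field_simp
      ring
    rw [h2] at h1
    have h3 := integral_sq_exp c hc
    have h4 : 4 * c ^ 2 * ∫ x : ℝ, x ^ 2 * Real.exp (-(c / 2) * x ^ 2) = 4 * Real.sqrt c * A := by
      have hs : Real.sqrt c ≠ 0 := (Real.sqrt_pos.2 hc).ne'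
      calc 4 * c ^ 2 * ∫ x : ℝ, x ^ 2 * Real.exp (-(c / 2) * x ^ 2)
          = 4 * c * (c * ∫ x : ℝ, x ^ 2 * Real.exp (-(c / 2) * x ^ 2)) := by ring
        _ = 4 * c * ((Real.sqrt c)⁻¹ * A) := by rw [h3]
        _ = 4 * (Real.sqrt c * Real.sqrt c) * ((Real.sqrt c)⁻¹ * A) := by
            rw [Real.mul_self_sqrt hc.le]
        _ = _ := by field_simp
    rw [h4] at h1
    refine le_trans ?_ h1
    have i1 : Integrable (fun x => psi G x ^ 2 * Real.exp (-(1 / 2) * x ^ 2)) := by
      simpa using (hG.psi_expBdd.pow 2).integrable_mul_exp (by fun_prop)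
        (by norm_num : (0 : ℝ) < 1 / 2) 0
    have i2 : Integrable (fun x => psi G x ^ 2 * Real.exp (-(c / 2) * x ^ 2)) := by
      simpa using (hG.psi_expBdd.pow 2).integrable_mul_exp (by fun_prop) (half_pos hc) 0
    refine integral_mono i1 i2 fun x => ?_
    have : Real.exp (-(1 / 2) * x ^ 2) ≤ Real.exp (-(c / 2) * x ^ 2) := by
      apply Real.exp_le_exp.2
      nlinarith [sq_nonneg x]
    exact mul_le_mul_of_nonneg_left this (sq_nonneg _)
  have hzero : ∫ x, psi G x ^ 2 * Real.exp (-(1 / 2) * x ^ 2) ≤ 0 := by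
    refine le_of_forall_pos_le_add fun ε hε => ?_
    rw [zero_add]
    set δ := min (1 / 2) (ε / (4 * A + 1)) with hδ
    have hδ0 : 0 < δ := by rw [hδ]; positivity
    have hδ1 : δ ≤ 1 / 2 := min_le_left _ _
    have h5 := hsm (δ ^ 2) (by positivity) (by nlinarith)
    rw [Real.sqrt_sq hδ0.le] at h5
    refine h5.trans ?_
    calc 4 * δ * A = δ * (4 * A) := by ring
      _ ≤ (ε / (4 * A + 1)) * (4 * A) := by
          gcongr
          exact min_le_right _ _
      _ ≤ ε := by
          rw [div_mul_eq_mul_div, div_le_iff₀ (by positivity)]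
          nlinarith
  have hcont : Continuous (fun x => psi G x ^ 2 * Real.exp (-(1 / 2) * x ^ 2)) := by
    have := hG.continuous_psi
    fun_prop
  have i1 : Integrable (fun x => psi G x ^ 2 * Real.exp (-(1 / 2) * x ^ 2)) := by
    simpa using (hG.psi_expBdd.pow 2).integrable_mul_exp (by fun_prop)
      (by norm_num : (0 : ℝ) < 1 / 2) 0
  have hz : ∫ x, psi G x ^ 2 * Real.exp (-(1 / 2) * x ^ 2) = 0 :=
    le_antisymm hzero (integral_nonneg fun x => by positivity)
  rw [integral_eq_zero_iff_of_nonneg (fun x => by positivity) i1] at hz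
  have hz2 : (fun x => psi G x ^ 2 * Real.exp (-(1 / 2) * x ^ 2)) = fun _ => 0 :=
    (hcont.ae_eq_iff_eq volume continuous_const).1 hz
  have hpsi0 : ∀ x, psi G x = 0 := by
    intro x
    have := congrFun hz2 x
    have h6 := Real.exp_pos (-(1 / 2) * x ^ 2)
    have h7 : psi G x ^ 2 = 0 := by
      rcases mul_eq_zero.1 this with h | h
      · exact h
      · exact absurd h h6.ne'
    exact pow_eq_zero_iff (two_ne_zero) |>.1 h7
  have hd0 : ∀ x, dmix G x = 0 := by
    intro x
    have h8 := hpsi0 x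
    unfold psi at h8
    rcases div_eq_zero_iff.1 h8 with h | h
    · linarith
    · exact absurd h (hG.mix_pos x).ne'
  have hconst : ∀ x, mix G x = mix G 0 := by
    intro x
    apply is_const_of_deriv_eq_zero (fun y => (hasDerivAt_mix G y).differentiableAt)
    intro y
    rw [deriv_mix, hd0]
  have hlim : Tendsto (mix G) atTop (𝓝 (∫ _, (0 : ℝ) ∂G)) := by
    unfold mix
    refine tendsto_integral_filter_of_dominated_convergence (fun _ => 1) ?_ ?_
      (integrable_const _) ?_
    · exact Eventually.of_forall fun x =>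
        (by fun_prop : Measurable fun u => phi (x - u)).aestronglyMeasurable
    · refine Eventually.of_forall fun x => ae_of_all _ fun u => ?_
      rw [Real.norm_eq_abs, abs_of_nonneg (phi_nonneg _)]
      exact phi_le_one _
    · refine ae_of_all _ fun u => ?_
      exact tendsto_phi_atTop.comp (tendsto_atTop_add_const_right atTop (-u) tendsto_id)
  rw [integral_zero] at hlim
  have hlim2 : Tendsto (mix G) atTop (𝓝 (mix G 0)) := by
    have : mix G = fun _ => mix G 0 := by
      ext x
      exact hconst x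
    rw [this]
    exact tendsto_const_nhds
  have := tendsto_nhds_unique hlim hlim2
  exact absurd this (hG.mix_pos 0).ne

end Neg

end Pool.Agent.FisherMin
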