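import Pool.Agent.FisherMin.Bounds

/-!
Measures with Gaussian-type integrability, and asymptotics of mixtures at infinity.
-/

open MeasureTheory Filter Topology

namespace Pool.Agent.FisherMin

/-- first-moment mixture -/
noncomputable def nmix (G : Measure ℝ) (x : ℝ) : ℝ := ∫ u, u * phi (x - u) ∂G

/-- Gaussian-type integrability -/
def Nice (μ : Measure ℝ) : Prop := ∀ b : ℝ, Integrable (fun u => Real.exp (b * |u|) * phi u) μ

lemma exp_mul_phi_le (b u : ℝ) : Real.exp (b * |u|) * phi u ≤ Real.exp (b ^ 2 / 2) := by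
  calc Real.exp (b * |u|) * phi u ≤ Real.exp (b * |u|) * Real.exp (-u ^ 2 / 2) := by
        gcongr
        exact phi_le_exp u
    _ = Real.exp (b * |u| + -u ^ 2 / 2) := by rw [← Real.exp_add]
    _ ≤ Real.exp (b ^ 2 / 2) := by
        apply Real.exp_le_exp.2
        nlinarith [sq_nonneg (b - |u|), sq_abs u]

lemma Nice.of_finite (μ : Measure ℝ) [IsFiniteMeasure μ] : Nice μ := by
  intro b
  refine Integrable.mono' (integrable_const (Real.exp (b ^ 2 / 2))) (by fun_prop) ?_
  filter_upwards with u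
  rw [Real.norm_eq_abs, abs_of_nonneg (mul_nonneg (Real.exp_pos _).le (phi_nonneg _))]
  exact exp_mul_phi_le b u

lemma Nice.add {μ ν : Measure ℝ} (h1 : Nice μ) (h2 : Nice ν) : Nice (μ + ν) := fun b =>
  (h1 b).add_measure (h2 b)

lemma Nice.mono {μ ν : Measure ℝ} (h1 : Nice ν) (h : μ ≤ ν) : Nice μ := fun b =>
  (h1 b).mono_measure h

lemma phi_sub_eq' (x u : ℝ) : phi (x - u) = phi u * Real.exp (x * u - x ^ 2 / 2) := by
  unfold phi
  rw [mul_assoc, ← Real.exp_add]
  congr 2
  ring

lemma phi_sub_le' (x u : ℝ) : phi (x - u) ≤ Real.exp (|x| * |u|) * phi u := by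
  rw [phi_sub_eq', mul_comm]
  have : x * u ≤ |x| * |u| := by rw [← abs_mul]; exact le_abs_self _
  refine mul_le_mul_of_nonneg_right (Real.exp_le_exp.2 ?_) (phi_nonneg u)
  nlinarith [sq_nonneg x]

lemma Nice.integrable_of_le {μ : Measure ℝ} (h : Nice μ) {F : ℝ → ℝ} (hF : Measurable F)
    {C b : ℝ} (hb : ∀ u, |F u| ≤ C * (Real.exp (b * |u|) * phi u)) : Integrable F μ := by
  refine ((h b).const_mul C).mono' hF.aestronglyMeasurable (ae_of_all _ fun u => ?_)
  rw [Real.norm_eq_abs]
  exact hb u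

lemma abs_le_exp (u : ℝ) : |u| ≤ Real.exp |u| := by
  have := Real.add_one_le_exp |u|
  linarith

lemma Nice.integrable_phi_sub {μ : Measure ℝ} (h : Nice μ) (x : ℝ) :
    Integrable (fun u => phi (x - u)) μ := by
  refine h.integrable_of_le (C := 1) (b := |x|) (by fun_prop) fun u => ?_
  rw [abs_of_nonneg (phi_nonneg _), one_mul]
  exact phi_sub_le' x u

lemma Nice.integrable_mul_phi_sub {μ : Measure ℝ} (h : Nice μ) (x : ℝ) :
    Integrable (fun u => u * phi (x - u)) μ := by
  refine h.integrable_of_le (C := 1) (b := |x| + 1) (by fun_prop) fun u => ?_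
  rw [abs_mul, abs_of_nonneg (phi_nonneg _), one_mul, add_mul, one_mul, Real.exp_add]
  calc |u| * phi (x - u) ≤ Real.exp |u| * (Real.exp (|x| * |u|) * phi u) :=
        mul_le_mul (abs_le_exp u) (phi_sub_le' x u) (phi_nonneg _) (Real.exp_pos _).le
    _ = _ := by ring

lemma mix_add {μ ν : Measure ℝ} (h1 : Nice μ) (h2 : Nice ν) (x : ℝ) :
    mix (μ + ν) x = mix μ x + mix ν x :=
  integral_add_measure (h1.integrable_phi_sub x) (h2.integrable_phi_sub x)

lemma nmix_add {μ ν : Measure ℝ} (h1 : Nice μ) (h2 : Nice ν) (x : ℝ) :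
    nmix (μ + ν) x = nmix μ x + nmix ν x :=
  integral_add_measure (h1.integrable_mul_phi_sub x) (h2.integrable_mul_phi_sub x)

lemma phi_div_phi (x u b : ℝ) :
    phi (x - u) / phi (x - b) = Real.exp (x * (u - b) + (b ^ 2 - u ^ 2) / 2) := by
  unfold phi
  have hc : (Real.sqrt (2 * Real.pi))⁻¹ ≠ 0 := phi_const_pos.ne'
  rw [mul_div_mul_left _ _ hc, ← Real.exp_sub]
  congr 1
  ring

lemma phi_div_phi_le {x u b : ℝ} (hx : 0 ≤ x) (hu : u ≤ b) :
    phi (x - u) / phi (x - b) ≤ Real.exp (b ^ 2 / 2) * (Real.sqrt (2 * Real.pi)) * phi u := by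
  rw [phi_div_phi]
  unfold phi
  have hc : Real.sqrt (2 * Real.pi) ≠ 0 := by positivity
  have : Real.exp (b ^ 2 / 2) * (Real.sqrt (2 * Real.pi)) *
      ((Real.sqrt (2 * Real.pi))⁻¹ * Real.exp (-u ^ 2 / 2)) =
      Real.exp (b ^ 2 / 2) * Real.exp (-u ^ 2 / 2) := by
    field_simp
  rw [this, ← Real.exp_add]
  apply Real.exp_le_exp.2
  nlinarith [mul_nonneg hx (sub_nonneg.2 hu)]

/-- ratio kernel limit -/
lemma tendsto_ratio {u b : ℝ} (hu : u ≤ b) :
    Tendsto (fun x => phi (x - u) / phi (x - b)) atTop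
      (𝓝 (Set.indicator {b} (fun _ => (1 : ℝ)) u)) := by
  rcases hu.lt_or_eq with h | h
  · have hne : u ∉ ({b} : Set ℝ) := by
      rw [Set.mem_singleton_iff]; exact h.ne
    rw [Set.indicator_of_notMem hne]
    have : Tendsto (fun x : ℝ => x * (u - b) + (b ^ 2 - u ^ 2) / 2) atTop atBot :=
      tendsto_atBot_add_const_right _ _ (tendsto_id.atTop_mul_const_of_neg (sub_neg.2 h))
    refine (Real.tendsto_exp_atBot.comp this).congr fun x => ?_
    rw [phi_div_phi]
    rfl
  · subst h
    simp only [Set.mem_singleton_iff, Set.indicator_of_mem]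
    refine tendsto_const_nhds.congr fun x => ?_
    rw [div_self (phi_pos _).ne']

lemma tendsto_mix_div {μ : Measure ℝ} (h : Nice μ) {b : ℝ} (hb : μ (Set.Ioi b) = 0) :
    Tendsto (fun x => mix μ x / phi (x - b)) atTop (𝓝 (μ.real {b})) := by
  have hae : ∀ᵐ v ∂μ, v ≤ b := by
    rw [ae_iff]
    have : {a : ℝ | ¬a ≤ b} = Set.Ioi b := by ext a; simp
    rw [this]
    exact hb
  have hlim : ∫ u, Set.indicator {b} (fun _ => (1 : ℝ)) u ∂μ = μ.real {b} := by
    rw [integral_indicator (measurableSet_singleton b)]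
    simp [Measure.real]
  rw [← hlim]
  have heq : (fun x => mix μ x / phi (x - b)) = fun x => ∫ u, phi (x - u) / phi (x - b) ∂μ := by
    ext x
    unfold mix
    rw [integral_div]
  rw [heq]
  refine tendsto_integral_filter_of_dominated_convergence
    (fun u => Real.exp (b ^ 2 / 2) * (Real.sqrt (2 * Real.pi)) * phi u) ?_ ?_ ?_ ?_
  · exact Eventually.of_forall fun x =>
      (by fun_prop : Measurable fun u => phi (x - u) / phi (x - b)).aestronglyMeasurable
  · filter_upwards [eventually_ge_atTop 0] with x hx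
    filter_upwards [hae] with u hu
    rw [Real.norm_eq_abs, abs_of_nonneg (div_nonneg (phi_nonneg _) (phi_nonneg _))]
    exact phi_div_phi_le hx hu
  · have := (h 0).const_mul (Real.exp (b ^ 2 / 2) * (Real.sqrt (2 * Real.pi)))
    simpa using this
  · filter_upwards [hae] with u hu
    exact tendsto_ratio hu

lemma tendsto_nmix_div {μ : Measure ℝ} (h : Nice μ) {b : ℝ} (hb : μ (Set.Ioi b) = 0) :
    Tendsto (fun x => nmix μ x / phi (x - b)) atTop (𝓝 (b * μ.real {b})) := by
  have hae : ∀ᵐ v ∂μ, v ≤ b := by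
    rw [ae_iff]
    have : {a : ℝ | ¬a ≤ b} = Set.Ioi b := by ext a; simp
    rw [this]
    exact hb
  have hlim : ∫ u, u * Set.indicator {b} (fun _ => (1 : ℝ)) u ∂μ = b * μ.real {b} := by
    have : ∀ u, u * Set.indicator {b} (fun _ => (1 : ℝ)) u =
        b * Set.indicator {b} (fun _ => (1 : ℝ)) u := by
      intro u
      by_cases hu : u ∈ ({b} : Set ℝ)
      · rw [Set.mem_singleton_iff] at hu
        rw [hu]
      · rw [Set.indicator_of_notMem hu]
        ring
    simp_rw [this]
    rw [integral_const_mul, integral_indicator (measurableSet_singleton b)]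
    simp [Measure.real]
  rw [← hlim]
  have heq : (fun x => nmix μ x / phi (x - b)) =
      fun x => ∫ u, u * (phi (x - u) / phi (x - b)) ∂μ := by
    ext x
    unfold nmix
    rw [← integral_div]
    congr 1
    ext u
    ring
  rw [heq]
  refine tendsto_integral_filter_of_dominated_convergence
    (fun u => |u| * (Real.exp (b ^ 2 / 2) * (Real.sqrt (2 * Real.pi)) * phi u)) ?_ ?_ ?_ ?_
  · exact Eventually.of_forall fun x =>
      (by fun_prop : Measurable fun u => u * (phi (x - u) / phi (x - b))).aestronglyMeasurable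
  · filter_upwards [eventually_ge_atTop 0] with x hx
    filter_upwards [hae] with u hu
    rw [Real.norm_eq_abs, abs_mul, abs_of_nonneg (div_nonneg (phi_nonneg _) (phi_nonneg _))]
    gcongr
    exact phi_div_phi_le hx hu
  · refine h.integrable_of_le (C := Real.exp (b ^ 2 / 2) * (Real.sqrt (2 * Real.pi))) (b := 1)
      (by fun_prop) fun u => ?_
    rw [abs_mul, abs_abs, abs_of_nonneg (mul_nonneg (by positivity) (phi_nonneg _)), one_mul]
    have h1 := abs_le_exp u
    have h2 := phi_nonneg u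
    calc |u| * (Real.exp (b ^ 2 / 2) * Real.sqrt (2 * Real.pi) * phi u)
        ≤ Real.exp |u| * (Real.exp (b ^ 2 / 2) * Real.sqrt (2 * Real.pi) * phi u) := by gcongr
      _ = _ := by ring
  · filter_upwards [hae] with u hu
    exact (tendsto_ratio hu).const_mul u

end Pool.Agent.FisherMin
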