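import Pool.Agent.FisherMin.KKT

/-!
The minimizer belongs to the class with atom exactly `α`, and satisfies the equaliser condition.
-/

open MeasureTheory Filter Topology

namespace Pool.Agent.FisherMin

/-- first-order package -/
structure Equal (α : ℝ) (G : Measure ℝ) (lam : ℝ) : Prop where
  neg : lam < 0
  le : ∀ u, lam ≤ Lf G u
  zero : lam < Lf G 0
  ae : G {u | u ≠ 0 ∧ Lf G u ≠ lam} = 0
  even : ∀ u, Lf G (-u) = Lf G u

lemma classG_eq_gof {α : ℝ} (h0 : 0 < α) (h1 : α < 1) {G : Measure ℝ} (hG : G ∈ classG α) :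
    ∃ ν : Measure ℝ, IsFiniteMeasure ν ∧ ν.real Set.univ ≤ 1 ∧ gof α ν = G := by
  obtain ⟨hp, hs, ha⟩ := hG
  have h1' : 0 < 1 - α := by linarith
  set c : ENNReal := ENNReal.ofReal (1 / (1 - α)) with hc
  refine ⟨c • G.restrict {0}ᶜ, Measure.smul_finite _ ENNReal.ofReal_ne_top, ?_, ?_⟩
  · rw [Measure.real, Measure.smul_apply, Measure.restrict_apply_univ,
      prob_compl_eq_one_sub (measurableSet_singleton 0), ha, smul_eq_mul, ENNReal.toReal_mul,
      ENNReal.toReal_ofReal (by positivity), ← ENNReal.ofReal_one, ← ENNReal.ofReal_sub _ h0.le,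
      ENNReal.toReal_ofReal h1'.le]
    field_simp
    exact le_rfl
  · unfold gof
    have hsym : (c • G.restrict {0}ᶜ).map (fun u => -u) = c • G.restrict {0}ᶜ := by
      rw [Measure.map_smul]
      congr 1
      have hpre : (fun u : ℝ => -u) ⁻¹' {0}ᶜ = {0}ᶜ := by
        ext u
        simp
      conv_rhs => rw [← hs]
      rw [Measure.restrict_map measurable_neg (measurableSet_singleton 0).compl, hpre]
    rw [hsym, ← two_smul ENNReal (c • G.restrict {0}ᶜ), smul_smul, smul_smul]
    have hcc : ENNReal.ofReal ((1 - α) / 2) * 2 * c = 1 := by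
      rw [hc, show (2 : ENNReal) = ENNReal.ofReal 2 by simp, ← ENNReal.ofReal_mul (by positivity),
        ← ENNReal.ofReal_mul (by positivity), ← ENNReal.ofReal_one]
      congr 1
      field_simp
    rw [hcc, one_smul, ← ha, ← Measure.restrict_singleton]
    exact Measure.restrict_add_restrict_compl (measurableSet_singleton 0)

lemma gof_prob {α : ℝ} (h0 : 0 < α) (h1 : α < 1) (ν : Measure ℝ) [IsFiniteMeasure ν]
    (hν : ν.real Set.univ = 1) : IsProbabilityMeasure (gof α ν) := by
  have h := integral_gof h0 h1 ν (F := fun _ => 1) (by fun_prop) (integrable_const _)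
      (integrable_const _)
  simp only [integral_const, smul_eq_mul, mul_one] at h
  rw [hν] at h
  constructor
  have h2 : (gof α ν).real Set.univ = 1 := by
    rw [h]; ring
  rw [← ENNReal.ofReal_toReal (measure_ne_top (gof α ν) Set.univ)]
  change ENNReal.ofReal ((gof α ν).real Set.univ) = 1
  rw [h2, ENNReal.ofReal_one]

lemma gof_symm (α : ℝ) (ν : Measure ℝ) : (gof α ν).map (fun u => -u) = gof α ν := by
  unfold gof
  have hm : Measurable (fun u : ℝ => -u) := measurable_neg
  rw [Measure.map_add _ _ hm, Measure.map_smul, Measure.map_smul, Measure.map_dirac' hm,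
    Measure.map_add _ _ hm, Measure.map_map hm hm]
  have : ((fun u : ℝ => -u) ∘ fun u => -u) = id := by
    ext u
    simp
  rw [this, Measure.map_id, neg_zero, add_comm (ν.map fun u => -u) ν]

lemma gof_null {α : ℝ} {ν : Measure ℝ} {s : Set ℝ} (hs : MeasurableSet s) (h0 : (0 : ℝ) ∉ s)
    (h1 : ν s = 0) (h2 : ν ((fun u => -u) ⁻¹' s) = 0) : gof α ν s = 0 := by
  unfold gof
  rw [Measure.add_apply, Measure.smul_apply, Measure.smul_apply, Measure.add_apply,
    Measure.dirac_apply' _ hs, Measure.map_apply measurable_neg hs, h1]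
  have h3 : ν (Neg.neg ⁻¹' s) = 0 := h2
  rw [h3, Set.indicator_of_notMem h0]
  simp

theorem exists_equal {α : ℝ} (h0 : 0 < α) (h1 : α < 1) :
    ∃ G ∈ classG α, (∀ G' ∈ classG α, fisher (mix G) ≤ fisher (mix G')) ∧
      ∃ lam, Equal α G lam := by
  obtain ⟨ν, hfin, hmass, hmin⟩ := exists_min_subprob h0 h1
  have h1' : 0 < 1 - α := by linarith
  have hG := std_gof h0 h1 ν hmass
  set G := gof α ν with hGdef
  set J := ∫ x, fint G x with hJ
  have hJ0 : 0 ≤ J := integral_nonneg fun x => fint_nonneg x
  set lam := (J - α * Lf G 0) / (1 - α) with hlam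
  have hlam' : J = α * Lf G 0 + (1 - α) * lam := by
    rw [hlam]; field_simp; ring
  have hk2 : ∀ u, lam ≤ Lf G u := by
    intro u
    have := var_ineq h0 h1 ν hmass hmin u zero_le_one le_rfl
    rw [integral_lin h0 h1 ν hmass, mul_one, ← hGdef, ← hJ] at this
    have h3 : (1 - α) * lam ≤ (1 - α) * Lf G u := by linarith
    exact le_of_mul_le_mul_left h3 h1'
  obtain ⟨u₀, hu₀⟩ := exists_Lf_neg hG
  have hneg : lam < 0 := lt_of_le_of_lt (hk2 u₀) hu₀
  have hzero : lam < Lf G 0 := by
    have : 0 < α * Lf G 0 := by nlinarith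
    have : 0 < Lf G 0 := pos_of_mul_pos_right this h0.le
    linarith
  have heven : ∀ u, Lf G (-u) = Lf G u := Lf_gof_even h0 h1 ν
  have hLi : Integrable (Lf G) G := integrable_Lf hG
  have hLm : Measurable (Lf G) := by
    have : StronglyMeasurable (fun p : ℝ × ℝ => FF G (p.2, p.1)) :=
      ((measurable_FF hG).comp measurable_swap).stronglyMeasurable
    exact this.integral_prod_right.measurable
  have hLν : Integrable (Lf G) ν := by
    have h3 : Integrable (Lf G) (ENNReal.ofReal ((1 - α) / 2) • (ν + ν.map (fun u => -u))) :=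
      hLi.mono_measure (Measure.le_add_left le_rfl)
    have h4 : Integrable (Lf G) (ν + ν.map (fun u => -u)) := by
      rwa [integrable_smul_measure (by simpa using h1') ENNReal.ofReal_ne_top] at h3
    exact h4.mono_measure (Measure.le_add_right le_rfl)
  have hint : ∫ u, Lf G u ∂ν = lam := by
    have h3 := integral_Lf hG
    rw [hGdef, integral_gof h0 h1 ν hLm hLν (hLν.congr (ae_of_all _ fun u => (heven u).symm)),
      ← hGdef, ← hJ] at h3
    have h4 : ∀ u, (Lf G u + Lf G (-u)) / 2 = Lf G u := fun u => by rw [heven]; ring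
    simp_rw [h4] at h3
    have h5 : (1 - α) * ∫ u, Lf G u ∂ν = (1 - α) * lam := by linarith
    exact mul_left_cancel₀ h1'.ne' h5
  have hdiff : ∫ u, (Lf G u - lam) ∂ν = lam * (1 - ν.real Set.univ) := by
    rw [integral_sub hLν (integrable_const _), hint, integral_const, smul_eq_mul]
    ring
  have hdiff0 : 0 ≤ ∫ u, (Lf G u - lam) ∂ν := integral_nonneg fun u => sub_nonneg.2 (hk2 u)
  have hM : ν.real Set.univ = 1 := by
    refine le_antisymm hmass ?_
    by_contra hcon
    push Not at hcon
    have : lam * (1 - ν.real Set.univ) < 0 := mul_neg_of_neg_of_pos hneg (by linarith)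
    linarith
  have hae : ν {u | Lf G u ≠ lam} = 0 := by
    have h3 : ∫ u, (Lf G u - lam) ∂ν = 0 := by rw [hdiff, hM]; ring
    rw [integral_eq_zero_iff_of_nonneg (fun u => sub_nonneg.2 (hk2 u))
      (hLν.sub (integrable_const _))] at h3
    have h4 : ∀ᵐ u ∂ν, Lf G u = lam := by
      filter_upwards [h3] with u hu
      simp only [Pi.zero_apply] at hu
      linarith
    exact h4
  have hms : MeasurableSet {u | u ≠ 0 ∧ Lf G u ≠ lam} := by
    apply MeasurableSet.inter
    · exact (measurableSet_singleton (0 : ℝ)).compl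
    · exact (hLm (measurableSet_singleton lam)).compl
  have haeG : G {u | u ≠ 0 ∧ Lf G u ≠ lam} = 0 := by
    refine gof_null hms (by simp) (measure_mono_null (fun u hu => hu.2) hae) ?_
    refine measure_mono_null (fun u hu => ?_) hae
    have := hu.2
    rwa [heven] at this
  have hprob : IsProbabilityMeasure G := gof_prob h0 h1 ν hM
  have hatom : G {0} = ENNReal.ofReal α := by
    rw [hGdef]
    unfold gof
    rw [Measure.add_apply, Measure.smul_apply, Measure.smul_apply, Measure.add_apply,
      Measure.map_apply measurable_neg (measurableSet_singleton 0)]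
    have e1 : ν {0} = 0 :=
      measure_mono_null (fun u hu => by
        rw [Set.mem_singleton_iff] at hu
        rw [hu]
        exact hzero.ne') hae
    have e2 : (fun u : ℝ => -u) ⁻¹' {0} = {0} := by ext u; simp
    rw [e2, e1]
    simp
  refine ⟨G, ⟨hprob, gof_symm α ν, hatom⟩, ?_, lam, ⟨hneg, hk2, hzero, haeG, heven⟩⟩
  intro G' hG'
  obtain ⟨ν', hf', hm', he'⟩ := classG_eq_gof h0 h1 hG'
  rw [← he']
  exact hmin ν' hf' hm'

lemma std_of_classG {α : ℝ} (h0 : 0 < α) {G : Measure ℝ} (hG : G ∈ classG α) : Std α G where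
  pos := h0
  mass := by
    have := hG.1
    simp
  atom := by
    rw [Measure.real, hG.2.2, ENNReal.toReal_ofReal h0.le]

end Pool.Agent.FisherMin
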