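import Pool.Agent.FisherMin.Analytic
import Pool.Agent.FisherMin.Discrete

/-!
A minimizer cannot coincide, near infinity, with a geometric distribution on an arithmetic
progression.
-/

open MeasureTheory Filter Topology

namespace Pool.Agent.FisherMin

/-- posterior mean -/
noncomputable def theta (G : Measure ℝ) (x : ℝ) : ℝ := nmix G x / mix G x

lemma dmix_eq_nmix {G : Measure ℝ} (h : Nice G) (x : ℝ) :
    dmix G x = nmix G x - x * mix G x := by
  unfold dmix nmix mix
  rw [← integral_const_mul, ← integral_sub (h.integrable_mul_phi_sub x)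
    ((h.integrable_phi_sub x).const_mul x)]
  congr 1
  ext u
  ring

lemma psi_eq_sub_theta {α : ℝ} {G : Measure ℝ} [IsFiniteMeasure G] (hG : Std α G) (x : ℝ) :
    psi G x = x - theta G x := by
  have hf := (hG.mix_pos x).ne'
  unfold psi theta
  rw [dmix_eq_nmix (Nice.of_finite G)]
  field_simp
  ring

lemma mix_ge_atom {μ : Measure ℝ} (h : Nice μ) (x v : ℝ) :
    μ.real {v} * phi (x - v) ≤ mix μ x := by
  have h1 : ∫ u in ({v} : Set ℝ), phi (x - u) ∂μ ≤ mix μ x :=
    setIntegral_le_integral (h.integrable_phi_sub x) (by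
      filter_upwards with u
      exact phi_nonneg _)
  have h2 : ∫ u in ({v} : Set ℝ), phi (x - u) ∂μ = μ.real {v} * phi (x - v) := by
    rw [Measure.restrict_singleton, integral_smul_measure, integral_dirac]
    rfl
  rwa [h2] at h1

/-- Data of a measure with a geometric tail on an arithmetic progression. -/
structure TailData (α lam : ℝ) (G T G₁ G₂ : Measure ℝ) (a h q P b : ℝ) : Prop where
  std : Std α G
  sum : G = T + G₁
  nice2 : Nice G₂
  hh : 0 < h
  hq0 : 0 < q
  hq1 : q < 1
  hP : 0 < P
  per : (T + G₂).map (fun u => u + h) = ENNReal.ofReal q⁻¹ • (T + G₂)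
  hb1 : G₁ (Set.Ioi b) = 0
  hb2 : G₂ (Set.Ioi b) = 0
  hm : G₁.real {b} ≠ G₂.real {b}
  atom : ∀ k : ℕ, P * q ^ k ≤ T.real {a + k * h}
  lev : ∀ k : ℕ, Lf G (a + (k + 1) * h) = lam

section

set_option linter.unusedSectionVars false

variable {α lam : ℝ} {G T G₁ G₂ : Measure ℝ} {a h q P b : ℝ} [IsFiniteMeasure G] [SFinite G₂]

lemma TailData.finT (H : TailData α lam G T G₁ G₂ a h q P b) : IsFiniteMeasure T :=
  isFiniteMeasure_of_le G (by rw [H.sum]; exact Measure.le_add_right le_rfl)

lemma TailData.fin1 (H : TailData α lam G T G₁ G₂ a h q P b) : IsFiniteMeasure G₁ :=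
  isFiniteMeasure_of_le G (by rw [H.sum]; exact Measure.le_add_left le_rfl)

lemma TailData.niceT (H : TailData α lam G T G₁ G₂ a h q P b) : Nice T := by
  have := H.finT
  exact Nice.of_finite T

lemma TailData.nice1 (H : TailData α lam G T G₁ G₂ a h q P b) : Nice G₁ := by
  have := H.fin1
  exact Nice.of_finite G₁

lemma TailData.niceI (H : TailData α lam G T G₁ G₂ a h q P b) : Nice (T + G₂) :=
  H.niceT.add H.nice2

lemma TailData.atom0 (H : TailData α lam G T G₁ G₂ a h q P b) : P ≤ T.real {a} := by
  have := H.atom 0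
  simpa using this

lemma TailData.mixI_ge (H : TailData α lam G T G₁ G₂ a h q P b) (x : ℝ) :
    P * phi (x - a) ≤ mix (T + G₂) x := by
  rw [mix_add H.niceT H.nice2]
  have h1 := mix_ge_atom H.niceT x a
  have h2 := mix_nonneg G₂ x
  have h3 := mul_le_mul_of_nonneg_right H.atom0 (phi_nonneg (x - a))
  linarith

lemma TailData.mixI_pos (H : TailData α lam G T G₁ G₂ a h q P b) (x : ℝ) :
    0 < mix (T + G₂) x :=
  lt_of_lt_of_le (mul_pos H.hP (phi_pos _)) (H.mixI_ge x)

lemma TailData.mixI_shift (H : TailData α lam G T G₁ G₂ a h q P b) (x : ℝ) :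
    mix (T + G₂) (x + h) = q * mix (T + G₂) x := by
  have hq := H.hq0
  have h1 : ∫ u, phi (x + h - u) ∂((T + G₂).map (fun u => u + h)) = mix (T + G₂) x := by
    rw [integral_map (by fun_prop) (by fun_prop : Measurable fun u =>
      phi (x + h - u)).aestronglyMeasurable]
    unfold mix
    congr 1
    ext u
    congr 1
    ring
  rw [H.per, integral_smul_measure, ENNReal.toReal_ofReal (by positivity), smul_eq_mul] at h1
  unfold mix at h1 ⊢
  rw [← h1]
  field_simp

lemma TailData.nmixI_shift (H : TailData α lam G T G₁ G₂ a h q P b) (x : ℝ) :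
    nmix (T + G₂) (x + h) = q * (nmix (T + G₂) x + h * mix (T + G₂) x) := by
  have hq := H.hq0
  have h1 : ∫ u, u * phi (x + h - u) ∂((T + G₂).map (fun u => u + h)) =
      nmix (T + G₂) x + h * mix (T + G₂) x := by
    rw [integral_map (by fun_prop) (by fun_prop : Measurable fun u =>
      u * phi (x + h - u)).aestronglyMeasurable]
    unfold mix nmix
    rw [← integral_const_mul, ← integral_add (H.niceI.integrable_mul_phi_sub x)
      ((H.niceI.integrable_phi_sub x).const_mul h)]
    congr 1
    ext u
    rw [show x + h - (u + h) = x - u by ring]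
    ring
  rw [H.per, integral_smul_measure, ENNReal.toReal_ofReal (by positivity), smul_eq_mul] at h1
  rw [← h1]
  unfold nmix
  field_simp

lemma TailData.thetaI_shift (H : TailData α lam G T G₁ G₂ a h q P b) (x : ℝ) :
    theta (T + G₂) (x + h) = theta (T + G₂) x + h := by
  unfold theta
  rw [H.mixI_shift, H.nmixI_shift]
  have h1 := (H.mixI_pos x).ne'
  have h2 := H.hq0.ne'
  field_simp

/-- the limiting score is bounded. -/
lemma TailData.thetaI_bdd (H : TailData α lam G T G₁ G₂ a h q P b) :
    ∃ C, 0 ≤ C ∧ ∀ x, |theta (T + G₂) x - x| ≤ C := by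
  set X := |a| + h with hX
  have hh := H.hh
  have hX0 : 0 ≤ X := by positivity
  have hint : Integrable (fun u => (|u| + X) * (Real.exp (X * |u|) * phi u)) (T + G₂) := by
    refine H.niceI.integrable_of_le (C := 1 + X) (b := X + 1) (by fun_prop) fun u => ?_
    have h1 := phi_nonneg u
    rw [abs_of_nonneg (by positivity)]
    have h2 := abs_le_exp u
    have h3 : 1 ≤ Real.exp |u| := Real.one_le_exp (abs_nonneg u)
    rw [add_mul X 1, one_mul, Real.exp_add]
    calc (|u| + X) * (Real.exp (X * |u|) * phi u)
        ≤ (Real.exp |u| + X * Real.exp |u|) * (Real.exp (X * |u|) * phi u) := by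
          gcongr
          nlinarith
      _ = _ := by ring
  set M := ∫ u, (|u| + X) * (Real.exp (X * |u|) * phi u) ∂(T + G₂) with hM
  have hM0 : 0 ≤ M := integral_nonneg fun u => by
    have := phi_nonneg u
    positivity
  have hP := H.hP
  have hphi := phi_pos h
  set C := M / (P * phi h) with hC
  have hper : Function.Periodic (fun x => theta (T + G₂) x - x) h := by
    intro x
    simp only
    rw [H.thetaI_shift]
    ring
  refine ⟨C, by positivity, fun x => ?_⟩
  obtain ⟨y, hy, hxy⟩ := hper.exists_mem_Ico hh x a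
  rw [hxy]
  have hmix := H.mixI_pos y
  have h1 : theta (T + G₂) y - y = (∫ u, (u - y) * phi (y - u) ∂(T + G₂)) / mix (T + G₂) y := by
    have h2 : ∫ u, (u - y) * phi (y - u) ∂(T + G₂) = nmix (T + G₂) y - y * mix (T + G₂) y := by
      unfold nmix mix
      rw [← integral_const_mul, ← integral_sub (H.niceI.integrable_mul_phi_sub y)
        ((H.niceI.integrable_phi_sub y).const_mul y)]
      congr 1
      ext u
      ring
    rw [h2]
    unfold theta
    field_simp
  rw [h1, abs_div, abs_of_pos hmix]
  have hyX : |y| ≤ X := by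
    rw [hX, abs_le]
    have := hy.1
    have := hy.2
    have := neg_abs_le a
    have := le_abs_self a
    constructor <;> linarith
  have h3 : |∫ u, (u - y) * phi (y - u) ∂(T + G₂)| ≤ M := by
    rw [hM, ← Real.norm_eq_abs]
    refine norm_integral_le_of_norm_le hint (ae_of_all _ fun u => ?_)
    rw [Real.norm_eq_abs, abs_mul, abs_of_nonneg (phi_nonneg _)]
    have h4 : |u - y| ≤ |u| + X := (abs_sub u y).trans (by linarith)
    have h5 : phi (y - u) ≤ Real.exp (X * |u|) * phi u := by
      refine (phi_sub_le' y u).trans ?_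
      have := phi_nonneg u
      gcongr
    exact mul_le_mul h4 h5 (phi_nonneg _) (by positivity)
  have h6 : P * phi h ≤ mix (T + G₂) y := by
    refine le_trans ?_ (H.mixI_ge y)
    have h8 : phi h ≤ phi (y - a) := by
      unfold phi
      refine mul_le_mul_of_nonneg_left (Real.exp_le_exp.2 ?_) phi_const_pos.le
      have h5 : (y - a) ^ 2 ≤ h ^ 2 := by
        apply pow_le_pow_left₀ <;> linarith [hy.1, hy.2]
      linarith
    gcongr
  rw [hC]
  exact div_le_div₀ hM0 h3 (by positivity) h6

/-- lower bound on the mixture density -/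
lemma TailData.mix_ge (H : TailData α lam G T G₁ G₂ a h q P b) {x : ℝ} (hx : a ≤ x) :
    P * phi h * Real.exp (Real.log q / h * (x - a)) ≤ mix G x := by
  have hh := H.hh
  have hq0 := H.hq0
  have hP := H.hP
  set k := ⌊(x - a) / h⌋₊ with hk
  have hxa : 0 ≤ (x - a) / h := div_nonneg (by linarith) hh.le
  have hk1 : (k : ℝ) ≤ (x - a) / h := Nat.floor_le hxa
  have hk2 : (x - a) / h < k + 1 := Nat.lt_floor_add_one _
  have hk1' : k * h ≤ x - a := by rwa [le_div_iff₀ hh] at hk1
  have hk2' : x - a < (k + 1) * h := by rwa [div_lt_iff₀ hh] at hk2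
  have hGn : Nice G := Nice.of_finite G
  have h1 := mix_ge_atom hGn x (a + k * h)
  have h2 : P * q ^ k ≤ G.real {a + k * h} := by
    refine (H.atom k).trans ?_
    have hT := H.finT
    have h1' := H.fin1
    have : G.real {a + k * h} = T.real {a + k * h} + G₁.real {a + k * h} := by
      conv_lhs => rw [H.sum]
      exact measureReal_add_apply
    rw [this]
    have := measureReal_nonneg (μ := G₁) (s := {a + k * h})
    linarith
  have h3 : phi h ≤ phi (x - (a + k * h)) := by
    unfold phi
    refine mul_le_mul_of_nonneg_left (Real.exp_le_exp.2 ?_) phi_const_pos.le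
    have h5 : (x - (a + k * h)) ^ 2 ≤ h ^ 2 := by
      apply pow_le_pow_left₀ <;> linarith
    linarith
  have h4 : Real.exp (Real.log q / h * (x - a)) ≤ q ^ k := by
    rw [← Real.exp_log hq0, ← Real.exp_nat_mul, Real.log_exp]
    apply Real.exp_le_exp.2
    have hlog : Real.log q ≤ 0 := Real.log_nonpos hq0.le H.hq1.le
    rw [div_mul_eq_mul_div, mul_comm (k : ℝ), mul_div_assoc]
    exact mul_le_mul_of_nonpos_left hk1 hlog
  have hphi := phi_pos h
  calc P * phi h * Real.exp (Real.log q / h * (x - a)) ≤ P * phi h * q ^ k := by gcongr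
    _ = (P * q ^ k) * phi h := by ring
    _ ≤ G.real {a + k * h} * phi (x - (a + k * h)) := by gcongr
    _ ≤ mix G x := h1

lemma TailData.eta_eq (H : TailData α lam G T G₁ G₂ a h q P b) (x : ℝ) :
    (theta G x - theta (T + G₂) x) * mix G x =
      (nmix G₁ x - nmix G₂ x) - theta (T + G₂) x * (mix G₁ x - mix G₂ x) := by
  have h1 : theta G x * mix G x = nmix G x := by
    unfold theta
    have := (H.std.mix_pos x).ne'
    field_simp
  have h2 : theta (T + G₂) x * mix (T + G₂) x = nmix (T + G₂) x := by
    unfold theta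
    have := (H.mixI_pos x).ne'
    field_simp
  have h3 : mix G x = mix T x + mix G₁ x := by
    conv_lhs => rw [H.sum]
    exact mix_add H.niceT H.nice1 x
  have h4 : nmix G x = nmix T x + nmix G₁ x := by
    conv_lhs => rw [H.sum]
    exact nmix_add H.niceT H.nice1 x
  have h5 := mix_add H.niceT H.nice2 x
  have h6 := nmix_add H.niceT H.nice2 x
  rw [sub_mul, h1, h4]
  rw [h5, h6] at h2
  rw [h3]
  linarith

/-- eventual sign and decay of the perturbation -/
lemma TailData.eta_asymp (H : TailData α lam G T G₁ G₂ a h q P b) :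
    ∃ σ K K' x0 : ℝ, |σ| = 1 ∧ 0 < x0 ∧ 0 ≤ K ∧ 0 ≤ K' ∧
      (∀ x, x0 ≤ x → 0 < σ * (theta G x - theta (T + G₂) x)) ∧
      (∀ x, x0 ≤ x → |theta G x - theta (T + G₂) x| ≤ K * Real.exp (-x ^ 2 / 2 + K' * x)) := by
  obtain ⟨C, hC0, hC⟩ := H.thetaI_bdd
  set m := G₁.real {b} - G₂.real {b} with hm
  have hm0 : m ≠ 0 := sub_ne_zero.2 H.hm
  have hmpos : 0 < |m| := abs_pos.2 hm0
  have t0 : Tendsto (fun x => (mix G₁ x - mix G₂ x) / phi (x - b)) atTop (𝓝 m) := by
    have := (tendsto_mix_div H.nice1 H.hb1).sub (tendsto_mix_div H.nice2 H.hb2)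
    refine this.congr fun x => ?_
    rw [sub_div]
  have t1 : Tendsto (fun x => (nmix G₁ x - nmix G₂ x) / phi (x - b)) atTop (𝓝 (b * m)) := by
    have := (tendsto_nmix_div H.nice1 H.hb1).sub (tendsto_nmix_div H.nice2 H.hb2)
    rw [← mul_sub] at this
    refine this.congr fun x => ?_
    rw [sub_div]
  -- sign
  obtain ⟨σ, hσ, hσm⟩ : ∃ σ : ℝ, |σ| = 1 ∧ -σ * m = |m| := by
    rcases lt_or_gt_of_ne hm0 with hneg | hpos
    · exact ⟨1, by simp, by rw [abs_of_neg hneg]; ring⟩
    · exact ⟨-1, by simp, by rw [abs_of_pos hpos]; ring⟩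
  have e0 : ∀ᶠ x in atTop, |(mix G₁ x - mix G₂ x) / phi (x - b) - m| < |m| / 2 := by
    have := t0.eventually (Metric.ball_mem_nhds m (half_pos hmpos))
    filter_upwards [this] with x hx
    rwa [Real.dist_eq] at hx
  have e1 : ∀ᶠ x in atTop, |(nmix G₁ x - nmix G₂ x) / phi (x - b) - b * m| < 1 := by
    have := t1.eventually (Metric.ball_mem_nhds (b * m) one_pos)
    filter_upwards [this] with x hx
    rwa [Real.dist_eq] at hx
  set c1 := |b * m| + 1 with hc1
  have e2 : ∀ᶠ x : ℝ in atTop, c1 < (x - C) * (|m| / 2) := by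
    have : Tendsto (fun x : ℝ => (x - C) * (|m| / 2)) atTop atTop :=
      (tendsto_atTop_add_const_right _ _ tendsto_id).atTop_mul_const (half_pos hmpos)
    exact this.eventually (eventually_gt_atTop c1)
  obtain ⟨x0, hx0⟩ := eventually_atTop.1 (e0.and (e1.and (e2.and
    ((eventually_ge_atTop (1 : ℝ)).and (eventually_ge_atTop a)))))
  have hkey : ∀ x, x0 ≤ x → (theta G x - theta (T + G₂) x) * mix G x / phi (x - b) =
      (nmix G₁ x - nmix G₂ x) / phi (x - b) -
        theta (T + G₂) x * ((mix G₁ x - mix G₂ x) / phi (x - b)) := by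
    intro x _
    rw [H.eta_eq, sub_div, mul_div_assoc]
  -- λ
  set κ := -(Real.log q / h) with hκ
  have hκ0 : 0 ≤ κ := by
    have hlog : Real.log q ≤ 0 := Real.log_nonpos H.hq0.le H.hq1.le
    have := H.hh
    rw [hκ, neg_nonneg]
    exact div_nonpos_of_nonpos_of_nonneg hlog this.le
  set c2 := c1 + (1 + C) * (2 * |m|) with hc2
  refine ⟨σ, c2 * (P * phi h)⁻¹ * Real.exp (-κ * a), κ + |b| + 1, max x0 1, hσ,
    by positivity, ?_, by positivity, ?_, ?_⟩
  · have := H.hP
    have := phi_pos h
    positivity
  · intro x hx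
    have hx' : x0 ≤ x := (le_max_left _ _).trans hx
    obtain ⟨a0, a1, a2, a3, a4⟩ := hx0 x hx'
    have hf := H.std.mix_pos x
    have hp := phi_pos (x - b)
    have hk := hkey x hx'
    set R0 := (mix G₁ x - mix G₂ x) / phi (x - b) with hR0
    set R1 := (nmix G₁ x - nmix G₂ x) / phi (x - b) with hR1
    have hσcases : σ = 1 ∨ σ = -1 := by
      rcases eq_or_eq_neg_of_abs_eq hσ with h | h
      · exact Or.inl h
      · exact Or.inr h
    have b0 : |m| / 2 ≤ -σ * R0 := by
      have h7 : |σ * (R0 - m)| < |m| / 2 := by rw [abs_mul, hσ, one_mul]; exact a0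
      have h8 := abs_lt.1 h7
      have h9 : -σ * R0 = -σ * m - σ * (R0 - m) := by ring
      rw [h9, hσm]
      linarith [h8.2]
    have b1 : -c1 ≤ σ * R1 := by
      have h7 : |σ * R1| ≤ c1 := by
        rw [abs_mul, hσ, one_mul]
        have : |R1| ≤ |R1 - b * m| + |b * m| := by
          have := abs_add_le (R1 - b * m) (b * m)
          rwa [sub_add_cancel] at this
        linarith
      linarith [neg_le_of_abs_le h7]
    have b2 : x - C ≤ theta (T + G₂) x := by
      have := (abs_le.1 (hC x)).1
      linarith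
    have hxC : 0 < x - C := by
      by_contra hcon
      push Not at hcon
      have : (x - C) * (|m| / 2) ≤ 0 := mul_nonpos_of_nonpos_of_nonneg hcon (by positivity)
      have hc1pos : 0 < c1 := by positivity
      linarith
    have b3 : (x - C) * (|m| / 2) ≤ theta (T + G₂) x * (-σ * R0) :=
      mul_le_mul b2 b0 (by positivity) (by linarith)
    have b4 : 0 < σ * (R1 - theta (T + G₂) x * R0) := by
      have : σ * (R1 - theta (T + G₂) x * R0) = σ * R1 + theta (T + G₂) x * (-σ * R0) := by ring
      rw [this]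
      linarith
    rw [← hk] at b4
    have b5 : σ * ((theta G x - theta (T + G₂) x) * mix G x / phi (x - b)) =
        (σ * (theta G x - theta (T + G₂) x)) * (mix G x / phi (x - b)) := by ring
    rw [b5] at b4
    exact pos_of_mul_pos_left b4 (div_pos hf hp).le
  · intro x hx
    have hx' : x0 ≤ x := (le_max_left _ _).trans hx
    obtain ⟨a0, a1, a2, a3, a4⟩ := hx0 x hx'
    have hf := H.std.mix_pos x
    have hp := phi_pos (x - b)
    have hk := hkey x hx'
    set R0 := (mix G₁ x - mix G₂ x) / phi (x - b) with hR0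
    set R1 := (nmix G₁ x - nmix G₂ x) / phi (x - b) with hR1
    have b0 : |R0| ≤ 2 * |m| := by
      have : |R0| ≤ |R0 - m| + |m| := by
        have := abs_add_le (R0 - m) m
        rwa [sub_add_cancel] at this
      linarith
    have b1 : |R1| ≤ c1 := by
      have : |R1| ≤ |R1 - b * m| + |b * m| := by
        have := abs_add_le (R1 - b * m) (b * m)
        rwa [sub_add_cancel] at this
      linarith
    have b2 : |theta (T + G₂) x| ≤ x + C := by
      have := abs_le.1 (hC x)
      rw [abs_le]
      constructor <;> linarith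
    have b3 : |R1 - theta (T + G₂) x * R0| ≤ c1 + (x + C) * (2 * |m|) := by
      refine (abs_sub _ _).trans ?_
      rw [abs_mul]
      gcongr
    have b4 : c1 + (x + C) * (2 * |m|) ≤ c2 * Real.exp x := by
      have h7 := Real.add_one_le_exp x
      have h8 : 1 ≤ Real.exp x := by linarith
      have h9 : x + C ≤ (1 + C) * Real.exp x := by
        have : C * 1 ≤ C * Real.exp x := by gcongr
        linarith
      have hc1pos : 0 < c1 := by positivity
      calc c1 + (x + C) * (2 * |m|) ≤ c1 * Real.exp x + ((1 + C) * Real.exp x) * (2 * |m|) := by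
            gcongr
            nlinarith
        _ = c2 * Real.exp x := by rw [hc2]; ring
    have b5 : |theta G x - theta (T + G₂) x| * (mix G x / phi (x - b)) ≤ c2 * Real.exp x := by
      have : |theta G x - theta (T + G₂) x| * (mix G x / phi (x - b)) =
          |(theta G x - theta (T + G₂) x) * mix G x / phi (x - b)| := by
        rw [mul_div_assoc, abs_mul, abs_of_pos (div_pos hf hp)]
      rw [this, hk]
      exact b3.trans b4
    have hmixge := H.mix_ge a4
    have hP := H.hP
    have hphi := phi_pos h
    have b6 : phi (x - b) ≤ Real.exp (-x ^ 2 / 2 + |b| * x) := by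
      refine (phi_le_exp _).trans (Real.exp_le_exp.2 ?_)
      have : x * b ≤ |b| * x := by
        rw [mul_comm]
        exact mul_le_mul_of_nonneg_right (le_abs_self b) (by linarith)
      nlinarith [sq_nonneg b]
    have b7 : |theta G x - theta (T + G₂) x| ≤ c2 * Real.exp x * (phi (x - b) / mix G x) := by
      have h7 : |theta G x - theta (T + G₂) x| =
          (|theta G x - theta (T + G₂) x| * (mix G x / phi (x - b))) * (phi (x - b) / mix G x) := by
        field_simp
      rw [h7]
      exact mul_le_mul_of_nonneg_right b5 (div_pos hp hf).le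
    have b8 : phi (x - b) / mix G x ≤
        Real.exp (-x ^ 2 / 2 + |b| * x) / (P * phi h * Real.exp (Real.log q / h * (x - a))) :=
      div_le_div₀ (Real.exp_pos _).le b6 (by positivity) hmixge
    refine b7.trans ?_
    have hc2pos : 0 ≤ c2 := by positivity
    calc c2 * Real.exp x * (phi (x - b) / mix G x)
        ≤ c2 * Real.exp x * (Real.exp (-x ^ 2 / 2 + |b| * x) /
          (P * phi h * Real.exp (Real.log q / h * (x - a)))) := by gcongr
      _ = c2 * (P * phi h)⁻¹ * (Real.exp x * Real.exp (-x ^ 2 / 2 + |b| * x) *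
          (Real.exp (Real.log q / h * (x - a)))⁻¹) := by
          rw [div_eq_mul_inv, mul_inv]
          ring
      _ = c2 * (P * phi h)⁻¹ * (Real.exp (-κ * a) *
            Real.exp (-x ^ 2 / 2 + (κ + |b| + 1) * x)) := by
          congr 1
          rw [← Real.exp_neg, ← Real.exp_add, ← Real.exp_add, ← Real.exp_add]
          congr 1
          rw [hκ]
          ring
      _ = _ := by ring

lemma measurable_theta (μ : Measure ℝ) [SFinite μ] : Measurable (theta μ) := by
  unfold theta nmix mix
  have h1 : StronglyMeasurable (fun x : ℝ => ∫ u, u * phi (x - u) ∂μ) := by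
    have : StronglyMeasurable (fun p : ℝ × ℝ => p.2 * phi (p.1 - p.2)) := by
      apply Measurable.stronglyMeasurable
      fun_prop
    exact this.integral_prod_right
  have h2 : StronglyMeasurable (fun x : ℝ => ∫ u, phi (x - u) ∂μ) := by
    have : StronglyMeasurable (fun p : ℝ × ℝ => phi (p.1 - p.2)) := by
      apply Measurable.stronglyMeasurable
      fun_prop
    exact this.integral_prod_right
  exact h1.measurable.div h2.measurable

/-- **Main theorem on tails.** -/
theorem TailData.false (H : TailData α lam G T G₁ G₂ a h q P b) : False := by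
  obtain ⟨C, hC0, hC⟩ := H.thetaI_bdd
  obtain ⟨σ, K, K', x0, hσ, hx0, hK, hK', h1, h2⟩ := H.eta_asymp
  have hT := H.finT
  set η : ℝ → ℝ := fun x => theta G x - theta (T + G₂) x with hη
  set r : ℝ → ℝ := fun x => theta G x + theta (T + G₂) x - 2 * x with hr
  have hηm : Measurable η := (measurable_theta G).sub (measurable_theta (T + G₂))
  have hrm : Measurable r :=
    ((measurable_theta G).add (measurable_theta (T + G₂))).sub (by fun_prop)
  have hpsi : ∀ x, theta G x - x = -psi G x := by
    intro x
    rw [psi_eq_sub_theta H.std]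
    ring
  have hbI : ExpBdd (fun x => theta (T + G₂) x - x) :=
    (ExpBdd.const C).of_le fun x => by rw [abs_of_nonneg hC0]; exact hC x
  have hbG : ExpBdd (fun x => theta G x - x) := by
    have := H.std.psi_expBdd.neg
    refine this.of_le fun x => ?_
    rw [hpsi]
  have hηb : ExpBdd η := by
    refine (hbG.sub hbI).of_le fun x => ?_
    simp only [hη]
    rw [show theta G x - x - (theta (T + G₂) x - x) = theta G x - theta (T + G₂) x by ring]
  have hrb : ExpBdd r := by
    refine (hbG.add hbI).of_le fun x => ?_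
    simp only [hr]
    rw [show theta G x - x + (theta (T + G₂) x - x) = theta G x + theta (T + G₂) x - 2 * x by ring]
  -- bound on r for large x
  have h3 : ∀ x, x0 ≤ x → |r x| ≤ K * Real.exp (K' ^ 2 / 2) + 2 * C := by
    intro x hx
    have h4 := h2 x hx
    have h5 : Real.exp (-x ^ 2 / 2 + K' * x) ≤ Real.exp (K' ^ 2 / 2) := by
      apply Real.exp_le_exp.2
      nlinarith [sq_nonneg (x - K')]
    have h6 : K * Real.exp (-x ^ 2 / 2 + K' * x) ≤ K * Real.exp (K' ^ 2 / 2) := by gcongr
    have h7 : r x = (theta G x - theta (T + G₂) x) + 2 * (theta (T + G₂) x - x) := by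
      simp only [hr]; ring
    rw [h7]
    refine (abs_add_le _ _).trans ?_
    rw [abs_mul, abs_two]
    have := hC x
    linarith
  -- the level sets
  set LI : ℝ → ℝ := fun u => ∫ x, ((x - u) ^ 2 - (theta (T + G₂) x - u) ^ 2) * phi (x - u) with hLI
  have hLIper : ∀ u, LI (u + h) = LI u := by
    intro u
    simp only [hLI]
    rw [← integral_add_right_eq_self _ h]
    congr 1
    ext x
    rw [H.thetaI_shift, show x + h - (u + h) = x - u by ring,
      show theta (T + G₂) x + h - (u + h) = theta (T + G₂) x - u by ring]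
  have hLIk : ∀ k : ℕ, LI (a + (k + 1) * h) = LI a := by
    intro k
    induction k with
    | zero =>
      rw [← hLIper a]
      congr 1
      push_cast
      ring
    | succ k ih =>
      rw [← ih, ← hLIper (a + (k + 1) * h)]
      congr 1
      push_cast
      ring
  have hdiff : ∀ u, Lf G u - LI u = ∫ x, η x * (2 * (u - x) - r x) * phi (x - u) := by
    intro u
    simp only [hLI]
    unfold Lf
    have i2 : Integrable (fun x => ((x - u) ^ 2 - (theta (T + G₂) x - u) ^ 2) * phi (x - u)) := by
      have hb : ExpBdd (fun x => (x - u) ^ 2 - (theta (T + G₂) x - u) ^ 2) := by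
        have e1 : ExpBdd (fun x => x - u) := ExpBdd.id.sub (ExpBdd.const u)
        have e2 : ExpBdd (fun x => theta (T + G₂) x - u) := by
          refine (hbI.add e1).of_le fun x => ?_
          rw [show theta (T + G₂) x - x + (x - u) = theta (T + G₂) x - u by ring]
        exact (e1.pow 2).sub (e2.pow 2)
      have hm := measurable_theta (T + G₂)
      exact hb.integrable_mul_phi (by fun_prop) u
    rw [← integral_sub (integrable_Lf_integrand H.std u) i2]
    congr 1
    ext x
    simp only [hη, hr]
    rw [psi_eq_sub_theta H.std]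
    ring
  have hu : Tendsto (fun k : ℕ => a + ((k : ℝ) + 1) * h) atTop atTop :=
    tendsto_atTop_add_const_left _ _ ((tendsto_atTop_add_const_right _ _
      tendsto_natCast_atTop_atTop).atTop_mul_const H.hh)
  refine no_constant hηm hrm hηb hrb hσ hx0 hK hK' (by positivity) h1 h2 h3
    (fun k : ℕ => a + ((k : ℝ) + 1) * h) hu (lam - LI a) fun k => ?_
  rw [← hdiff, H.lev, hLIk]

end

end Pool.Agent.FisherMin
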