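import Pool.Agent.FisherMin.Exist

/-!
First-order optimality conditions.
-/

open MeasureTheory Filter Topology

namespace Pool.Agent.FisherMin

/-- first variation of the Fisher information in the direction of `φ(· - u)`. -/
noncomputable def Lf (G : Measure ℝ) (u : ℝ) : ℝ :=
  ∫ x, (2 * psi G x * (x - u) - psi G x ^ 2) * phi (x - u)

lemma phi_sub_eq (x u : ℝ) : phi (x - u) = phi x * Real.exp (x * u - u ^ 2 / 2) := by
  unfold phi
  rw [mul_assoc, ← Real.exp_add]
  congr 2
  ring

lemma expBdd_exp (u c : ℝ) : ExpBdd (fun x => Real.exp (x * u + c)) := by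
  refine ⟨Real.exp c, |u|, (Real.exp_pos _).le, abs_nonneg _, fun x => ?_⟩
  rw [Real.abs_exp, ← Real.exp_add]
  apply Real.exp_le_exp.2
  have : x * u ≤ |u| * |x| := by rw [← abs_mul, mul_comm]; exact le_abs_self _
  linarith

/-- `f₁ = φ W₁` -/
noncomputable def W1 (α β u x : ℝ) : ℝ :=
  α + (1 - α) * β * ((Real.exp (x * u + -(u ^ 2 / 2)) + Real.exp (x * (-u) + -(u ^ 2 / 2))) / 2)

/-- `f₁' = φ W₂` -/
noncomputable def W2 (α β u x : ℝ) : ℝ :=
  α * (-x) + (1 - α) * β * ((-(x - u) * Real.exp (x * u + -(u ^ 2 / 2)) +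
    -(x + u) * Real.exp (x * (-u) + -(u ^ 2 / 2))) / 2)

lemma phi_W1 (α β u x : ℝ) : α * phi x + (1 - α) * (β * kap x u) = phi x * W1 α β u x := by
  unfold kap W1
  have h2 : x + u = x - (-u) := by ring
  rw [h2, phi_sub_eq x u, phi_sub_eq x (-u)]
  ring_nf

lemma phi_W2 (α β u x : ℝ) :
    α * (-x * phi x) + (1 - α) * (β * dkap x u) = phi x * W2 α β u x := by
  unfold dkap W2
  have h2 : x + u = x - (-u) := by ring
  rw [h2, phi_sub_eq x u, phi_sub_eq x (-u)]
  ring_nf

lemma W1_expBdd (α β u : ℝ) : ExpBdd (W1 α β u) := by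
  unfold W1
  have h1 := expBdd_exp u (-(u ^ 2 / 2))
  have h2 := expBdd_exp (-u) (-(u ^ 2 / 2))
  exact (ExpBdd.const α).add ((ExpBdd.const ((1 - α) * β)).mul
    ((h1.add h2).mul (ExpBdd.const (2⁻¹ : ℝ))) |>.of_le fun x => by
      rw [div_eq_mul_inv])

lemma W2_expBdd (α β u : ℝ) : ExpBdd (W2 α β u) := by
  unfold W2
  have h1 := expBdd_exp u (-(u ^ 2 / 2))
  have h2 := expBdd_exp (-u) (-(u ^ 2 / 2))
  have h3 : ExpBdd (fun x => -(x - u)) := (ExpBdd.id.sub (ExpBdd.const u)).neg
  have h4 : ExpBdd (fun x => -(x + u)) := (ExpBdd.id.add (ExpBdd.const u)).neg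
  exact ((ExpBdd.const α).mul ExpBdd.id.neg).add ((ExpBdd.const ((1 - α) * β)).mul
    (((h3.mul h1).add (h4.mul h2)).mul (ExpBdd.const (2⁻¹ : ℝ))) |>.of_le fun x => by
      rw [div_eq_mul_inv])

lemma measurable_W1 (α β u : ℝ) : Measurable (W1 α β u) := by unfold W1; fun_prop

lemma measurable_W2 (α β u : ℝ) : Measurable (W2 α β u) := by unfold W2; fun_prop

/-- the competitor -/
noncomputable def comp (ν : Measure ℝ) (t β u : ℝ) : Measure ℝ :=
  ENNReal.ofReal (1 - t) • ν + ENNReal.ofReal (t * β) • Measure.dirac u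

instance (ν : Measure ℝ) [IsFiniteMeasure ν] (t β u : ℝ) : IsFiniteMeasure (comp ν t β u) := by
  unfold comp
  have h1 : IsFiniteMeasure (ENNReal.ofReal (1 - t) • ν) :=
    Measure.smul_finite _ ENNReal.ofReal_ne_top
  have h2 : IsFiniteMeasure (ENNReal.ofReal (t * β) • Measure.dirac u) :=
    Measure.smul_finite _ ENNReal.ofReal_ne_top
  infer_instance

lemma integral_comp (ν : Measure ℝ) [IsFiniteMeasure ν] {t β : ℝ} (u : ℝ) (ht0 : 0 ≤ t)
    (ht1 : t ≤ 1) (hβ : 0 ≤ β) {F : ℝ → ℝ} (hi : Integrable F ν) :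
    ∫ v, F v ∂(comp ν t β u) = (1 - t) * ∫ v, F v ∂ν + t * β * F u := by
  unfold comp
  rw [integral_add_measure, integral_smul_measure, integral_smul_measure, integral_dirac,
    ENNReal.toReal_ofReal (by linarith), ENNReal.toReal_ofReal (by positivity)]
  · simp only [smul_eq_mul]
  · exact hi.smul_measure ENNReal.ofReal_ne_top
  · exact (integrable_dirac (by simp)).smul_measure ENNReal.ofReal_ne_top

lemma comp_mass (ν : Measure ℝ) [IsFiniteMeasure ν] (hν : ν.real Set.univ ≤ 1) {t β : ℝ} (u : ℝ)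
    (ht0 : 0 ≤ t) (ht1 : t ≤ 1) (hβ : 0 ≤ β) (hβ1 : β ≤ 1) :
    (comp ν t β u).real Set.univ ≤ 1 := by
  have h := integral_comp ν (F := fun _ => 1) u ht0 ht1 hβ (integrable_const _)
  simp only [integral_const, smul_eq_mul, mul_one] at h
  rw [h]
  nlinarith [mul_le_mul_of_nonneg_left hν (sub_nonneg.2 ht1),
    mul_le_mul_of_nonneg_left hβ1 ht0]

section Var

variable {α : ℝ} (h0 : 0 < α) (h1 : α < 1) (ν : Measure ℝ) [IsFiniteMeasure ν]
include h0 h1

lemma mix_comp {t β : ℝ} (u : ℝ) (ht0 : 0 ≤ t) (ht1 : t ≤ 1) (hβ : 0 ≤ β) (x : ℝ) :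
    mix (gof α (comp ν t β u)) x = (1 - t) * mix (gof α ν) x + t * (phi x * W1 α β u x) := by
  rw [mix_gof h0 h1, mix_gof h0 h1, integral_comp ν u ht0 ht1 hβ (integrable_kap ν x), ← phi_W1]
  ring

lemma dmix_comp {t β : ℝ} (u : ℝ) (ht0 : 0 ≤ t) (ht1 : t ≤ 1) (hβ : 0 ≤ β) (x : ℝ) :
    dmix (gof α (comp ν t β u)) x = (1 - t) * dmix (gof α ν) x + t * (phi x * W2 α β u x) := by
  rw [dmix_gof h0 h1, dmix_gof h0 h1, integral_comp ν u ht0 ht1 hβ (integrable_dkap ν x), ← phi_W2]
  ring

/-- abbreviation for the linear term -/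
noncomputable def lin (α β u : ℝ) (G : Measure ℝ) (x : ℝ) : ℝ :=
  (-(psi G x) ^ 2 * W1 α β u x - 2 * psi G x * W2 α β u x) * phi x

omit h0 h1 in
lemma integrable_lin {G : Measure ℝ} [IsFiniteMeasure G] (hG : Std α G) (β u : ℝ) :
    Integrable (lin α β u G) := by
  have h : ExpBdd (fun x => -(psi G x) ^ 2 * W1 α β u x - 2 * psi G x * W2 α β u x) := by
    have h2 : ExpBdd (fun x => -(psi G x) ^ 2) := (hG.psi_expBdd.pow 2).neg
    exact (h2.mul (W1_expBdd α β u)).sub
      (((ExpBdd.const 2).mul hG.psi_expBdd).mul (W2_expBdd α β u))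
  have hm := hG.continuous_psi.measurable
  have := h.integrable_mul_phi (by
    have := measurable_W1 α β u
    have := measurable_W2 α β u
    fun_prop) 0
  simp only [sub_zero] at this
  exact this

/-- abbreviation for the quadratic term -/
noncomputable def quad (α β u : ℝ) (G : Measure ℝ) (x : ℝ) : ℝ :=
  (W2 α β u x + psi G x * W1 α β u x) ^ 2 * phi x

omit h0 h1 in
lemma integrable_quad {G : Measure ℝ} [IsFiniteMeasure G] (hG : Std α G) (β u : ℝ) :
    Integrable (quad α β u G) := by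
  have h : ExpBdd (fun x => (W2 α β u x + psi G x * W1 α β u x) ^ 2) :=
    ((W2_expBdd α β u).add (hG.psi_expBdd.mul (W1_expBdd α β u))).pow 2
  have hm := hG.continuous_psi.measurable
  have := h.integrable_mul_phi (by
    have := measurable_W1 α β u
    have := measurable_W2 α β u
    fun_prop) 0
  simp only [sub_zero] at this
  exact this

lemma fint_comp_le (hν : ν.real Set.univ ≤ 1) {t β : ℝ} (u : ℝ) (ht0 : 0 ≤ t) (ht1 : t ≤ 1 / 2)
    (hβ : 0 ≤ β) (x : ℝ) :
    fint (gof α (comp ν t β u)) x ≤ fint (gof α ν) x +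
      t * (lin α β u (gof α ν) x - fint (gof α ν) x) + t ^ 2 * (2 / α * quad α β u (gof α ν) x) := by
  have hG := std_gof h0 h1 ν hν
  have hfpos := hG.mix_pos x
  have hfge := hG.mix_ge x
  have hW1 : 0 ≤ W1 α β u x := by
    unfold W1
    have h3 := Real.exp_pos (x * u + -(u ^ 2 / 2))
    have h4 := Real.exp_pos (x * (-u) + -(u ^ 2 / 2))
    have h5 : 0 ≤ 1 - α := by linarith
    positivity
  have hphi := phi_pos x
  set f := mix (gof α ν) x with hf
  set f' := dmix (gof α ν) x with hf'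
  set w1 := W1 α β u x with hw1
  set w2 := W2 α β u x with hw2
  set p := psi (gof α ν) x with hp
  have hpf : f' = -p * f := by
    rw [hp, psi, ← hf, ← hf']
    field_simp
  set D := (1 - t) * f + t * (phi x * w1) with hD
  have hDge : f / 2 ≤ D := by
    rw [hD]
    have : 0 ≤ t * (phi x * w1) := by positivity
    nlinarith
  have hDpos : 0 < D := by linarith
  have hfc : fint (gof α (comp ν t β u)) x = ((1 - t) * f' + t * (phi x * w2)) ^ 2 / D := by
    unfold fint
    rw [mix_comp h0 h1 ν u ht0 (by linarith) hβ, dmix_comp h0 h1 ν u ht0 (by linarith) hβ]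
  have hf0 : fint (gof α ν) x = p ^ 2 * f := fint_eq hG x
  rw [hfc, hf0]
  have hquad : quad α β u (gof α ν) x = (w2 + p * w1) ^ 2 * phi x := rfl
  have hlin : lin α β u (gof α ν) x = (-p ^ 2 * w1 - 2 * p * w2) * phi x := rfl
  rw [hquad, hlin]
  have hid : ((1 - t) * f' + t * (phi x * w2)) ^ 2 / D = p ^ 2 * f +
      t * ((-p ^ 2 * w1 - 2 * p * w2) * phi x - p ^ 2 * f) +
      t ^ 2 * ((phi x) ^ 2 * (w2 + p * w1) ^ 2 / D) := by
    rw [hpf]
    field_simp
    rw [hD]
    ring
  rw [hid]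
  have hlast : (phi x) ^ 2 * (w2 + p * w1) ^ 2 / D ≤ 2 / α * ((w2 + p * w1) ^ 2 * phi x) := by
    rw [div_le_iff₀ hDpos]
    have h3 : α * phi x / 2 ≤ D := by linarith
    have h4 : 0 ≤ (w2 + p * w1) ^ 2 * phi x := by positivity
    calc (phi x) ^ 2 * (w2 + p * w1) ^ 2 = 2 / α * ((w2 + p * w1) ^ 2 * phi x) * (α * phi x / 2) := by
          field_simp
      _ ≤ 2 / α * ((w2 + p * w1) ^ 2 * phi x) * D := by gcongr
  have : t ^ 2 * ((phi x) ^ 2 * (w2 + p * w1) ^ 2 / D) ≤
      t ^ 2 * (2 / α * ((w2 + p * w1) ^ 2 * phi x)) := by gcongr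
  linarith

/-- The variational inequality. -/
theorem var_ineq (hν : ν.real Set.univ ≤ 1)
    (hmin : ∀ ν' : Measure ℝ, IsFiniteMeasure ν' → ν'.real Set.univ ≤ 1 →
        fisher (mix (gof α ν)) ≤ fisher (mix (gof α ν')))
    {β : ℝ} (u : ℝ) (hβ : 0 ≤ β) (hβ1 : β ≤ 1) :
    ∫ x, fint (gof α ν) x ≤ ∫ x, lin α β u (gof α ν) x := by
  have hG := std_gof h0 h1 ν hν
  set A := ∫ x, fint (gof α ν) x with hA
  set B := ∫ x, lin α β u (gof α ν) x with hB
  set Q := ∫ x, quad α β u (gof α ν) x with hQ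
  have hQ0 : 0 ≤ Q := integral_nonneg fun x => mul_nonneg (sq_nonneg _) (phi_nonneg _)
  have key : ∀ t : ℝ, 0 < t → t ≤ 1 / 2 → A ≤ B + t * (2 / α * Q) := by
    intro t ht0 ht1
    have hG' := std_gof h0 h1 (comp ν t β u) (comp_mass ν hν u ht0.le (by linarith) hβ hβ1)
    have h3 := hmin (comp ν t β u) inferInstance (comp_mass ν hν u ht0.le (by linarith) hβ hβ1)
    rw [fisher_mix_eq hG, fisher_mix_eq hG', ENNReal.ofReal_le_ofReal_iff
      (integral_nonneg fun x => fint_nonneg x)] at h3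
    have h4 : ∫ x, fint (gof α (comp ν t β u)) x ≤ ∫ x, (fint (gof α ν) x +
      t * (lin α β u (gof α ν) x - fint (gof α ν) x) +
        t ^ 2 * (2 / α * quad α β u (gof α ν) x)) := by
      refine integral_mono (integrable_fint hG') ?_ fun x =>
        fint_comp_le h0 h1 ν hν u ht0.le ht1 hβ x
      exact ((integrable_fint hG).add (((integrable_lin hG β u).sub
        (integrable_fint hG)).const_mul t)).add
        (((integrable_quad hG β u).const_mul _).const_mul _)
    have h5 : ∫ x, (fint (gof α ν) x +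
      t * (lin α β u (gof α ν) x - fint (gof α ν) x) +
        t ^ 2 * (2 / α * quad α β u (gof α ν) x)) = A + t * (B - A) + t ^ 2 * (2 / α * Q) := by
      rw [integral_add, integral_add, integral_const_mul, integral_sub, integral_const_mul,
        integral_const_mul]
      · exact integrable_lin hG β u
      · exact integrable_fint hG
      · exact integrable_fint hG
      · exact ((integrable_lin hG β u).sub (integrable_fint hG)).const_mul t
      · exact (integrable_fint hG).add (((integrable_lin hG β u).sub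
          (integrable_fint hG)).const_mul t)
      · exact ((integrable_quad hG β u).const_mul _).const_mul _
    rw [h5] at h4
    have h6 : A ≤ A + t * (B - A) + t ^ 2 * (2 / α * Q) := h3.trans h4
    have h7 : 0 ≤ t * (B - A + t * (2 / α * Q)) := by nlinarith
    have h8 : 0 ≤ B - A + t * (2 / α * Q) := by
      by_contra hcon
      push Not at hcon
      nlinarith
    linarith
  refine le_of_forall_pos_le_add fun ε hε => ?_
  have hK : 0 ≤ 2 / α * Q := by positivity
  have := key (min (1 / 2) (ε / (2 / α * Q + 1))) (by positivity) (min_le_left _ _)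
  refine this.trans ?_
  have h9 : min (1 / 2) (ε / (2 / α * Q + 1)) * (2 / α * Q) ≤ ε := by
    calc min (1 / 2) (ε / (2 / α * Q + 1)) * (2 / α * Q)
        ≤ (ε / (2 / α * Q + 1)) * (2 / α * Q) := by
          gcongr
          exact min_le_right _ _
      _ ≤ ε := by
          rw [div_mul_eq_mul_div, div_le_iff₀ (by positivity)]
          nlinarith
  linarith

lemma mix_gof_even (x : ℝ) : mix (gof α ν) (-x) = mix (gof α ν) x := by
  rw [mix_gof h0 h1, mix_gof h0 h1, phi_neg]
  congr 3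
  ext u
  unfold kap
  rw [show -x - u = -(x + u) by ring, show -x + u = -(x - u) by ring, phi_neg, phi_neg]
  ring

lemma dmix_gof_odd (x : ℝ) : dmix (gof α ν) (-x) = -dmix (gof α ν) x := by
  rw [dmix_gof h0 h1, dmix_gof h0 h1, phi_neg]
  have : ∀ u, dkap (-x) u = -dkap x u := by
    intro u
    unfold dkap
    rw [show -x - u = -(x + u) by ring, show -x + u = -(x - u) by ring, phi_neg, phi_neg]
    ring
  simp_rw [this, integral_neg]
  ring

lemma psi_gof_odd (x : ℝ) : psi (gof α ν) (-x) = -psi (gof α ν) x := by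
  unfold psi
  rw [mix_gof_even h0 h1, dmix_gof_odd h0 h1]
  ring

lemma Lf_gof_even (u : ℝ) : Lf (gof α ν) (-u) = Lf (gof α ν) u := by
  unfold Lf
  rw [← integral_neg_eq_self]
  congr 1
  ext x
  rw [psi_gof_odd h0 h1, show -x - -u = -(x - u) by ring, phi_neg]
  ring

omit h0 h1 in
lemma integrable_Lf_integrand {G : Measure ℝ} [IsFiniteMeasure G] (hG : Std α G) (u : ℝ) :
    Integrable (fun x => (2 * psi G x * (x - u) - psi G x ^ 2) * phi (x - u)) := by
  have h : ExpBdd (fun x => 2 * psi G x * (x - u) - psi G x ^ 2) :=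
    (((ExpBdd.const 2).mul hG.psi_expBdd).mul (ExpBdd.id.sub (ExpBdd.const u))).sub
      (hG.psi_expBdd.pow 2)
  have hm := hG.continuous_psi.measurable
  exact h.integrable_mul_phi (by fun_prop) u

lemma integral_lin (hν : ν.real Set.univ ≤ 1) (β u : ℝ) :
    ∫ x, lin α β u (gof α ν) x = α * Lf (gof α ν) 0 + (1 - α) * β * Lf (gof α ν) u := by
  have hG := std_gof h0 h1 ν hν
  have hpt : ∀ x, lin α β u (gof α ν) x =
      α * ((2 * psi (gof α ν) x * (x - 0) - psi (gof α ν) x ^ 2) * phi (x - 0)) +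
      ((1 - α) * β / 2 * ((2 * psi (gof α ν) x * (x - u) - psi (gof α ν) x ^ 2) * phi (x - u)) +
       (1 - α) * β / 2 *
        ((2 * psi (gof α ν) x * (x - -u) - psi (gof α ν) x ^ 2) * phi (x - -u))) := by
    intro x
    have e1 : lin α β u (gof α ν) x = -(psi (gof α ν) x) ^ 2 * (phi x * W1 α β u x)
        - 2 * psi (gof α ν) x * (phi x * W2 α β u x) := by
      unfold lin; ring
    rw [e1, ← phi_W1, ← phi_W2]
    unfold kap dkap
    rw [sub_neg_eq_add, sub_zero]
    ring
  simp_rw [hpt]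
  rw [integral_add, integral_add, integral_const_mul, integral_const_mul, integral_const_mul]
  · have := Lf_gof_even h0 h1 ν u
    unfold Lf at this ⊢
    rw [this]
    ring
  · exact (integrable_Lf_integrand hG u).const_mul _
  · exact (integrable_Lf_integrand hG (-u)).const_mul _
  · exact (integrable_Lf_integrand hG 0).const_mul _
  · exact ((integrable_Lf_integrand hG u).const_mul _).add
      ((integrable_Lf_integrand hG (-u)).const_mul _)

end Var

end Pool.Agent.FisherMin
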